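import Mathlib

/-!
Polynomial self-maps of affine space such that the degrees of the coordinates which are smaller
than the largest one are pairwise distinct: definitions.
-/

set_option autoImplicit false

namespace Pool.Agent.Lib.MP_9ec2c5_gen

open MvPolynomial

section general

variable {K : Type} [Field K] {N : ℕ}

/-- The coordinate polynomials of the `n`-th iterate of the polynomial map `F`. -/
noncomputable def iter (F : Fin N → MvPolynomial (Fin N) K) : ℕ → Fin N → MvPolynomial (Fin N) K
  | 0 => X
  | n + 1 => fun i => bind₁ (iter F n) (F i)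

/-- The degree of the `n`-th iterate: the largest total degree of its coordinates. -/
noncomputable def iterDeg (F : Fin N → MvPolynomial (Fin N) K) (n : ℕ) : ℕ :=
  Finset.univ.sup fun i => (iter F n i).totalDegree

/-- One plus the absolute logarithmic Weil height of the point `[1 : P]` of projective space. -/
noncomputable def weilHeight [NumberField K] (P : Fin N → K) : ℝ :=
  1 + Height.logHeight (Fin.cons 1 P : Fin (N + 1) → K) / (Module.finrank ℚ K : ℝ)

/-- The genericity condition on the leading forms `T j` (of degree `d j`) of the `F j`, where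
`d 0 < .. < d r` and `d j = d r` for `j ≥ r`. For `k < r`: whenever a point `t` has `t i = 0` for
`i < k`, `t k = 1` and `T j (t) = 0` for all `j > k`, then `T k (t) ≠ 0` and the Jacobian
determinant of the `T j`, `j > k`, with respect to the variables of index `> k` does not vanish at
`t`. And the forms `T j`, `j ≥ r`, of largest degree have no common zero `t ≠ 0` with `t i = 0` for
all `i < r`. -/
def Generic (F : Fin N → MvPolynomial (Fin N) K) (d : Fin N → ℕ) (r : Fin N) : Prop :=
  (∀ (k : Fin N) (t : Fin N → AlgebraicClosure K), k < r → (∀ i, i < k → t i = 0) → t k = 1 →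
    (∀ j, k < j → aeval t (homogeneousComponent (d j) (F j)) = 0) →
    aeval t (homogeneousComponent (d k) (F k)) ≠ 0 ∧
    (Matrix.of fun i j : {i : Fin N // k < i} =>
      aeval t (pderiv (i : Fin N) (homogeneousComponent (d j) (F j)))).det ≠ 0) ∧
  ∀ t : Fin N → AlgebraicClosure K, (∀ i, i < r → t i = 0) →
    (∀ j, r ≤ j → aeval t (homogeneousComponent (d j) (F j)) = 0) → t = 0

end general

section localpart

variable {L : Type} [Field L] {m : ℕ}

/-- the map on points -/
noncomputable def ev (F : Fin (m + 1) → MvPolynomial (Fin (m + 1)) L) (P : Fin (m + 1) → L) :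
    Fin (m + 1) → L := fun i => eval P (F i)

/-- the largest absolute value of a coordinate -/
noncomputable def nrm (w : AbsoluteValue L ℝ) (P : Fin (m + 1) → L) : ℝ :=
  Finset.univ.sup' ⟨0, Finset.mem_univ _⟩ fun i => w (P i)

/-- the point `P` is of type `k`: the coordinate `k` is comparable to the norm and the coordinates
before it are not -/
def Ty (w : AbsoluteValue L ℝ) (η : ℝ) (k : Fin (m + 1)) (P : Fin (m + 1) → L) : Prop :=
  (∀ i, i < k → w (P i) < η * nrm w P) ∧ η * nrm w P ≤ w (P k)

/-- the chart at infinity in which the coordinate `k` is `1 / x_k` and the others are `x_i / x_k` -/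
noncomputable def chart (k : Fin (m + 1)) (P : Fin (m + 1) → L) : Fin (m + 1) → L :=
  fun i => if i = k then (P k)⁻¹ else P i * (P k)⁻¹

/-- homogenisation in degree `D`, with the variable `k` as homogenising variable and the old
variable `k` set to one -/
noncomputable def hom (k : Fin (m + 1)) (D : ℕ) (p : MvPolynomial (Fin (m + 1)) L) :
    MvPolynomial (Fin (m + 1)) L :=
  ∑ s ∈ p.support, monomial (Finsupp.update s k (D - s.degree)) (coeff s p)

/-- a formal germ of dimension `k + 1`: the variables of index `> k` as polynomials in those of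
index `≤ k` -/
def IsGerm (k : Fin (m + 1)) (γ : Fin (m + 1) → MvPolynomial (Fin (m + 1)) L) : Prop :=
  (∀ i, i ≤ k → γ i = X i) ∧ ∀ j, k < j → γ j ∈ supported L {i : Fin (m + 1) | i ≤ k}

/-- the order at the origin is at least `q` -/
def Ord (q : ℕ) (p : MvPolynomial (Fin (m + 1)) L) : Prop := ∀ s ∈ p.support, q ≤ s.degree

variable (L m) in
/-- A polynomial map with the degrees of its coordinates, its base points at infinity, and the
algebraic facts about its leading forms. -/
structure Data where
  F : Fin (m + 1) → MvPolynomial (Fin (m + 1)) L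
  d : Fin (m + 1) → ℕ
  r : Fin (m + 1)
  hlt : ∀ i j, i < j → i < r → d i < d j
  htop : ∀ j, r ≤ j → d j = d r
  hd0 : 1 ≤ d 0
  hF : ∀ i, (F i).totalDegree ≤ d i
  B : Fin (m + 1) → Finset (Fin (m + 1) → L)
  null1 : ∀ k i : Fin (m + 1), k ≤ r → ∃ A : ℕ, (X i : MvPolynomial (Fin (m + 1)) L) ^ A ∈
    Ideal.span ({p | ∃ l, l < k ∧ p = X l} ∪
      {p | ∃ j, k ≤ j ∧ p = homogeneousComponent (d j) (F j)})
  null2 : ∀ (k : Fin (m + 1)) (φ : (Fin (m + 1) → L) → Fin (m + 1)), k < r → (∀ β, k < φ β) →
    ∃ A : ℕ, ((X k : MvPolynomial (Fin (m + 1)) L) *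
      ∏ β ∈ B k, (X (φ β) - C (β (φ β)) * X k)) ^ A ∈
    Ideal.span ({p | ∃ l, l < k ∧ p = X l} ∪
      {p | ∃ j, k < j ∧ p = homogeneousComponent (d j) (F j)})
  base : ∀ (k : Fin (m + 1)) (β : Fin (m + 1) → L), β ∈ B k →
    (∀ i, i < k → β i = 0) ∧ β k = 1 ∧
    (∀ j, k < j → eval β (homogeneousComponent (d j) (F j)) = 0) ∧
    eval β (homogeneousComponent (d k) (F k)) ≠ 0 ∧
    (Matrix.of fun i j : {i : Fin (m + 1) // k < i} =>
      eval β (pderiv (i : Fin (m + 1)) (homogeneousComponent (d j) (F j)))).det ≠ 0

/-- the leading forms -/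
noncomputable def Data.T (D : Data L m) (i : Fin (m + 1)) : MvPolynomial (Fin (m + 1)) L :=
  homogeneousComponent (D.d i) (D.F i)

/-- the largest degree -/
def Data.dl (D : Data L m) : ℕ := D.d D.r

/-- the coordinates of index `< r` are not comparable to the norm -/
def Fast (w : AbsoluteValue L ℝ) (D : Data L m) (η : ℝ) (P : Fin (m + 1) → L) : Prop :=
  ∀ i, i < D.r → w (P i) < η * nrm w P

/-- a number `η` such that the leading forms of index `≥ k` have no common zero, uniformly, on the
normalised points whose coordinates of index `< k` are at most `η` -/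
def Good (w : AbsoluteValue L ℝ) (D : Data L m) (η : ℝ) : Prop :=
  0 < η ∧ η ≤ 1 ∧ ∀ (k : Fin (m + 1)) (u : Fin (m + 1) → L), k ≤ D.r → (∀ i, w (u i) ≤ 1) →
    (∃ i, u i = 1) → (∀ l, l < k → w (u l) ≤ η) → ∃ j, k ≤ j ∧ η ≤ w (eval u (D.T j))

/-- the small parameter attached to a point -/
noncomputable def vp (w : AbsoluteValue L ℝ) (D : Data L m) (P : Fin (m + 1) → L) : ℝ :=
  (nrm w P) ^ (-(1 / (D.dl : ℝ)))

end localpart

end Pool.Agent.Lib.MP_9ec2c5_gen
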