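import Mathlib
import Pool.Agent.Lib.MP_9ec2c5_gen.Defs

/-!
From the genericity condition to the algebraic facts used in the proof, over a finite extension.
-/

set_option autoImplicit false

namespace Pool.Agent.Lib.MP_9ec2c5_gen

open MvPolynomial

namespace NullBase

/-- Nullstellensatz. -/
theorem null {L Ω : Type} [Field L] [Field Ω] [Algebra L Ω] [IsAlgClosed Ω] {N : ℕ}
    (S : Set (MvPolynomial (Fin N) L)) (p : MvPolynomial (Fin N) L)
    (h : ∀ t : Fin N → Ω, (∀ s ∈ S, aeval t s = 0) → aeval t p = 0) :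
    ∃ A : ℕ, p ^ A ∈ Ideal.span S := by
  have h1 : p ∈ vanishingIdeal L (zeroLocus Ω (Ideal.span S)) := by
    intro x hx
    exact h x fun s hs => hx s (Ideal.subset_span hs)
  rw [vanishingIdeal_zeroLocus_eq_radical] at h1
  exact h1

variable {K : Type} [Field K] {Ω : Type} [Field Ω] [Algebra K Ω] {N : ℕ}

/-- The coefficients of a polynomial along a line. -/
theorem coeff_line (t : Fin N → Ω) (p : MvPolynomial (Fin N) K) (n : ℕ) :
    (aeval (fun i => Polynomial.C (t i) * Polynomial.X) p : Polynomial Ω).coeff n =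
      aeval t (homogeneousComponent n p) := by
  induction p using MvPolynomial.induction_on' with
  | monomial s a =>
    rw [aeval_monomial]
    have e1 : (s.prod fun i k => (Polynomial.C (t i) * Polynomial.X : Polynomial Ω) ^ k) =
        Polynomial.C (s.prod fun i k => t i ^ k) * Polynomial.X ^ s.degree := by
      rw [Finsupp.prod, Finsupp.prod]
      simp only [mul_pow]
      rw [Finset.prod_mul_distrib, map_prod, Finset.prod_pow_eq_pow_sum]
      congr 1
      exact Finset.prod_congr rfl fun i _ => by rw [map_pow]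
    have e2 : (algebraMap K (Polynomial Ω)) a = Polynomial.C (algebraMap K Ω a) := rfl
    rw [e1, e2, ← mul_assoc, ← map_mul, Polynomial.coeff_C_mul_X_pow]
    have e3 : monomial s a ∈ homogeneousSubmodule (Fin N) K s.degree :=
      (mem_homogeneousSubmodule _ _).2 (isHomogeneous_monomial a rfl)
    rw [homogeneousComponent_of_mem e3]
    by_cases hs : n = s.degree
    · rw [if_pos hs, if_pos hs, aeval_monomial]
    · rw [if_neg hs, if_neg hs, map_zero]
  | add p q hp hq =>
    rw [map_add, Polynomial.coeff_add, hp, hq, map_add, map_add]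

/-- Homogeneous polynomials along a line. -/
theorem aeval_line (t : Fin N → Ω) {p : MvPolynomial (Fin N) K} {n : ℕ} (hp : p.IsHomogeneous n) :
    (aeval (fun i => Polynomial.C (t i) * Polynomial.X) p : Polynomial Ω) =
      Polynomial.C (aeval t p) * Polynomial.X ^ n := by
  ext k
  rw [coeff_line, Polynomial.coeff_C_mul_X_pow,
    homogeneousComponent_of_mem ((mem_homogeneousSubmodule _ _).2 hp)]
  split_ifs <;> simp

/-- Scaling. -/
theorem aeval_smul (c : Ω) (t : Fin N → Ω) {p : MvPolynomial (Fin N) K} {n : ℕ}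
    (hp : p.IsHomogeneous n) : aeval (fun i => t i * c) p = aeval t p * c ^ n := by
  have h := congrArg ((Polynomial.aeval c).restrictScalars K) (aeval_line t hp)
  rw [comp_aeval_apply] at h
  have e1 : (fun i => ((Polynomial.aeval c).restrictScalars K) (Polynomial.C (t i) * Polynomial.X)) =
      fun i => t i * c := by
    funext i
    simp
  have e2 : ((Polynomial.aeval c).restrictScalars K)
      (Polynomial.C (aeval t p) * Polynomial.X ^ n : Polynomial Ω) = aeval t p * c ^ n := by
    rw [AlgHom.restrictScalars_apply, map_mul, map_pow, Polynomial.aeval_C, Polynomial.aeval_X]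
    rfl
  rw [e1, e2] at h
  exact h

/-- Finiteness. -/
theorem finite_pts (B : Set (Fin N → Ω)) (A : Fin N → ℕ) (q : Fin N → MvPolynomial (Fin N) K)
    (hq : ∀ i, (q i).totalDegree < A i) (h : ∀ t ∈ B, ∀ i, t i ^ A i = aeval t (q i)) :
    B.Finite := by
  classical
  set φ : MvPolynomial (Fin N) K →ₐ[K] (B → Ω) := AlgHom.pi (fun t : B => aeval t.1) with hφ
  have hφa : ∀ p (t : B), φ p t = aeval t.1 p := fun p t => rfl
  set D : ℕ := ∑ i, A i with hD
  set S := (restrictTotalDegree (Fin N) K D).map φ.toLinearMap with hS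
  have key : ∀ n : ℕ, ∀ p : MvPolynomial (Fin N) K, p.totalDegree ≤ n → φ p ∈ S := by
    intro n
    induction n using Nat.strong_induction_on with
    | _ n ih =>
      intro p hp
      rw [p.as_sum, map_sum]
      refine Submodule.sum_mem _ fun s hs => ?_
      have hsn : s.degree ≤ n := (le_totalDegree hs).trans hp
      by_cases hsD : s.degree ≤ D
      · refine Submodule.mem_map_of_mem ?_
        rw [mem_restrictTotalDegree]
        exact (totalDegree_monomial_le _ _).trans hsD
      · obtain ⟨i, hi⟩ : ∃ i, A i ≤ s i := by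
          by_contra hcon
          push Not at hcon
          apply hsD
          rw [hD, Finsupp.degree_eq_sum]
          exact Finset.sum_le_sum fun i _ => (hcon i).le
        have e1 : s = (s - Finsupp.single i (A i)) + Finsupp.single i (A i) := by
          ext j
          rw [Finsupp.add_apply, Finsupp.tsub_apply]
          by_cases hj : j = i
          · subst hj; rw [Finsupp.single_eq_same]; omega
          · rw [Finsupp.single_eq_of_ne hj]; omega
        have e2 : φ (monomial s (coeff s p)) =
            φ (monomial (s - Finsupp.single i (A i)) (coeff s p) * q i) := by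
          funext t
          rw [hφa, hφa, map_mul, ← h t.1 t.2 i]
          have e3 : monomial s (coeff s p) = monomial (s - Finsupp.single i (A i)) (coeff s p) *
              X i ^ A i := by
            rw [X_pow_eq_monomial, monomial_mul, mul_one, ← e1]
          rw [e3, map_mul, map_pow, aeval_X]
        rw [e2]
        have hdeg : (s - Finsupp.single i (A i)).degree + A i = s.degree := by
          conv_rhs => rw [e1]
          rw [map_add, Finsupp.degree_single]
        have hqi := hq i
        refine ih (s.degree - 1) (by omega) _ ?_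
        refine (totalDegree_mul _ _).trans ?_
        have h5 := totalDegree_monomial_le (s - Finsupp.single i (A i)) (coeff s p)
        have h6 : (monomial (s - Finsupp.single i (A i)) (coeff s p)).totalDegree ≤
            (s - Finsupp.single i (A i)).degree := h5
        omega
  have hfin : Module.Finite K S := inferInstance
  have hrange : φ.range.toSubmodule ≤ S := by
    rintro _ ⟨p, rfl⟩
    exact key _ p le_rfl
  have hfin2 : Module.Finite K φ.range := by
    have : Module.Finite K φ.range.toSubmodule := Submodule.finiteDimensional_of_le hrange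
    exact this
  have hint : ∀ i : Fin N, ∃ f : Polynomial K, f ≠ 0 ∧ ∀ t ∈ B, Polynomial.aeval (t i) f = 0 := by
    intro i
    have h1 : IsIntegral K (⟨φ (X i), ⟨X i, rfl⟩⟩ : φ.range) := Algebra.IsIntegral.isIntegral _
    obtain ⟨f, hf, hf0⟩ := h1
    refine ⟨f, hf.ne_zero, fun t ht => ?_⟩
    have h2 : Polynomial.aeval (⟨φ (X i), ⟨X i, rfl⟩⟩ : φ.range) f = 0 := hf0
    have h3 := congrArg (fun z : φ.range => (z : B → Ω) ⟨t, ht⟩) h2
    have h4 : ((Polynomial.aeval (⟨φ (X i), ⟨X i, rfl⟩⟩ : φ.range) f : φ.range) : B → Ω) ⟨t, ht⟩ =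
        Polynomial.aeval (φ (X i) ⟨t, ht⟩) f := by
      have e1 := Polynomial.aeval_algHom_apply
        ((Pi.evalAlgHom K (fun _ : B => Ω) ⟨t, ht⟩).comp φ.range.val)
        (⟨φ (X i), ⟨X i, rfl⟩⟩ : φ.range) f
      exact e1.symm
    have h5 : φ (X i) ⟨t, ht⟩ = t i := by rw [hφa, aeval_X]
    rw [h5] at h4
    rw [← h4]
    exact h3
  choose f hf0 hf using hint
  have hfinr : ∀ i, {x : Ω | Polynomial.aeval x (f i) = 0}.Finite := by
    intro i
    have h1 : (f i).map (algebraMap K Ω) ≠ 0 := by
      rw [Ne, Polynomial.map_eq_zero]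
      exact hf0 i
    refine (Finset.finite_toSet ((f i).map (algebraMap K Ω)).roots.toFinset).subset ?_
    intro x hx
    rw [Finset.mem_coe, Multiset.mem_toFinset, Polynomial.mem_roots h1, Polynomial.IsRoot.def,
      Polynomial.eval_map_algebraMap]
    exact hx
  exact (Set.Finite.pi' hfinr).subset fun t ht i => hf i t ht

theorem hc_map {A B : Type} [CommSemiring A] [CommSemiring B] (f : A →+* B) (n : ℕ)
    (p : MvPolynomial (Fin N) A) :
    homogeneousComponent n (map f p) = map f (homogeneousComponent n p) := by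
  ext s
  rw [coeff_homogeneousComponent, coeff_map, coeff_map, coeff_homogeneousComponent]
  split_ifs <;> simp

theorem alg_eval {L : Type} [Field L] [Algebra K L] [Algebra L Ω] [IsScalarTower K L Ω]
    (β : Fin N → L) (p : MvPolynomial (Fin N) K) :
    algebraMap L Ω (eval β (map (algebraMap K L) p)) = aeval (fun i => algebraMap L Ω (β i)) p := by
  have e1 : eval β (map (algebraMap K L) p) = aeval β p := by
    rw [eval_map, aeval_def]
  rw [e1]
  exact (aeval_algebraMap_apply (B := Ω) β p).symm

variable {m : ℕ} {F : Fin (m + 1) → MvPolynomial (Fin (m + 1)) K} {d : Fin (m + 1) → ℕ}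
  {r : Fin (m + 1)}

/-- The leading forms of index `≥ k` and the variables of index `< k` have only the zero `0`. -/
theorem zero_only (hG : Generic F d r) {k : Fin (m + 1)} (hk : k ≤ r)
    (t : Fin (m + 1) → AlgebraicClosure K) (h1 : ∀ l, l < k → t l = 0)
    (h2 : ∀ j, k ≤ j → aeval t (homogeneousComponent (d j) (F j)) = 0) : t = 0 := by
  by_contra hne
  obtain ⟨i₀, hi₀⟩ : ∃ i, t i ≠ 0 := by
    by_contra hcon
    push Not at hcon
    exact hne (funext hcon)
  obtain ⟨k', hk'0, hk'⟩ : ∃ k', t k' ≠ 0 ∧ ∀ i, i < k' → t i = 0 := by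
    refine ⟨WellFounded.min wellFounded_lt {i | t i ≠ 0} ⟨i₀, hi₀⟩,
      WellFounded.min_mem wellFounded_lt {i | t i ≠ 0} ⟨i₀, hi₀⟩, fun i hi => ?_⟩
    by_contra hcon
    exact WellFounded.not_lt_min wellFounded_lt {i | t i ≠ 0} hcon hi
  have hkk' : k ≤ k' := by
    by_contra hcon
    exact hk'0 (h1 k' (not_le.1 hcon))
  rcases le_or_gt r k' with hr | hr
  · exact hne (hG.2 t (fun i hi => hk' i (hi.trans_le hr)) fun j hj => h2 j (hk.trans hj))
  · have hs : ∀ j, aeval (fun i => t i * (t k')⁻¹) (homogeneousComponent (d j) (F j)) =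
        aeval t (homogeneousComponent (d j) (F j)) * (t k')⁻¹ ^ d j := fun j =>
      aeval_smul _ t (homogeneousComponent_isHomogeneous _ _)
    refine (hG.1 k' (fun i => t i * (t k')⁻¹) hr (fun i hi => ?_) (mul_inv_cancel₀ hk'0)
      fun j hj => ?_).1 ?_
    · rw [hk' i hi, zero_mul]
    · rw [hs, h2 j (hkk'.trans hj.le), zero_mul]
    · rw [hs, h2 k' hkk', zero_mul]

variable (F d) in
/-- The base points. -/
def Bs (k : Fin (m + 1)) : Set (Fin (m + 1) → AlgebraicClosure K) :=
  {t | (∀ i, i < k → t i = 0) ∧ t k = 1 ∧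
    ∀ j, k < j → aeval t (homogeneousComponent (d j) (F j)) = 0}

theorem Bs_finite (hG : Generic F d r) {k : Fin (m + 1)} (hk : k < r) : (Bs F d k).Finite := by
  have hk1 : (k : ℕ) + 1 < m + 1 := by
    have h1 := r.isLt
    have h2 : (k : ℕ) < r := hk
    omega
  set S' : Set (MvPolynomial (Fin (m + 1)) K) := {p | ∃ l, l < k ∧ p = X l} ∪
    {p | ∃ j, k < j ∧ p = homogeneousComponent (d j) (F j)} with hS'
  have key : ∀ i : Fin (m + 1), ∃ (A : ℕ) (a : MvPolynomial (Fin (m + 1)) K),
      X i ^ A - a * X k ∈ Ideal.span S' := by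
    intro i
    obtain ⟨A, hA⟩ := null (Ω := AlgebraicClosure K) (insert (X k) S') (X i) (by
      intro t ht
      have h0 := zero_only hG (k := ⟨k + 1, hk1⟩) (by
        have h2 : (k : ℕ) < r := hk
        show (k : ℕ) + 1 ≤ r
        omega) t (by
        intro l hl
        have hl' : (l : ℕ) < k + 1 := hl
        rcases Nat.lt_succ_iff_lt_or_eq.1 hl' with h | h
        · have := ht (X l) (Or.inr (Or.inl ⟨l, h, rfl⟩))
          rwa [aeval_X] at this
        · have hlk : l = k := Fin.ext h
          have := ht (X k) (Or.inl rfl)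
          rw [aeval_X] at this
          rw [hlk]; exact this) (by
        intro j hj
        have hj' : (k : ℕ) + 1 ≤ j := hj
        exact ht _ (Or.inr (Or.inr ⟨j, show (k : ℕ) < j by omega, rfl⟩)))
      rw [h0, aeval_X]
      rfl)
    obtain ⟨a, z, hz, hza⟩ := Ideal.mem_span_insert.1 hA
    refine ⟨A, a, ?_⟩
    rw [hza, add_sub_cancel_left]
    exact hz
  choose A a ha using key
  refine finite_pts (K := K) (Bs F d k) (fun i => A i + 1)
    (fun i => homogeneousComponent (A i) (X i * a i)) ?_ ?_
  · intro i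
    exact Nat.lt_succ_of_le (homogeneousComponent_isHomogeneous _ _).totalDegree_le
  · intro t ht i
    obtain ⟨ht1, ht2, ht3⟩ := ht
    have hker : Ideal.span S' ≤ RingHom.ker (aeval (R := K)
        (fun i => Polynomial.C (t i) * Polynomial.X) :
          MvPolynomial (Fin (m + 1)) K →ₐ[K] Polynomial (AlgebraicClosure K)) := by
      rw [Ideal.span_le]
      rintro p (⟨l, hl, rfl⟩ | ⟨j, hj, rfl⟩)
      · rw [SetLike.mem_coe, RingHom.mem_ker, aeval_X, ht1 l hl, map_zero, zero_mul]
      · rw [SetLike.mem_coe, RingHom.mem_ker, aeval_line t (homogeneousComponent_isHomogeneous _ _),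
          ht3 j hj, map_zero, zero_mul]
    have h1 := hker (Ideal.mul_mem_left _ (X i) (ha i))
    rw [RingHom.mem_ker, mul_sub, map_sub, sub_eq_zero, ← mul_assoc, map_mul (aeval _) (X i * a i),
      ← pow_succ', map_pow, aeval_X, aeval_X, ht2, map_one, one_mul] at h1
    have h2 := congrArg (fun p : Polynomial (AlgebraicClosure K) => p.coeff (A i + 1)) h1
    simp only [Polynomial.coeff_mul_X, coeff_line] at h2
    rw [mul_pow, ← map_pow, Polynomial.coeff_C_mul_X_pow, if_pos rfl] at h2
    exact h2

end NullBase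

open NullBase

theorem exists_data {K : Type} [Field K] [CharZero K] {m : ℕ}
    (F : Fin (m + 1) → MvPolynomial (Fin (m + 1)) K) (d : Fin (m + 1) → ℕ) (r : Fin (m + 1))
    (hlt : ∀ i j, i < j → i < r → d i < d j) (htop : ∀ j, r ≤ j → d j = d r)
    (hd0 : 1 ≤ d 0) (hF : ∀ i, (F i).totalDegree ≤ d i) (hG : Generic F d r) :
    ∃ (L : Type) (_ : Field L) (_ : Algebra K L) (_ : FiniteDimensional K L) (D : Data L m),
      (∀ i, D.F i = map (algebraMap K L) (F i)) ∧ D.d = d ∧ D.r = r := by
  classical
  set Ω := AlgebraicClosure K with hΩ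
  set S₀ : Set Ω := ⋃ k ∈ {k : Fin (m + 1) | k < r}, ⋃ t ∈ Bs F d k, Set.range t with hS₀
  have hS₀fin : S₀.Finite := by
    refine Set.Finite.biUnion (Set.toFinite _) fun k hk => ?_
    exact Set.Finite.biUnion (Bs_finite hG hk) fun t _ => Set.finite_range t
  have : Finite S₀ := hS₀fin
  have hfd : FiniteDimensional K (IntermediateField.adjoin K S₀) :=
    IntermediateField.finiteDimensional_adjoin fun x _ => Algebra.IsIntegral.isIntegral x
  set L := IntermediateField.adjoin K S₀ with hL
  have hlift : ∀ k, k < r → ∀ t ∈ Bs F d k, ∃ β : Fin (m + 1) → L,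
      (fun i => algebraMap L Ω (β i)) = t := by
    intro k hk t ht
    refine ⟨fun i => ⟨t i, IntermediateField.subset_adjoin K S₀ ?_⟩, rfl⟩
    rw [hS₀]
    exact Set.mem_biUnion hk (Set.mem_biUnion ht ⟨i, rfl⟩)
  have hinj : Function.Injective (algebraMap L Ω) := (algebraMap L Ω).injective
  have hBfin : ∀ k, k < r → {β : Fin (m + 1) → L | (fun i => algebraMap L Ω (β i)) ∈
      Bs F d k}.Finite := by
    intro k hk
    refine Set.Finite.preimage (f := fun (β : Fin (m + 1) → L) i => algebraMap L Ω (β i)) ?_
      (Bs_finite hG hk)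
    intro β _ β' _ h
    funext i
    exact hinj (congrFun h i)
  set B : Fin (m + 1) → Finset (Fin (m + 1) → L) := fun k =>
    if hk : k < r then (hBfin k hk).toFinset else ∅ with hB
  have hBmem : ∀ k β, β ∈ B k ↔ k < r ∧ (fun i => algebraMap L Ω (β i)) ∈ Bs F d k := by
    intro k β
    simp only [hB]
    split_ifs with hk
    · simp [hk]
    · simp [hk]
  have hval : ∀ (t : Fin (m + 1) → Ω) (j : Fin (m + 1)),
      aeval t (homogeneousComponent (d j) (map (algebraMap K L) (F j))) =
        aeval t (homogeneousComponent (d j) (F j)) := by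
    intro t j
    rw [hc_map, aeval_map_algebraMap]
  refine ⟨L, inferInstance, inferInstance, hfd, {
    F := fun i => map (algebraMap K L) (F i)
    d := d
    r := r
    hlt := hlt
    htop := htop
    hd0 := hd0
    hF := fun i => (Finset.sup_mono (support_map_subset _ _)).trans (hF i)
    B := B
    null1 := ?_
    null2 := ?_
    base := ?_ }, fun _ => rfl, rfl, rfl⟩
  · intro k i hk
    refine null (Ω := Ω) _ _ fun t ht => ?_
    have h0 := zero_only hG hk t (by
      intro l hl
      have := ht (X l) (Or.inl ⟨l, hl, rfl⟩)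
      rwa [aeval_X] at this) (by
      intro j hj
      have := ht _ (Or.inr ⟨j, hj, rfl⟩)
      rwa [hval] at this)
    rw [h0, aeval_X]
    rfl
  · intro k φ hk hφ
    refine null (Ω := Ω) _ _ fun t ht => ?_
    rw [map_mul, aeval_X, map_prod]
    by_cases hk0 : t k = 0
    · rw [hk0, zero_mul]
    have htB : (fun i => t i * (t k)⁻¹) ∈ Bs F d k := by
      refine ⟨fun i hi => ?_, mul_inv_cancel₀ hk0, fun j hj => ?_⟩
      · have := ht (X i) (Or.inl ⟨i, hi, rfl⟩)
        rw [aeval_X] at this
        show t i * (t k)⁻¹ = 0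
        rw [this, zero_mul]
      · have := ht _ (Or.inr ⟨j, hj, rfl⟩)
        rw [hval] at this
        rw [aeval_smul _ t (homogeneousComponent_isHomogeneous _ _), this, zero_mul]
    obtain ⟨β, hβ⟩ := hlift k hk _ htB
    have hβB : β ∈ B k := by
      rw [hBmem]
      exact ⟨hk, by rw [hβ]; exact htB⟩
    have h1 : aeval t (X (φ β) - C (β (φ β)) * X k : MvPolynomial (Fin (m + 1)) L) = 0 := by
      rw [map_sub, map_mul, aeval_X, aeval_X, aeval_C, sub_eq_zero]
      have h2 : algebraMap L Ω (β (φ β)) = t (φ β) * (t k)⁻¹ := congrFun hβ (φ β)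
      rw [h2, mul_assoc, inv_mul_cancel₀ hk0, mul_one]
    rw [Finset.prod_eq_zero hβB h1, mul_zero]
  · intro k β hβ
    rw [hBmem] at hβ
    obtain ⟨hk, hβ1, hβ2, hβ3⟩ := hβ
    obtain ⟨g1, g2⟩ := hG.1 k (fun i => algebraMap L Ω (β i)) hk hβ1 hβ2 hβ3
    have hv : ∀ j, algebraMap L Ω (eval β (homogeneousComponent (d j) (map (algebraMap K L) (F j)))) =
        aeval (fun i => algebraMap L Ω (β i)) (homogeneousComponent (d j) (F j)) := by
      intro j
      rw [hc_map, alg_eval]
    refine ⟨fun i hi => ?_, ?_, fun j hj => ?_, ?_, ?_⟩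
    · exact hinj ((hβ1 i hi).trans (map_zero _).symm)
    · exact hinj (hβ2.trans (map_one _).symm)
    · exact hinj (by rw [hv, hβ3 j hj, map_zero])
    · intro h
      apply g1
      rw [← hv, h, map_zero]
    · intro h
      apply g2
      have h1 := congrArg (algebraMap L Ω) h
      rw [RingHom.map_det, map_zero] at h1
      rw [← h1]
      congr 1
      ext i j
      simp only [Matrix.of_apply, RingHom.mapMatrix_apply, Matrix.map_apply]
      rw [hc_map, pderiv_map, alg_eval]

end Pool.Agent.Lib.MP_9ec2c5_gen
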