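import Mathlib
import Pool.Agent.Lib.MP_9ec2c5_gen.NullBase
import Pool.Agent.Lib.MP_9ec2c5_nt_h65.Degree

/-!
Degrees of the iterates.
-/

set_option autoImplicit false

namespace Pool.Agent.Lib.MP_9ec2c5_gen

open MvPolynomial Filter Topology

/-- values of the iterates -/
theorem eval_iter {K : Type} [Field K] {N : ℕ} (F : Fin N → MvPolynomial (Fin N) K)
    (P : ℕ → Fin N → K) (hP : ∀ n i, P (n + 1) i = eval (P n) (F i)) (n s : ℕ) (i : Fin N) :
    P (s + n) i = eval (P s) (iter F n i) := by
  induction n generalizing i with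
  | zero => rw [add_zero, iter, eval_X]
  | succ n ih =>
    rw [← add_assoc, hP, iter]
    have h1 : eval (P s) (bind₁ (iter F n) (F i)) =
        eval (fun j => eval (P s) (iter F n j)) (F i) := by
      have h2 := aeval_bind₁ (S := K) (P s) (iter F n) (F i)
      rw [aeval_eq_eval, aeval_eq_eval] at h2
      exact h2
    rw [h1]
    congr 2
    funext j
    exact ih j

namespace Deg

theorem totalDegree_prod_pow_le {K : Type} [Field K] {M N : ℕ}
    (g : Fin M → MvPolynomial (Fin N) K) (D : ℕ) (hg : ∀ i, (g i).totalDegree ≤ D)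
    (s : Fin M → ℕ) (T : Finset (Fin M)) :
    (∏ i ∈ T, g i ^ s i).totalDegree ≤ (∑ i ∈ T, s i) * D := by
  classical
  induction T using Finset.induction_on with
  | empty => simp
  | insert a T ha ih =>
    rw [Finset.prod_insert ha, Finset.sum_insert ha, add_mul]
    refine (totalDegree_mul _ _).trans (add_le_add ((totalDegree_pow _ _).trans ?_) ih)
    exact Nat.mul_le_mul_left _ (hg a)

theorem totalDegree_bind_le {K : Type} [Field K] {M N : ℕ}
    (g : Fin M → MvPolynomial (Fin N) K) (D : ℕ) (hg : ∀ i, (g i).totalDegree ≤ D)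
    (p : MvPolynomial (Fin M) K) : (bind₁ g p).totalDegree ≤ p.totalDegree * D := by
  conv_lhs => rw [p.as_sum]
  rw [map_sum]
  refine (totalDegree_finsetSum _ _).trans (Finset.sup_le fun s hs => ?_)
  rw [bind₁_monomial]
  refine (totalDegree_mul _ _).trans ?_
  rw [totalDegree_C, zero_add]
  refine (totalDegree_prod_pow_le g D hg s s.support).trans (Nat.mul_le_mul_right _ ?_)
  exact le_totalDegree hs

section

variable {K : Type} [Field K] {Ω : Type} [Field Ω] [Algebra K Ω] {N : ℕ}

theorem coeff_prod (q : Fin N → Polynomial Ω) (a : ℕ) (hq : ∀ i, (q i).natDegree ≤ a)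
    (s : Fin N → ℕ) (T : Finset (Fin N)) :
    (∏ i ∈ T, q i ^ s i).natDegree ≤ (∑ i ∈ T, s i) * a ∧
      (∏ i ∈ T, q i ^ s i).coeff ((∑ i ∈ T, s i) * a) = ∏ i ∈ T, (q i).coeff a ^ s i := by
  classical
  induction T using Finset.induction_on with
  | empty => simp
  | insert b T hb ih =>
    rw [Finset.prod_insert hb, Finset.sum_insert hb, Finset.prod_insert hb, add_mul]
    have h1 : (q b ^ s b).natDegree ≤ s b * a :=
      Polynomial.natDegree_pow_le.trans (Nat.mul_le_mul_left _ (hq b))
    refine ⟨Polynomial.natDegree_mul_le.trans (add_le_add h1 ih.1), ?_⟩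
    rw [Polynomial.coeff_mul_add_eq_of_natDegree_le h1 ih.1, ih.2,
      Polynomial.coeff_pow_of_natDegree_le (hq b)]

theorem coeff_comp (q : Fin N → Polynomial Ω) (a D : ℕ) (ha : 1 ≤ a)
    (hq : ∀ i, (q i).natDegree ≤ a) (p : MvPolynomial (Fin N) K) (hp : p.totalDegree ≤ D) :
    (aeval q p).natDegree ≤ D * a ∧ (aeval q p).coeff (D * a) =
      aeval (fun i => (q i).coeff a) (homogeneousComponent D p) := by
  have hmon : ∀ (s : Fin N →₀ ℕ) (c : K), aeval q (monomial s c) =
      Polynomial.C (algebraMap K Ω c) * ∏ i ∈ s.support, q i ^ s i := fun s c => by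
    rw [aeval_monomial]
    rfl
  constructor
  · rw [p.as_sum, map_sum]
    refine Polynomial.natDegree_sum_le_of_forall_le _ _ fun s hs => ?_
    rw [hmon]
    refine (Polynomial.natDegree_C_mul_le _ _).trans ((coeff_prod q a hq s s.support).1.trans ?_)
    exact Nat.mul_le_mul_right _ ((le_totalDegree hs).trans hp)
  · rw [homogeneousComponent_apply]
    conv_lhs => rw [p.as_sum]
    rw [map_sum, map_sum, Polynomial.finsetSum_coeff, Finset.sum_filter]
    refine Finset.sum_congr rfl fun s hs => ?_
    have hs1 : s.degree ≤ D := (le_totalDegree hs).trans hp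
    rw [hmon, Polynomial.coeff_C_mul]
    obtain ⟨h1, h2⟩ := coeff_prod q a hq s s.support
    by_cases hsD : s.degree = D
    · rw [if_pos hsD, aeval_monomial]
      have h3 : ∑ i ∈ s.support, s i = D := hsD
      rw [h3] at h2
      rw [h2]
      rfl
    · rw [if_neg hsD, Polynomial.coeff_eq_zero_of_natDegree_lt, mul_zero]
      have h3 : s.degree < D := lt_of_le_of_ne hs1 hsD
      refine lt_of_le_of_lt h1 ?_
      exact Nat.mul_lt_mul_of_pos_right h3 (by omega)

end

end Deg

/-- the degree of the `n`-th iterate is the `n`-th power of the largest degree -/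
theorem iterDeg_eq {K : Type} [Field K] {m : ℕ} (F : Fin (m + 1) → MvPolynomial (Fin (m + 1)) K)
    (d : Fin (m + 1) → ℕ) (r : Fin (m + 1))
    (hlt : ∀ i j, i < j → i < r → d i < d j) (htop : ∀ j, r ≤ j → d j = d r) (hd0 : 1 ≤ d 0)
    (hF : ∀ i, (F i).totalDegree ≤ d i) (hG : Generic F d r) (n : ℕ) :
    iterDeg F n = d r ^ n := by
  have hdr : 1 ≤ d r := by
    rcases (Fin.zero_le r).eq_or_lt with h | h
    · rw [← h]; exact hd0
    · exact hd0.trans (hlt 0 r h h).le
  have hle : ∀ i, d i ≤ d r := by
    intro i
    rcases le_or_gt r i with h | h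
    · exact (htop i h).le
    · exact (hlt i r h h).le
  have hFD : ∀ i, (F i).totalDegree ≤ d r := fun i => (hF i).trans (hle i)
  apply le_antisymm
  · -- upper bound
    unfold iterDeg
    refine Finset.sup_le fun i _ => ?_
    induction n generalizing i with
    | zero => rw [iter, totalDegree_X, pow_zero]
    | succ n ih =>
      rw [iter, pow_succ']
      exact (Deg.totalDegree_bind_le _ _ (fun j => ih j (Finset.mem_univ _)) _).trans
        (Nat.mul_le_mul_right _ (hFD i))
  · -- lower bound
    set Ω := AlgebraicClosure K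
    set c : Fin (m + 1) → Ω := fun i => if i < r then 0 else 1 with hc
    set q : ℕ → Fin (m + 1) → Polynomial Ω := fun n i =>
      aeval (fun l => Polynomial.C (c l) * Polynomial.X) (iter F n i) with hq
    have hqs : ∀ n i, q (n + 1) i = aeval (q n) (F i) := by
      intro n i
      simp only [hq]
      rw [iter, aeval_bind₁]
    have key : ∀ n, (∀ i, (q n i).natDegree ≤ d r ^ n) ∧
        (∀ i, i < r → (q n i).coeff (d r ^ n) = 0) ∧
        (fun i => (q n i).coeff (d r ^ n)) ≠ 0 := by
      intro n
      induction n with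
      | zero =>
        have h0 : ∀ i, q 0 i = Polynomial.C (c i) * Polynomial.X := by
          intro i
          simp only [hq]
          rw [iter, aeval_X]
        refine ⟨fun i => ?_, fun i hi => ?_, fun h => ?_⟩
        · rw [h0, pow_zero]
          exact (Polynomial.natDegree_C_mul_le _ _).trans Polynomial.natDegree_X_le
        · rw [h0, pow_zero, Polynomial.coeff_C_mul_X, if_pos rfl, hc]
          simp [hi]
        · have h1 := congrFun h r
          simp only [h0, pow_zero, Polynomial.coeff_C_mul_X, if_true, hc, lt_irrefl, if_false,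
            Pi.zero_apply] at h1
          exact one_ne_zero h1
      | succ n ih =>
        obtain ⟨h1, h2, h3⟩ := ih
        have hp : 1 ≤ d r ^ n := Nat.one_le_pow _ _ hdr
        have h4 := fun i => Deg.coeff_comp (q n) (d r ^ n) (d r) hp h1 (F i) (hFD i)
        refine ⟨fun i => ?_, fun i hi => ?_, fun h => h3 ?_⟩
        · rw [hqs, pow_succ']
          exact (h4 i).1
        · rw [hqs, pow_succ', (h4 i).2, homogeneousComponent_eq_zero, map_zero]
          exact lt_of_le_of_lt (hF i) (hlt i r hi hi)
        · refine hG.2 _ (fun i hi => h2 i hi) fun j hj => ?_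
          have h5 := congrFun h j
          simp only [Pi.zero_apply] at h5
          rw [hqs, pow_succ', (h4 j).2] at h5
          rw [htop j hj]
          exact h5
    obtain ⟨_, _, h3⟩ := key n
    obtain ⟨i, hi⟩ := Function.ne_iff.1 h3
    simp only [Pi.zero_apply, hq] at hi
    rw [NullBase.coeff_line] at hi
    have h4 : d r ^ n ≤ (iter F n i).totalDegree := by
      by_contra hcon
      apply hi
      rw [homogeneousComponent_eq_zero _ _ (not_le.1 hcon), map_zero]
    exact h4.trans (Finset.le_sup (f := fun i => (iter F n i).totalDegree) (Finset.mem_univ i))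

end Pool.Agent.Lib.MP_9ec2c5_gen
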