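import Mathlib
import Pool.Agent.Lib.MP_9ec2c5_nt_h65.Omega

/-!
Places extend to absolute values of finite extensions.
-/

set_option autoImplicit false

namespace Pool.Agent.Lib.MP_9ec2c5_gen

open Pool.Agent.Lib.MP_9ec2c5_nt_h65

theorem exists_abs_ext {K : Type} [Field K] [NumberField K] {L : Type} [Field L] [Algebra K L]
    [FiniteDimensional K L] (v : AbsoluteValue K ℝ) (hv : IsPlace v) :
    ∃ w : AbsoluteValue L ℝ, ∀ z : K, w (algebraMap K L z) = v z := by
  obtain ⟨Ω, _, _, _, μ, hμ⟩ := exists_extension v hv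
  let φ : L →ₐ[K] Ω := IsAlgClosed.lift
  refine ⟨μ.comp φ.toRingHom.injective, fun z => ?_⟩
  show μ (φ (algebraMap K L z)) = v z
  rw [φ.commutes, hμ]

end Pool.Agent.Lib.MP_9ec2c5_gen
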