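import Mathlib
import Pool.Agent.Lib.MP_9ec2c5_gen.Defs

/-!
Elementary facts about the norm, the types of points, and values of polynomials.
-/

set_option autoImplicit false

namespace Pool.Agent.Lib.MP_9ec2c5_gen

open MvPolynomial

variable {L : Type} [Field L] {m : ℕ} (w : AbsoluteValue L ℝ)

lemma le_nrm (P : Fin (m + 1) → L) (i : Fin (m + 1)) : w (P i) ≤ nrm w P :=
  Finset.le_sup' (fun i => w (P i)) (Finset.mem_univ i)

lemma exists_nrm (P : Fin (m + 1) → L) : ∃ i, w (P i) = nrm w P := by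
  obtain ⟨i, _, hi⟩ := Finset.exists_mem_eq_sup' (s := Finset.univ)
    ⟨(0 : Fin (m + 1)), Finset.mem_univ _⟩ fun i => w (P i)
  exact ⟨i, hi.symm⟩

lemma nrm_nonneg (P : Fin (m + 1) → L) : 0 ≤ nrm w P :=
  (w.nonneg _).trans (le_nrm w P 0)

lemma nrm_le {P : Fin (m + 1) → L} {c : ℝ} (h : ∀ i, w (P i) ≤ c) : nrm w P ≤ c :=
  Finset.sup'_le _ _ fun i _ => h i

/-- every point has a type `k < r`, or is fast -/
lemma exists_ty (D : Data L m) (η : ℝ) (P : Fin (m + 1) → L) :
    Fast w D η P ∨ ∃ k, k < D.r ∧ Ty w η k P := by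
  classical
  by_cases hne : (Finset.univ.filter fun i => i < D.r ∧ η * nrm w P ≤ w (P i)).Nonempty
  · right
    have hmem := Finset.min'_mem _ hne
    rw [Finset.mem_filter] at hmem
    refine ⟨(Finset.univ.filter fun i => i < D.r ∧ η * nrm w P ≤ w (P i)).min' hne, hmem.2.1,
      fun l hl => ?_, hmem.2.2⟩
    by_contra hcon
    push Not at hcon
    exact absurd (Finset.min'_le _ l (Finset.mem_filter.mpr
      ⟨Finset.mem_univ _, hl.trans hmem.2.1, hcon⟩)) (not_le.mpr hl)
  · left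
    intro i hi
    by_contra hcon
    push Not at hcon
    exact hne ⟨i, Finset.mem_filter.mpr ⟨Finset.mem_univ _, hi, hcon⟩⟩

lemma Fast.not_ty {D : Data L m} {η : ℝ} {P : Fin (m + 1) → L} (h : Fast w D η P)
    {k : Fin (m + 1)} (hk : k < D.r) (h' : Ty w η k P) : False :=
  absurd (h k hk) (not_lt.mpr h'.2)

lemma Ty.unique {η : ℝ} {k k' : Fin (m + 1)} {P : Fin (m + 1) → L} (h : Ty w η k P)
    (h' : Ty w η k' P) : k = k' := by
  rcases lt_trichotomy k k' with h1 | h1 | h1
  · exact absurd (h'.1 k h1) (not_lt.mpr h.2)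
  · exact h1
  · exact absurd (h.1 k' h1) (not_lt.mpr h'.2)

/-- value of a polynomial, in terms of the norm -/
theorem eval_le (p : MvPolynomial (Fin (m + 1)) L) (n : ℕ) (h : p.totalDegree ≤ n) :
    ∃ C : ℝ, 0 ≤ C ∧ ∀ P : Fin (m + 1) → L, w (eval P p) ≤ C * (max 1 (nrm w P)) ^ n := by
  refine ⟨∑ s ∈ p.support, w (coeff s p), Finset.sum_nonneg fun _ _ => w.nonneg _, fun P => ?_⟩
  rw [eval_eq']
  refine (w.sum_le _ _).trans ?_
  rw [Finset.sum_mul]
  refine Finset.sum_le_sum fun s hs => ?_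
  rw [map_mul]
  refine mul_le_mul_of_nonneg_left ?_ (w.nonneg _)
  rw [map_prod]
  have h1 : (1 : ℝ) ≤ max 1 (nrm w P) := le_max_left _ _
  calc ∏ i, w (P i ^ s i) ≤ ∏ i, (max 1 (nrm w P)) ^ s i := by
        refine Finset.prod_le_prod (fun _ _ => w.nonneg _) fun i _ => ?_
        rw [map_pow]
        exact pow_le_pow_left₀ (w.nonneg _) ((le_nrm w P i).trans (le_max_right _ _)) _
    _ = (max 1 (nrm w P)) ^ (∑ i, s i) := Finset.prod_pow_eq_pow_sum _ _ _
    _ ≤ (max 1 (nrm w P)) ^ n := by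
        refine pow_le_pow_right₀ h1 (le_trans ?_ h)
        have := le_totalDegree hs
        rwa [Finsupp.sum_fintype _ _ (fun _ => rfl)] at this

/-- value of a polynomial on a bounded set -/
theorem eval_bounded (p : MvPolynomial (Fin (m + 1)) L) (B : ℝ) :
    ∃ C : ℝ, 0 ≤ C ∧ ∀ y : Fin (m + 1) → L, (∀ i, w (y i) ≤ B) → w (eval y p) ≤ C := by
  obtain ⟨C, hC, h⟩ := eval_le w p p.totalDegree (le_refl _)
  refine ⟨C * (max 1 B) ^ p.totalDegree, by positivity, fun y hy => (h y).trans ?_⟩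
  refine mul_le_mul_of_nonneg_left ?_ hC
  exact pow_le_pow_left₀ (le_trans zero_le_one (le_max_left _ _))
    (max_le_max (le_refl _) (nrm_le w hy)) _

/-- difference of two values of a polynomial on a bounded set -/
theorem eval_diff (p : MvPolynomial (Fin (m + 1)) L) (B : ℝ) :
    ∃ C : ℝ, 0 ≤ C ∧ ∀ (y y' : Fin (m + 1) → L) (e : ℝ), (∀ i, w (y i) ≤ B) → (∀ i, w (y' i) ≤ B) →
      (∀ i, w (y i - y' i) ≤ e) → w (eval y p - eval y' p) ≤ C * e := by
  induction p using MvPolynomial.induction_on with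
  | C a =>
    refine ⟨0, le_refl _, fun y y' e _ _ _ => ?_⟩
    simp
  | add p q hp hq =>
    obtain ⟨C1, hC1, h1⟩ := hp
    obtain ⟨C2, hC2, h2⟩ := hq
    refine ⟨C1 + C2, by positivity, fun y y' e hy hy' he => ?_⟩
    have h3 : eval y (p + q) - eval y' (p + q)
        = (eval y p - eval y' p) + (eval y q - eval y' q) := by
      rw [map_add, map_add]
      ring
    rw [h3, add_mul]
    exact (w.add_le _ _).trans (add_le_add (h1 y y' e hy hy' he) (h2 y y' e hy hy' he))
  | mul_X p i hp =>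
    obtain ⟨C1, hC1, h1⟩ := hp
    obtain ⟨C2, hC2, h2⟩ := eval_bounded w p B
    refine ⟨C1 * |B| + C2, by positivity, fun y y' e hy hy' he => ?_⟩
    have h3 : eval y (p * X i) - eval y' (p * X i)
        = (eval y p - eval y' p) * y' i + eval y p * (y i - y' i) := by
      rw [map_mul, map_mul, eval_X, eval_X]
      ring
    have he0 : 0 ≤ e := (w.nonneg _).trans (he i)
    rw [h3]
    refine (w.add_le _ _).trans ?_
    rw [map_mul, map_mul]
    have h4 : w (eval y p - eval y' p) * w (y' i) ≤ (C1 * e) * |B| :=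
      mul_le_mul (h1 y y' e hy hy' he) ((hy' i).trans (le_abs_self _)) (w.nonneg _) (by positivity)
    have h5 : w (eval y p) * w (y i - y' i) ≤ C2 * e :=
      mul_le_mul (h2 y hy) (he i) (w.nonneg _) hC2
    linarith

/-- a polynomial in the variables of index `≤ k` of order at least `q` is small -/
theorem ord_small (k : Fin (m + 1)) (p : MvPolynomial (Fin (m + 1)) L)
    (hs : p ∈ supported L {i : Fin (m + 1) | i ≤ k}) (q : ℕ) (hq : Ord q p) :
    ∃ C : ℝ, 0 ≤ C ∧ ∀ (y : Fin (m + 1) → L) (b : ℝ), 0 ≤ b → b ≤ 1 → (∀ i, i ≤ k → w (y i) ≤ b) →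
      w (eval y p) ≤ C * b ^ q := by
  refine ⟨∑ s ∈ p.support, w (coeff s p), Finset.sum_nonneg fun _ _ => w.nonneg _,
    fun y b hb0 hb1 hy => ?_⟩
  rw [eval_eq']
  refine (w.sum_le _ _).trans ?_
  rw [Finset.sum_mul]
  refine Finset.sum_le_sum fun s hsup => ?_
  rw [map_mul]
  refine mul_le_mul_of_nonneg_left ?_ (w.nonneg _)
  rw [map_prod]
  have hzero : ∀ i, ¬ i ≤ k → s i = 0 := by
    intro i hi
    by_contra hne
    have h1 : i ∈ p.vars := (mem_vars_iff_mem_support i).mpr ⟨s, hsup, Finsupp.mem_support_iff.mpr hne⟩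
    exact hi (mem_supported.mp hs h1)
  calc ∏ i, w (y i ^ s i) ≤ ∏ i, b ^ s i := by
        refine Finset.prod_le_prod (fun _ _ => w.nonneg _) fun i _ => ?_
        rw [map_pow]
        by_cases hi : i ≤ k
        · exact pow_le_pow_left₀ (w.nonneg _) (hy i hi) _
        · rw [hzero i hi, pow_zero, pow_zero]
    _ = b ^ (∑ i, s i) := Finset.prod_pow_eq_pow_sum _ _ _
    _ ≤ b ^ q := by
        refine pow_le_pow_of_le_one hb0 hb1 ?_
        have := hq s hsup
        rwa [Finsupp.degree_eq_sum] at this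

end Pool.Agent.Lib.MP_9ec2c5_gen
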