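import Mathlib
import Pool.Agent.Lib.MP_9ec2c5_gen.Basic

/-!
Homogenisation in a chart at infinity.
-/

set_option autoImplicit false

namespace Pool.Agent.Lib.MP_9ec2c5_gen

open MvPolynomial

variable {L : Type} [Field L] {m : ℕ}

namespace HomLem

theorem degree_le {D : ℕ} {p : MvPolynomial (Fin (m + 1)) L} (h : p.totalDegree ≤ D)
    {s : Fin (m + 1) →₀ ℕ} (hs : s ∈ p.support) : s.degree ≤ D := by
  refine le_trans ?_ h
  have := MvPolynomial.le_totalDegree hs
  rwa [Finsupp.sum_fintype _ _ (fun _ => rfl), ← Finsupp.degree_eq_sum] at this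

theorem degree_split (s : Fin (m + 1) →₀ ℕ) (k : Fin (m + 1)) :
    s.degree = s k + ∑ i ∈ Finset.univ.erase k, s i := by
  rw [Finsupp.degree_eq_sum, Finset.add_sum_erase _ _ (Finset.mem_univ k)]

theorem prod_split {R : Type} [CommMonoid R] (f : Fin (m + 1) → R) (k : Fin (m + 1)) :
    ∏ i, f i = f k * ∏ i ∈ Finset.univ.erase k, f i := by
  rw [Finset.mul_prod_erase _ _ (Finset.mem_univ k)]

theorem prod_update {R : Type} [CommMonoid R] (f : Fin (m + 1) → R) (s : Fin (m + 1) →₀ ℕ)
    (k : Fin (m + 1)) (e : ℕ) :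
    ∏ i, f i ^ (Finsupp.update s k e) i = f k ^ e * ∏ i ∈ Finset.univ.erase k, f i ^ s i := by
  rw [prod_split _ k]
  congr 1
  · simp
  · refine Finset.prod_congr rfl fun i hi => ?_
    rw [Finsupp.update_apply, if_neg (Finset.ne_of_mem_erase hi)]

theorem aeval_pderiv (k i : Fin (m + 1)) (hi : i ≠ k) (T : MvPolynomial (Fin (m + 1)) L) :
    pderiv i (aeval (Function.update (X : Fin (m + 1) → MvPolynomial (Fin (m + 1)) L) k 1) T) =
      aeval (Function.update (X : Fin (m + 1) → MvPolynomial (Fin (m + 1)) L) k 1)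
        (pderiv i T) := by
  induction T using MvPolynomial.induction_on with
  | C a => simp
  | add p q hp hq => rw [map_add, map_add, hp, hq, map_add, map_add]
  | mul_X p n hp =>
    rw [map_mul, Derivation.leibniz, hp, Derivation.leibniz, map_add, smul_eq_mul, smul_eq_mul,
      smul_eq_mul, smul_eq_mul, map_mul, map_mul, aeval_X]
    congr 1
    congr 1
    rcases eq_or_ne n k with rfl | hn
    · rw [Function.update_self, pderiv_X_of_ne hi.symm, map_zero, ← map_one C, pderiv_C]
    · rw [Function.update_of_ne hn]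
      rcases eq_or_ne n i with rfl | hni
      · rw [pderiv_X_self, map_one]
      · rw [pderiv_X_of_ne hni, map_zero]

theorem eval_up (k : Fin (m + 1)) (β : Fin (m + 1) → L) (hβ : β k = 1)
    (T : MvPolynomial (Fin (m + 1)) L) :
    eval (Function.update β k 0)
      (aeval (Function.update (X : Fin (m + 1) → MvPolynomial (Fin (m + 1)) L) k 1) T) =
      eval β T := by
  induction T using MvPolynomial.induction_on with
  | C a => simp
  | add p q hp hq => rw [map_add, map_add, hp, hq, map_add]
  | mul_X p n hp =>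
    rw [map_mul, map_mul, hp, map_mul, aeval_X, eval_X]
    congr 1
    rcases eq_or_ne n k with rfl | hn
    · rw [Function.update_self, map_one, hβ]
    · rw [Function.update_of_ne hn, eval_X, Function.update_of_ne hn]

end HomLem

open HomLem

/-- value of a polynomial in terms of its homogenisation -/
theorem eval_hom (k : Fin (m + 1)) (D : ℕ) (p : MvPolynomial (Fin (m + 1)) L)
    (h : p.totalDegree ≤ D) (P : Fin (m + 1) → L) (hP : P k ≠ 0) :
    eval P p = (P k) ^ D * eval (chart k P) (hom k D p) := by
  unfold hom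
  rw [eval_eq', map_sum, Finset.mul_sum]
  refine Finset.sum_congr rfl fun s hs => ?_
  have hd := degree_le h hs
  have hsp := degree_split s k
  rw [eval_monomial, Finsupp.prod_fintype _ _ (fun _ => pow_zero _), prod_update,
    prod_split (fun i => P i ^ s i) k]
  have e1 : ∏ i ∈ Finset.univ.erase k, chart k P i ^ s i =
      (∏ i ∈ Finset.univ.erase k, P i ^ s i) * (P k)⁻¹ ^ ∑ i ∈ Finset.univ.erase k, s i := by
    rw [← Finset.prod_pow_eq_pow_sum, ← Finset.prod_mul_distrib]
    refine Finset.prod_congr rfl fun i hi => ?_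
    unfold chart
    rw [if_neg (Finset.ne_of_mem_erase hi), mul_pow]
  have e2 : chart k P k = (P k)⁻¹ := by
    unfold chart
    rw [if_pos rfl]
  rw [e1, e2]
  have e3 : P k ^ s k = P k ^ D * ((P k)⁻¹ ^ (D - s.degree) *
      (P k)⁻¹ ^ ∑ i ∈ Finset.univ.erase k, s i) := by
    rw [← pow_add]
    have e4 : D = s k + (D - s.degree + ∑ i ∈ Finset.univ.erase k, s i) := by omega
    conv_rhs => rw [e4]
    rw [show s k + (D - s.degree + ∑ i ∈ Finset.univ.erase k, s i) - s.degree +
      ∑ i ∈ Finset.univ.erase k, s i = D - s.degree + ∑ i ∈ Finset.univ.erase k, s i by omega,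
      pow_add, inv_pow, mul_inv_cancel_right₀ (pow_ne_zero _ hP)]
  rw [e3]
  ring

/-- the homogenisation modulo the variable `k` -/
theorem hom_split (k : Fin (m + 1)) (D : ℕ) (p : MvPolynomial (Fin (m + 1)) L)
    (h : p.totalDegree ≤ D) : ∃ q : MvPolynomial (Fin (m + 1)) L,
      hom k D p = aeval (Function.update (X : Fin (m + 1) → MvPolynomial (Fin (m + 1)) L) k 1)
        (homogeneousComponent D p) + X k * q := by
  classical
  refine ⟨∑ s ∈ p.support with s.degree ≠ D,
    monomial (Finsupp.update s k (D - s.degree - 1)) (coeff s p), ?_⟩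
  unfold hom
  rw [homogeneousComponent_apply, map_sum, Finset.mul_sum,
    ← Finset.sum_filter_add_sum_filter_not p.support (fun s => s.degree = D)]
  congr 1
  · refine Finset.sum_congr rfl fun s hs => ?_
    rw [Finset.mem_filter] at hs
    rw [aeval_monomial, hs.2, Nat.sub_self, monomial_eq, Finsupp.prod_fintype _ _
      (fun _ => pow_zero _), Finsupp.prod_fintype _ _ (fun _ => pow_zero _), prod_update,
      pow_zero, one_mul, prod_split _ k, Function.update_self, one_pow, one_mul]
    congr 1
    refine Finset.prod_congr rfl fun i hi => ?_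
    rw [Function.update_of_ne (Finset.ne_of_mem_erase hi)]
  · refine Finset.sum_congr rfl fun s hs => ?_
    rw [Finset.mem_filter] at hs
    have hd := degree_le h hs.1
    rw [monomial_eq, monomial_eq, Finsupp.prod_fintype _ _
      (fun _ => pow_zero _), Finsupp.prod_fintype _ _ (fun _ => pow_zero _), prod_update,
      prod_update, show D - s.degree = D - s.degree - 1 + 1 by
        have := hs.2
        omega, pow_succ, Nat.add_sub_cancel]
    ring

/-- value of the homogenisation at a point at infinity -/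
theorem eval_hom_infty (k : Fin (m + 1)) (D : ℕ) (p : MvPolynomial (Fin (m + 1)) L)
    (h : p.totalDegree ≤ D) (β : Fin (m + 1) → L) (hβ : β k = 1) :
    eval (Function.update β k 0) (hom k D p) = eval β (homogeneousComponent D p) := by
  obtain ⟨q, hq⟩ := hom_split k D p h
  rw [hq, map_add, map_mul, eval_X, Function.update_self, zero_mul, add_zero, eval_up k β hβ]

/-- derivatives of the homogenisation at a point at infinity -/
theorem pderiv_hom_infty (k : Fin (m + 1)) (D : ℕ) (p : MvPolynomial (Fin (m + 1)) L)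
    (h : p.totalDegree ≤ D) (β : Fin (m + 1) → L) (hβ : β k = 1) (i : Fin (m + 1)) (hi : i ≠ k) :
    eval (Function.update β k 0) (pderiv i (hom k D p))
      = eval β (pderiv i (homogeneousComponent D p)) := by
  obtain ⟨q, hq⟩ := hom_split k D p h
  rw [hq, map_add, Derivation.leibniz, pderiv_X_of_ne hi.symm, smul_zero, add_zero, smul_eq_mul,
    map_add, map_mul, eval_X, Function.update_self, zero_mul, add_zero, aeval_pderiv k i hi,
    eval_up k β hβ]

/-- substitution of fractions with a common denominator in a polynomial -/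
theorem ratsubst (p : MvPolynomial (Fin (m + 1)) L) (A : ℕ) (h : p.totalDegree ≤ A)
    (g : Fin (m + 1) → MvPolynomial (Fin (m + 1)) L) (h0 : MvPolynomial (Fin (m + 1)) L) :
    ∃ E : MvPolynomial (Fin (m + 1)) L, ∀ y : Fin (m + 1) → L, eval y h0 ≠ 0 →
      eval y E = (eval y h0) ^ A * eval (fun i => eval y (g i) / eval y h0) p := by
  refine ⟨∑ s ∈ p.support, C (coeff s p) * ((∏ i, g i ^ s i) * h0 ^ (A - s.degree)),
    fun y hy => ?_⟩
  rw [map_sum, eval_eq' _ p, Finset.mul_sum]
  refine Finset.sum_congr rfl fun s hs => ?_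
  have hd := degree_le h hs
  rw [map_mul, map_mul, eval_C, map_prod, map_pow]
  have e1 : ∏ i, (eval y (g i) / eval y h0) ^ s i =
      (∏ i, eval y (g i) ^ s i) * ((eval y h0) ^ s.degree)⁻¹ := by
    rw [Finsupp.degree_eq_sum, ← Finset.prod_pow_eq_pow_sum, ← Finset.prod_inv_distrib,
      ← Finset.prod_mul_distrib]
    refine Finset.prod_congr rfl fun i _ => ?_
    rw [div_pow, div_eq_mul_inv]
  have e2 : (eval y h0) ^ A * ((eval y h0) ^ s.degree)⁻¹ = (eval y h0) ^ (A - s.degree) := by
    rw [pow_sub₀ _ hy hd]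
  rw [e1, ← e2]
  simp only [map_pow]
  ring

end Pool.Agent.Lib.MP_9ec2c5_gen
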