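import Mathlib
import Pool.Agent.Lib.MP_9ec2c5_gen.HomLem

/-!
Auxiliary polynomials vanishing to high order along finitely many germs.
-/

set_option autoImplicit false

namespace Pool.Agent.Lib.MP_9ec2c5_gen

open MvPolynomial

section aux

variable {K L : Type} [Field K] [Field L] [Algebra K L]

/-- the homogenisation as a sum over a larger set of monomials -/
lemma hom_eq_sum {m : ℕ} (k : Fin (m + 1)) (D : ℕ) (p : MvPolynomial (Fin (m + 1)) L)
    (B : Finset (Fin (m + 1) →₀ ℕ)) (h : p.support ⊆ B) :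
    hom k D p = ∑ s ∈ B, monomial (Finsupp.update s k (D - s.degree)) (coeff s p) := by
  unfold hom
  apply Finset.sum_subset h
  intro s _ hs
  rw [notMem_support_iff.1 hs, map_zero]

/-- the monomials of a box -/
noncomputable def boxS {m : ℕ} (D' : ℕ) (t : Fin (m + 1) → Fin (D' + 1)) : Fin (m + 1) →₀ ℕ :=
  Finsupp.equivFunOnFinite.symm fun i => (t i : ℕ)

lemma boxS_apply {m : ℕ} (D' : ℕ) (t : Fin (m + 1) → Fin (D' + 1)) (i : Fin (m + 1)) :
    boxS D' t i = t i := rfl

lemma boxS_inj {m : ℕ} (D' : ℕ) : Function.Injective (boxS (m := m) D') := by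
  intro t t' h
  funext i
  apply Fin.ext
  have := DFunLike.congr_fun h i
  rwa [boxS_apply, boxS_apply] at this

lemma boxS_degree {m : ℕ} (D' : ℕ) (t : Fin (m + 1) → Fin (D' + 1)) :
    (boxS D' t).degree ≤ (m + 1) * D' := by
  rw [Finsupp.degree_eq_sum]
  calc ∑ i, boxS D' t i ≤ ∑ _i : Fin (m + 1), D' :=
        Finset.sum_le_sum fun i _ => by
          rw [boxS_apply]
          have := (t i).2
          omega
    _ = (m + 1) * D' := by
        rw [Finset.sum_const, Finset.card_univ, Fintype.card_fin, smul_eq_mul]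

/-- the polynomial with given coefficients in the box -/
noncomputable def boxP {m : ℕ} (D' : ℕ) (c : (Fin (m + 1) → Fin (D' + 1)) → K) :
    MvPolynomial (Fin (m + 1)) K :=
  ∑ t, monomial (boxS D' t) (c t)

lemma coeff_boxP {m : ℕ} (D' : ℕ) (c : (Fin (m + 1) → Fin (D' + 1)) → K)
    (t : Fin (m + 1) → Fin (D' + 1)) : coeff (boxS D' t) (boxP D' c) = c t := by
  classical
  unfold boxP
  rw [coeff_sum, Finset.sum_eq_single t]
  · rw [coeff_monomial, if_pos rfl]
  · intro t' _ h
    rw [coeff_monomial, if_neg (fun h' => h (boxS_inj D' h'))]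
  · intro h
    exact absurd (Finset.mem_univ t) h

lemma totalDegree_boxP {m : ℕ} (D' : ℕ) (c : (Fin (m + 1) → Fin (D' + 1)) → K) :
    (boxP D' c).totalDegree ≤ (m + 1) * D' := by
  unfold boxP
  refine totalDegree_finsetSum_le fun t _ => ?_
  refine (totalDegree_monomial_le _ _).trans ?_
  exact boxS_degree D' t

/-- the homogenisation of a polynomial in the box, substituted -/
lemma bind_hom_boxP {m : ℕ} (D' D0 : ℕ) (k : Fin (m + 1))
    (γ : Fin (m + 1) → MvPolynomial (Fin (m + 1)) L)
    (c : (Fin (m + 1) → Fin (D' + 1)) → K) :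
    bind₁ γ (hom k D0 (map (algebraMap K L) (boxP D' c))) =
      ∑ t, c t • bind₁ γ (monomial (Finsupp.update (boxS D' t) k (D0 - (boxS D' t).degree))
        (1 : L)) := by
  classical
  have h1 : (map (algebraMap K L) (boxP D' c)).support ⊆ Finset.univ.image (boxS (m := m) D') := by
    intro s hs
    rw [Finset.mem_image]
    by_contra hcon
    push Not at hcon
    rw [mem_support_iff, coeff_map] at hs
    apply hs
    have h2 : coeff s (boxP D' c) = 0 := by
      unfold boxP
      rw [coeff_sum]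
      apply Finset.sum_eq_zero
      intro t _
      rw [coeff_monomial, if_neg (hcon t (Finset.mem_univ t))]
    rw [h2, map_zero]
  rw [hom_eq_sum k D0 _ _ h1, Finset.sum_image (fun a _ b _ h => boxS_inj D' h), map_sum]
  apply Finset.sum_congr rfl
  intro t _
  rw [coeff_map, coeff_boxP, ← mul_one (algebraMap K L (c t)), ← smul_eq_mul, ← smul_monomial,
    map_smul, algebraMap_smul]

/-- substitution in a subalgebra -/
lemma bind_mem {m : ℕ} {S : Set (Fin (m + 1))} (γ : Fin (m + 1) → MvPolynomial (Fin (m + 1)) L)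
    (h : ∀ i, γ i ∈ supported L S) (q : MvPolynomial (Fin (m + 1)) L) :
    bind₁ γ q ∈ supported L S := by
  induction q using MvPolynomial.induction_on with
  | C a =>
    rw [bind₁_C_right]
    exact Subalgebra.algebraMap_mem _ a
  | add p q hp hq =>
    rw [map_add]
    exact Subalgebra.add_mem _ hp hq
  | mul_X p i hp =>
    rw [map_mul, bind₁_X_right]
    exact Subalgebra.mul_mem _ hp (h i)

end aux

theorem exists_aux {K L : Type} [Field K] [Field L] [Algebra K L] [FiniteDimensional K L]
    (m n e : ℕ) : ∃ D0 : ℕ, ∀ V : Finset (Fin (m + 1) × (Fin (m + 1) → MvPolynomial (Fin (m + 1)) L)),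
      V.card ≤ n → (∀ v ∈ V, v.1 < Fin.last m ∧ IsGerm v.1 v.2) →
      ∃ R : MvPolynomial (Fin (m + 1)) K, R ≠ 0 ∧ R.totalDegree ≤ D0 ∧
        ∀ v ∈ V, Ord ((D0 + 1) * e) (bind₁ v.2 (hom v.1 D0 (map (algebraMap K L) R))) := by
  classical
  obtain ⟨f, hf⟩ : ∃ f, f = Module.finrank K L := ⟨_, rfl⟩
  obtain ⟨D', hD'⟩ : ∃ D', D' = n * f * ((m + 1) * e) ^ m := ⟨_, rfl⟩
  obtain ⟨D0, hD0⟩ : ∃ D0, D0 = (m + 1) * D' := ⟨_, rfl⟩
  refine ⟨D0, fun V hV hg => ?_⟩
  -- embedding of the monomials
  let ι : (Fin m → Fin ((D0 + 1) * e)) → (Fin (m + 1) →₀ ℕ) := fun u =>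
    Finsupp.equivFunOnFinite.symm (Fin.snoc (α := fun _ => ℕ) (fun i => (u i : ℕ)) 0)
  let Φ : ((Fin (m + 1) → Fin (D' + 1)) → K) →ₗ[K]
      ({v // v ∈ V} × (Fin m → Fin ((D0 + 1) * e)) → L) :=
    { toFun := fun c x => ∑ t, c t • coeff (ι x.2) (bind₁ x.1.1.2
        (monomial (Finsupp.update (boxS D' t) x.1.1.1 (D0 - (boxS D' t).degree)) (1 : L)))
      map_add' := by
        intro c c'
        funext x
        simp only [Pi.add_apply, add_smul, Finset.sum_add_distrib]
      map_smul' := by
        intro a c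
        funext x
        simp only [Pi.smul_apply, smul_eq_mul, mul_smul, RingHom.id_apply, Finset.smul_sum] }
  have hlt : Module.finrank K ({v // v ∈ V} × (Fin m → Fin ((D0 + 1) * e)) → L) <
      Module.finrank K ((Fin (m + 1) → Fin (D' + 1)) → K) := by
    rw [Module.finrank_pi_fintype, Module.finrank_fintype_fun_eq_card]
    simp only [Finset.sum_const, Finset.card_univ, Fintype.card_prod, Fintype.card_coe,
      Fintype.card_fun, Fintype.card_fin, smul_eq_mul]
    rw [← hf]
    have h1 : (D0 + 1) * e ≤ (D' + 1) * ((m + 1) * e) := by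
      have : D0 + 1 ≤ (D' + 1) * (m + 1) := by rw [hD0]; nlinarith
      calc (D0 + 1) * e ≤ (D' + 1) * (m + 1) * e := Nat.mul_le_mul_right e this
        _ = _ := by ring
    have h2 : ((D0 + 1) * e) ^ m ≤ (D' + 1) ^ m * ((m + 1) * e) ^ m := by
      rw [← mul_pow]
      exact Nat.pow_le_pow_left h1 m
    calc V.card * ((D0 + 1) * e) ^ m * f ≤ n * ((D' + 1) ^ m * ((m + 1) * e) ^ m) * f :=
          Nat.mul_le_mul_right f (Nat.mul_le_mul hV h2)
      _ = (D' + 1) ^ m * D' := by rw [hD']; ring
      _ < (D' + 1) ^ m * (D' + 1) := by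
          apply Nat.mul_lt_mul_of_pos_left (by omega)
          positivity
      _ = (D' + 1) ^ (m + 1) := by rw [pow_succ]
  have hker := LinearMap.ker_ne_bot_of_finrank_lt (f := Φ) hlt
  obtain ⟨c, hc, hc0⟩ := (Submodule.ne_bot_iff _).1 hker
  refine ⟨boxP D' c, ?_, ?_, ?_⟩
  · intro h
    apply hc0
    funext t
    have h1 := coeff_boxP D' c t
    rw [h, coeff_zero] at h1
    rw [← h1]
    rfl
  · rw [hD0]
    exact totalDegree_boxP D' c
  · intro v hv s hs
    by_contra hcon
    push Not at hcon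
    rw [mem_support_iff] at hs
    apply hs
    have hgv := hg v hv
    by_cases hlast : s (Fin.last m) = 0
    · have hsi : ∀ i, s i < (D0 + 1) * e := by
        intro i
        refine lt_of_le_of_lt ?_ hcon
        rw [Finsupp.degree_eq_sum]
        exact Finset.single_le_sum (f := fun i => s i) (fun _ _ => Nat.zero_le _)
          (Finset.mem_univ i)
      have e1 : ι (fun i => ⟨s i.castSucc, hsi i.castSucc⟩) = s := by
        ext i
        refine Fin.lastCases ?_ (fun j => ?_) i
        · rw [hlast]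
          exact Fin.snoc_last (α := fun _ => ℕ) (0 : ℕ) (fun i : Fin m => s i.castSucc)
        · exact Fin.snoc_castSucc (α := fun _ => ℕ) (0 : ℕ) (fun i : Fin m => s i.castSucc) j
      have h1 := congrFun (LinearMap.mem_ker.1 hc)
        (⟨v, hv⟩, fun i => ⟨s i.castSucc, hsi i.castSucc⟩)
      change ∑ t, c t • coeff (ι _) (bind₁ v.2 _) = 0 at h1
      rw [e1] at h1
      rw [bind_hom_boxP, coeff_sum]
      simp only [coeff_smul]
      exact h1
    · have h1 := bind_mem (S := {i : Fin (m + 1) | i ≤ v.1}) v.2 (by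
        intro i
        rcases le_or_gt i v.1 with h | h
        · rw [hgv.2.1 i h]
          exact (X_mem_supported).2 h
        · exact hgv.2.2 i h) (hom v.1 D0 (map (algebraMap K L) (boxP D' c)))
      by_contra hne
      have h2 : Fin.last m ∈ (bind₁ v.2 (hom v.1 D0 (map (algebraMap K L) (boxP D' c)))).vars :=
        (mem_vars_iff_mem_support _).2 ⟨s, mem_support_iff.2 hne, Finsupp.mem_support_iff.2 hlast⟩
      have h3 := mem_supported.1 h1 h2
      exact absurd hgv.1 (not_lt.2 h3)

end Pool.Agent.Lib.MP_9ec2c5_gen
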