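import Mathlib
import Pool.Agent.Lib.MP_9ec2c5_gen.HomLem

/-!
Size of an auxiliary polynomial at a point close to a germ.
-/

set_option autoImplicit false

namespace Pool.Agent.Lib.MP_9ec2c5_gen

open MvPolynomial

variable {L : Type} [Field L] {m : ℕ} (w : AbsoluteValue L ℝ)

namespace Est

theorem dl_pos (D : Data L m) : 0 < D.dl := by
  unfold Data.dl
  rcases eq_or_ne D.r 0 with h | h
  · rw [h]
    exact D.hd0
  · have h1 : (0 : Fin (m + 1)) < D.r := Fin.pos_iff_ne_zero.2 h
    have := D.hlt 0 D.r h1 h1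
    omega

theorem vp_pow_dl (D : Data L m) {P : Fin (m + 1) → L} (h : 1 ≤ nrm w P) :
    (vp w D P) ^ D.dl = (nrm w P)⁻¹ := by
  have hd : (D.dl : ℝ) ≠ 0 := by
    have := dl_pos D
    positivity
  have h0 : 0 ≤ nrm w P := zero_le_one.trans h
  unfold vp
  rw [← Real.rpow_natCast, ← Real.rpow_mul h0, neg_mul, one_div, inv_mul_cancel₀ hd,
    Real.rpow_neg_one]

theorem vp_pow (D : Data L m) (n : ℕ) {P : Fin (m + 1) → L} (h : 1 ≤ nrm w P) :
    (vp w D P) ^ (n * D.dl) = ((nrm w P) ^ n)⁻¹ := by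
  rw [mul_comm, pow_mul, vp_pow_dl w D h, inv_pow]

theorem vp_nonneg (D : Data L m) (P : Fin (m + 1) → L) : 0 ≤ vp w D P :=
  Real.rpow_nonneg (nrm_nonneg w P) _

theorem eval_bind (y : Fin (m + 1) → L) (γ : Fin (m + 1) → MvPolynomial (Fin (m + 1)) L)
    (p : MvPolynomial (Fin (m + 1)) L) :
    eval y (bind₁ γ p) = eval (fun i => eval y (γ i)) p := by
  induction p using MvPolynomial.induction_on with
  | C a => simp
  | add p q hp hq => rw [map_add, map_add, hp, hq, map_add]
  | mul_X p n hp => rw [map_mul, map_mul, hp, map_mul, bind₁_X_right, eval_X]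

theorem bind_supported {S : Set (Fin (m + 1))} {γ : Fin (m + 1) → MvPolynomial (Fin (m + 1)) L}
    (h : ∀ i, γ i ∈ supported L S) (p : MvPolynomial (Fin (m + 1)) L) :
    bind₁ γ p ∈ supported L S := by
  induction p using MvPolynomial.induction_on with
  | C a =>
    rw [bind₁_C_right]
    exact (supported L S).algebraMap_mem a
  | add p q hp hq =>
    rw [map_add]
    exact (supported L S).add_mem hp hq
  | mul_X p n hp =>
    rw [map_mul, bind₁_X_right]
    exact (supported L S).mul_mem hp (h n)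

theorem germ_supported {k : Fin (m + 1)} {γ : Fin (m + 1) → MvPolynomial (Fin (m + 1)) L}
    (hγ : IsGerm k γ) (i : Fin (m + 1)) : γ i ∈ supported L {i : Fin (m + 1) | i ≤ k} := by
  rcases le_or_gt i k with h | h
  · rw [hγ.1 i h]
    exact X_mem_supported.2 h
  · exact hγ.2 i h

end Est

open Est

theorem est (D : Data L m) (η : ℝ) (hη0 : 0 < η) (hη1 : η ≤ 1) (k : Fin (m + 1))
    (γ : Fin (m + 1) → MvPolynomial (Fin (m + 1)) L) (hγ : IsGerm k γ)
    (R : MvPolynomial (Fin (m + 1)) L) (D0 : ℕ) (hR : R.totalDegree ≤ D0)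
    (hord : Ord ((D0 + 1) * D.dl) (bind₁ γ (hom k D0 R))) (C : ℝ) (hC : 0 ≤ C) :
    ∃ C' : ℝ, 0 ≤ C' ∧ ∀ P : Fin (m + 1) → L, Ty w η k P → 1 ≤ nrm w P →
      (∀ i, i ≤ k → w (chart k P i) ≤ C * vp w D P) →
      (∀ j, k < j → w (chart k P j - eval (chart k P) (γ j))
        ≤ C * (vp w D P) ^ ((D0 + 1) * D.dl)) →
      w (eval P R) * nrm w P ≤ C' := by
  obtain ⟨C1, hC1, h1⟩ := ord_small w k _ (bind_supported (germ_supported hγ) (hom k D0 R)) _ hord
  choose B hB0 hB using fun i => eval_bounded w (γ i) η⁻¹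
  obtain ⟨C2, hC2, h2⟩ := eval_diff w (hom k D0 R) (η⁻¹ + ∑ i, B i)
  obtain ⟨C3, hC3, h3⟩ := eval_le w R D0 hR
  set q := (D0 + 1) * D.dl with hq
  refine ⟨(C1 * C ^ q + C2 * C) + C3 * (C ^ D.dl) ^ (D0 + 1), by positivity,
    fun P hT hn hi hj => ?_⟩
  set ν := nrm w P with hν
  have hν0 : 0 < ν := lt_of_lt_of_le one_pos hn
  have hv0 := vp_nonneg w D P
  rcases le_or_gt (C * vp w D P) 1 with hcase | hcase
  · have hPk : P k ≠ 0 := by
      intro h
      have := hT.2
      rw [h, map_zero] at this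
      have : 0 < η * ν := by positivity
      linarith
    have hwk : 0 < w (P k) := w.pos hPk
    have hwinv : (w (P k))⁻¹ ≤ (η * ν)⁻¹ := inv_anti₀ (by positivity) hT.2
    set y := chart k P with hy
    have hyb : ∀ i, w (y i) ≤ η⁻¹ := by
      intro i
      rw [hy]
      unfold chart
      split_ifs with h
      · rw [map_inv₀]
        refine hwinv.trans (inv_anti₀ hη0 ?_)
        nlinarith
      · rw [map_mul, map_inv₀]
        calc w (P i) * (w (P k))⁻¹ ≤ ν * (η * ν)⁻¹ :=
              mul_le_mul (le_nrm w P i) hwinv (inv_nonneg.2 hwk.le) hν0.le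
          _ = η⁻¹ := by field_simp
    have hBs : ∀ i, B i ≤ ∑ i, B i := fun i =>
      Finset.single_le_sum (f := B) (fun j _ => hB0 j) (Finset.mem_univ i)
    have hBs0 : 0 ≤ ∑ i, B i := Finset.sum_nonneg fun j _ => hB0 j
    have hηi : 0 < η⁻¹ := inv_pos.2 hη0
    have e1 := h1 y (C * vp w D P) (by positivity) hcase hi
    rw [eval_bind] at e1
    have e2 := h2 y (fun i => eval y (γ i)) (C * (vp w D P) ^ q)
      (fun i => (hyb i).trans (by linarith)) (fun i => ((hB i) y hyb).trans (by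
        have := hBs i
        linarith)) (by
        intro i
        rcases le_or_gt i k with h | h
        · rw [hγ.1 i h, eval_X, sub_self, map_zero]
          positivity
        · exact hj i h)
    have e3 : w (eval y (hom k D0 R)) ≤ (C1 * C ^ q + C2 * C) * (vp w D P) ^ q := by
      have e4 : eval y (hom k D0 R) = (eval y (hom k D0 R) -
          eval (fun i => eval y (γ i)) (hom k D0 R)) +
          eval (fun i => eval y (γ i)) (hom k D0 R) := by ring
      rw [e4]
      refine (w.add_le _ _).trans ?_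
      rw [mul_pow] at e1
      linarith
    rw [vp_pow w D (D0 + 1) hn] at e3
    rw [eval_hom k D0 R hR P hPk, map_mul, map_pow]
    have e5 : w (P k) ^ D0 ≤ ν ^ D0 := pow_le_pow_left₀ hwk.le (le_nrm w P k) _
    have hA : 0 ≤ C1 * C ^ q + C2 * C := by positivity
    calc w (P k) ^ D0 * w (eval y (hom k D0 R)) * ν ≤
          ν ^ D0 * ((C1 * C ^ q + C2 * C) * (ν ^ (D0 + 1))⁻¹) * ν :=
          mul_le_mul_of_nonneg_right (mul_le_mul e5 e3 (w.nonneg _) (by positivity)) hν0.le
      _ = C1 * C ^ q + C2 * C := by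
          rw [pow_succ]
          field_simp
      _ ≤ _ := le_add_of_nonneg_right (by positivity)
  · have hCν : ν ≤ C ^ D.dl := by
      have e1 : (1 : ℝ) ≤ (C * vp w D P) ^ D.dl := one_le_pow₀ hcase.le
      rw [mul_pow, vp_pow_dl w D hn, ← div_eq_mul_inv, le_div_iff₀ hν0, one_mul] at e1
      exact e1
    have e2 := h3 P
    rw [max_eq_right hn] at e2
    calc w (eval P R) * ν ≤ (C3 * ν ^ D0) * ν := mul_le_mul_of_nonneg_right e2 hν0.le
      _ = C3 * ν ^ (D0 + 1) := by ring
      _ ≤ C3 * (C ^ D.dl) ^ (D0 + 1) :=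
          mul_le_mul_of_nonneg_left (pow_le_pow_left₀ hν0.le hCν _) hC3
      _ ≤ _ := le_add_of_nonneg_left (by positivity)

end Pool.Agent.Lib.MP_9ec2c5_gen
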