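import Mathlib
import Pool.Agent.Lib.MP_9ec2c5_gen.Basic

/-!
Near a nondegenerate zero, an approximate solution of a polynomial system is close to the germ of
solutions.
-/

set_option autoImplicit false

namespace Pool.Agent.Lib.MP_9ec2c5_gen

open MvPolynomial

variable {L : Type} [Field L] {m : ℕ} (w : AbsoluteValue L ℝ)

namespace Close

theorem eval_bind (y : Fin (m + 1) → L) (γ : Fin (m + 1) → MvPolynomial (Fin (m + 1)) L)
    (p : MvPolynomial (Fin (m + 1)) L) :
    eval y (bind₁ γ p) = eval (fun i => eval y (γ i)) p := by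
  induction p using MvPolynomial.induction_on with
  | C a => simp
  | add p q hp hq => rw [map_add, map_add, hp, hq, map_add]
  | mul_X p n hp => rw [map_mul, map_mul, hp, map_mul, bind₁_X_right, eval_X]

theorem bind_supported {S : Set (Fin (m + 1))} {γ : Fin (m + 1) → MvPolynomial (Fin (m + 1)) L}
    (h : ∀ i, γ i ∈ supported L S) (p : MvPolynomial (Fin (m + 1)) L) :
    bind₁ γ p ∈ supported L S := by
  induction p using MvPolynomial.induction_on with
  | C a =>
    rw [bind₁_C_right]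
    exact (supported L S).algebraMap_mem a
  | add p q hp hq =>
    rw [map_add]
    exact (supported L S).add_mem hp hq
  | mul_X p n hp =>
    rw [map_mul, bind₁_X_right]
    exact (supported L S).mul_mem hp (h n)

theorem germ_supported {k : Fin (m + 1)} {γ : Fin (m + 1) → MvPolynomial (Fin (m + 1)) L}
    (hγ : IsGerm k γ) (i : Fin (m + 1)) : γ i ∈ supported L {i : Fin (m + 1) | i ≤ k} := by
  rcases le_or_gt i k with h | h
  · rw [hγ.1 i h]
    exact X_mem_supported.2 h
  · exact hγ.2 i h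

/-- First order Taylor formula. -/
theorem taylor (b : Fin (m + 1) → L) (p : MvPolynomial (Fin (m + 1)) L) :
    ∃ C : ℝ, 0 ≤ C ∧ ∀ (y z : Fin (m + 1) → L) (ρ s : ℝ), ρ ≤ 1 → (∀ i, w (y i - b i) ≤ ρ) →
      (∀ i, w (z i - b i) ≤ ρ) → (∀ i, w (y i - z i) ≤ s) →
      w (eval y p - eval z p - ∑ i, eval b (pderiv i p) * (y i - z i)) ≤ C * ρ * s := by
  have hball : ∀ (y : Fin (m + 1) → L) (ρ : ℝ), ρ ≤ 1 → (∀ i, w (y i - b i) ≤ ρ) →
      ∀ i, w (y i) ≤ 1 + nrm w b := by
    intro y ρ hρ h i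
    have e : y i = (y i - b i) + b i := by ring
    rw [e]
    exact (w.add_le _ _).trans (add_le_add ((h i).trans hρ) (le_nrm w b i))
  have hb : ∀ i, w (b i) ≤ 1 + nrm w b := fun i => (le_nrm w b i).trans (by linarith)
  induction p using MvPolynomial.induction_on with
  | C a => exact ⟨0, le_rfl, fun y z ρ s _ _ _ _ => by simp⟩
  | add p q hp hq =>
    obtain ⟨C1, hC1, h1⟩ := hp
    obtain ⟨C2, hC2, h2⟩ := hq
    refine ⟨C1 + C2, by positivity, fun y z ρ s hρ hy hz hs => ?_⟩
    have e : eval y (p + q) - eval z (p + q) - ∑ i, eval b (pderiv i (p + q)) * (y i - z i) =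
        (eval y p - eval z p - ∑ i, eval b (pderiv i p) * (y i - z i)) +
        (eval y q - eval z q - ∑ i, eval b (pderiv i q) * (y i - z i)) := by
      simp only [map_add, add_mul, Finset.sum_add_distrib]
      ring
    rw [e]
    refine (w.add_le _ _).trans ?_
    have := h1 y z ρ s hρ hy hz hs
    have := h2 y z ρ s hρ hy hz hs
    nlinarith
  | mul_X p n hp =>
    obtain ⟨C1, hC1, h1⟩ := hp
    obtain ⟨C2, hC2, h2⟩ := eval_diff w p (1 + nrm w b)
    refine ⟨2 * C2 + w (b n) * C1, by positivity, fun y z ρ s hρ hy hz hs => ?_⟩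
    have hρ0 : 0 ≤ ρ := (w.nonneg _).trans (hy 0)
    have hs0 : 0 ≤ s := (w.nonneg _).trans (hs 0)
    have k1 := h1 y z ρ s hρ hy hz hs
    have k2 := h2 y b ρ (hball y ρ hρ hy) hb hy
    have k3 := h2 y z s (hball y ρ hρ hy) (hball z ρ hρ hz) hs
    have esum : ∑ i, eval b (pderiv i (p * X n)) * (y i - z i) =
        b n * ∑ i, eval b (pderiv i p) * (y i - z i) + eval b p * (y n - z n) := by
      have : ∀ i, eval b (pderiv i (p * X n)) * (y i - z i) =
          b n * (eval b (pderiv i p) * (y i - z i)) +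
          (if i = n then eval b p * (y n - z n) else 0) := by
        intro i
        rw [Derivation.leibniz, map_add, smul_eq_mul, smul_eq_mul, map_mul, map_mul, eval_X]
        split_ifs with h
        · rw [h, pderiv_X_self, map_one]
          ring
        · rw [pderiv_X_of_ne (Ne.symm h), map_zero]
          ring
      simp only [this, Finset.sum_add_distrib, Finset.mul_sum, Finset.sum_ite_eq',
        Finset.mem_univ, if_true]
    have e : eval y (p * X n) - eval z (p * X n) -
        ∑ i, eval b (pderiv i (p * X n)) * (y i - z i) =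
        (eval y p - eval b p) * (y n - z n) + ((eval y p - eval z p) * (z n - b n) +
        b n * (eval y p - eval z p - ∑ i, eval b (pderiv i p) * (y i - z i))) := by
      rw [esum, map_mul, map_mul, eval_X, eval_X]
      ring
    rw [e]
    refine (w.add_le _ _).trans ?_
    refine le_trans (add_le_add_right (w.add_le _ _) _) ?_
    rw [map_mul, map_mul, map_mul]
    have j1 : w (eval y p - eval b p) * w (y n - z n) ≤ (C2 * ρ) * s :=
      mul_le_mul k2 (hs n) (w.nonneg _) (by positivity)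
    have j2 : w (eval y p - eval z p) * w (z n - b n) ≤ (C2 * s) * ρ :=
      mul_le_mul k3 (hz n) (w.nonneg _) (by positivity)
    have j3 : w (b n) * w (eval y p - eval z p - ∑ i, eval b (pderiv i p) * (y i - z i)) ≤
        w (b n) * (C1 * ρ * s) := mul_le_mul_of_nonneg_left k1 (w.nonneg _)
    linarith

end Close

open Close

theorem close (k : Fin (m + 1)) (Ψ : Fin (m + 1) → MvPolynomial (Fin (m + 1)) L)
    (b : Fin (m + 1) → L) (hb : ∀ i, i ≤ k → b i = 0)
    (hdet : (Matrix.of fun i j : {i : Fin (m + 1) // k < i} =>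
      eval b (pderiv (i : Fin (m + 1)) (Ψ j))).det ≠ 0) (q : ℕ)
    (γ : Fin (m + 1) → MvPolynomial (Fin (m + 1)) L) (hγ : IsGerm k γ)
    (hγ0 : ∀ j, k < j → constantCoeff (γ j) = b j)
    (hord : ∀ j, k < j → Ord q (bind₁ γ (Ψ j))) :
    ∃ δ C : ℝ, 0 < δ ∧ 0 ≤ C ∧ ∀ (y : Fin (m + 1) → L) (r e : ℝ), 0 ≤ r → r ≤ δ →
      (∀ i, i ≤ k → w (y i) ≤ r) → (∀ j, k < j → w (y j - b j) ≤ δ) →
      (∀ j, k < j → w (eval y (Ψ j)) ≤ e) →
      ∀ j, k < j → w (y j - eval y (γ j)) ≤ C * (e + r ^ q) := by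
  classical
  -- the constants
  have h1 : ∀ j, ∃ C : ℝ, 0 ≤ C ∧ (k < j → ∀ (y : Fin (m + 1) → L) (b : ℝ), 0 ≤ b → b ≤ 1 →
      (∀ i, i ≤ k → w (y i) ≤ b) → w (eval y (bind₁ γ (Ψ j))) ≤ C * b ^ q) := by
    intro j
    by_cases hj : k < j
    · obtain ⟨C, hC, h⟩ := ord_small w k _ (bind_supported (germ_supported hγ) (Ψ j)) q
        (hord j hj)
      exact ⟨C, hC, fun _ => h⟩
    · exact ⟨0, le_rfl, fun h => absurd h hj⟩
  choose C1 hC1 h1 using h1
  choose C2 hC2 h2 using fun j => taylor w b (Ψ j)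
  have h3 : ∀ j, ∃ C : ℝ, 0 ≤ C ∧ (k < j → ∀ (y : Fin (m + 1) → L) (r : ℝ), 0 ≤ r → r ≤ 1 →
      (∀ i, i ≤ k → w (y i) ≤ r) → w (eval y (γ j) - b j) ≤ C * r) := by
    intro j
    by_cases hj : k < j
    · have hsup : γ j - C (b j) ∈ supported L {i : Fin (m + 1) | i ≤ k} :=
        (supported L _).sub_mem (hγ.2 j hj) ((supported L _).algebraMap_mem _)
      have hor : Ord 1 (γ j - C (b j)) := by
        intro s hs
        by_contra hcon
        have h0 : s = 0 := by
          have : s.degree = 0 := by omega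
          exact (Finsupp.degree_eq_zero_iff s).1 this
        rw [h0, mem_support_iff] at hs
        apply hs
        rw [← constantCoeff_eq, map_sub, hγ0 j hj, constantCoeff_C, sub_self]
      obtain ⟨C', hC', h⟩ := ord_small w k _ hsup 1 hor
      refine ⟨C', hC', fun _ y r hr0 hr1 hy => ?_⟩
      have := h y r hr0 hr1 hy
      rw [map_sub, eval_C, pow_one] at this
      exact this
    · exact ⟨0, le_rfl, fun h => absurd h hj⟩
  choose C3 hC3 h3 using h3
  set J : Matrix {i : Fin (m + 1) // k < i} {i : Fin (m + 1) // k < i} L :=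
    Matrix.of fun i j => eval b (pderiv (i : Fin (m + 1)) (Ψ j)) with hJ
  set C4 : ℝ := ∑ j, ∑ i, w (J⁻¹ j i) with hC4
  have hC40 : 0 ≤ C4 := Finset.sum_nonneg fun _ _ => Finset.sum_nonneg fun _ _ => w.nonneg _
  set S1 := ∑ j, C1 j with hS1
  set S2 := ∑ j, C2 j with hS2
  set S3 := ∑ j, C3 j with hS3
  have hS1j : ∀ j, C1 j ≤ S1 := fun j =>
    Finset.single_le_sum (f := C1) (fun j _ => hC1 j) (Finset.mem_univ j)
  have hS2j : ∀ j, C2 j ≤ S2 := fun j =>
    Finset.single_le_sum (f := C2) (fun j _ => hC2 j) (Finset.mem_univ j)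
  have hS3j : ∀ j, C3 j ≤ S3 := fun j =>
    Finset.single_le_sum (f := C3) (fun j _ => hC3 j) (Finset.mem_univ j)
  have hS10 : 0 ≤ S1 := (hC1 0).trans (hS1j 0)
  have hS20 : 0 ≤ S2 := (hC2 0).trans (hS2j 0)
  have hS30 : 0 ≤ S3 := (hC3 0).trans (hS3j 0)
  set M := 1 + S3 with hM
  have hM1 : 1 ≤ M := by linarith
  set δ : ℝ := min M⁻¹ (2 * (C4 * S2 * M) + 1)⁻¹ with hδ
  have hδ0 : 0 < δ := lt_min (by positivity) (by positivity)
  have hMδ : M * δ ≤ 1 := by
    have : δ ≤ M⁻¹ := min_le_left _ _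
    calc M * δ ≤ M * M⁻¹ := mul_le_mul_of_nonneg_left this (by linarith)
      _ = 1 := mul_inv_cancel₀ (by linarith)
  have hδ1 : δ ≤ 1 := by nlinarith
  have hsmall : C4 * S2 * (M * δ) ≤ 1 / 2 := by
    have h : δ ≤ (2 * (C4 * S2 * M) + 1)⁻¹ := min_le_right _ _
    have h0 : 0 ≤ C4 * S2 * M := by positivity
    have h' : (2 * (C4 * S2 * M) + 1) * δ ≤ 1 := by
      calc _ ≤ (2 * (C4 * S2 * M) + 1) * (2 * (C4 * S2 * M) + 1)⁻¹ :=
            mul_le_mul_of_nonneg_left h (by positivity)
        _ = 1 := mul_inv_cancel₀ (by positivity)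
    nlinarith
  refine ⟨δ, 2 * C4 * (1 + S1), hδ0, by positivity, fun y r e hr0 hrδ hyr hyb hye j hj => ?_⟩
  set z : Fin (m + 1) → L := fun i => eval y (γ i) with hz
  set s := nrm w (fun i => y i - z i) with hs
  have hs0 : 0 ≤ s := nrm_nonneg w _
  have hyz : ∀ i, w (y i - z i) ≤ s := fun i => le_nrm w (fun i => y i - z i) i
  have hzero : ∀ i, i ≤ k → y i - z i = 0 := by
    intro i hi
    rw [hz]
    simp only
    rw [hγ.1 i hi, eval_X, sub_self]
  have he0 : 0 ≤ e := (w.nonneg _).trans (hye j hj)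
  have hyb' : ∀ i, w (y i - b i) ≤ M * δ := by
    intro i
    rcases le_or_gt i k with h | h
    · rw [hb i h, sub_zero]
      refine (hyr i h).trans (hrδ.trans ?_)
      nlinarith
    · refine (hyb i h).trans ?_
      nlinarith
  have hzb : ∀ i, w (z i - b i) ≤ M * δ := by
    intro i
    rcases le_or_gt i k with h | h
    · have : z i = y i := (sub_eq_zero.1 (hzero i h)).symm
      rw [this]
      exact hyb' i
    · refine (h3 i h y r hr0 (hrδ.trans hδ1) hyr).trans ?_
      have := hS3j i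
      have := hC3 i
      calc C3 i * r ≤ S3 * δ := mul_le_mul (hS3j i) hrδ hr0 hS30
        _ ≤ M * δ := mul_le_mul_of_nonneg_right (by linarith) hδ0.le
  -- the linear system
  set c : {i : Fin (m + 1) // k < i} → L := fun j =>
    ∑ i, eval b (pderiv i (Ψ j)) * (y i - z i) with hc
  have hcb : ∀ j, w (c j) ≤ e + S1 * r ^ q + S2 * (M * δ) * s := by
    rintro ⟨j, hj⟩
    have k1 := h2 j y z (M * δ) s hMδ hyb' hzb hyz
    have k2 := h1 j hj y r hr0 (hrδ.trans hδ1) hyr
    rw [eval_bind] at k2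
    have k3 := hye j hj
    have e1 : c ⟨j, hj⟩ = eval y (Ψ j) + (-(eval z (Ψ j)) +
        -(eval y (Ψ j) - eval z (Ψ j) - ∑ i, eval b (pderiv i (Ψ j)) * (y i - z i))) := by
      rw [hc]
      ring
    rw [e1]
    refine (w.add_le _ _).trans ?_
    refine le_trans (add_le_add_right (w.add_le _ _) _) ?_
    rw [w.map_neg, w.map_neg]
    have k4 : C1 j * r ^ q ≤ S1 * r ^ q :=
      mul_le_mul_of_nonneg_right (hS1j j) (by positivity)
    have k5 : C2 j * (M * δ) * s ≤ S2 * (M * δ) * s :=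
      mul_le_mul_of_nonneg_right (mul_le_mul_of_nonneg_right (hS2j j) (by positivity)) hs0
    have k6 : w (eval z (Ψ j)) ≤ C1 j * r ^ q := k2
    linarith
  set v : {i : Fin (m + 1) // k < i} → L := fun i => y i - z i with hv
  have hvJ : Matrix.vecMul v J = c := by
    funext j
    rw [hc]
    simp only
    unfold Matrix.vecMul dotProduct
    rw [hJ]
    simp only [Matrix.of_apply]
    have e1 : ∑ i, eval b (pderiv i (Ψ j)) * (y i - z i) =
        ∑ i ∈ Finset.univ.filter (fun i => k < i), eval b (pderiv i (Ψ j)) * (y i - z i) := by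
      rw [Finset.sum_filter]
      refine Finset.sum_congr rfl fun i _ => ?_
      split_ifs with h
      · rfl
      · rw [hzero i (not_lt.1 h), mul_zero]
    rw [e1, Finset.sum_subtype (Finset.univ.filter (fun i => k < i)) (p := fun i => k < i)
      (fun i => by simp)]
    refine Finset.sum_congr rfl fun i _ => ?_
    rw [hv, mul_comm]
  have hvc : v = Matrix.vecMul c J⁻¹ := by
    rw [← hvJ, Matrix.vecMul_vecMul, Matrix.mul_nonsing_inv _ (isUnit_iff_ne_zero.2 hdet),
      Matrix.vecMul_one]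
  have hbound : ∀ i, w (v i) ≤ C4 * (e + S1 * r ^ q + S2 * (M * δ) * s) := by
    intro i
    have hE : 0 ≤ e + S1 * r ^ q + S2 * (M * δ) * s := by positivity
    rw [hvc]
    unfold Matrix.vecMul dotProduct
    refine (w.sum_le _ _).trans ?_
    calc ∑ j, w (c j * J⁻¹ j i) ≤
          ∑ j, (e + S1 * r ^ q + S2 * (M * δ) * s) * ∑ i, w (J⁻¹ j i) := by
          refine Finset.sum_le_sum fun j _ => ?_
          rw [map_mul]
          exact mul_le_mul (hcb j) (Finset.single_le_sum (f := fun i => w (J⁻¹ j i))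
            (fun _ _ => w.nonneg _) (Finset.mem_univ i)) (w.nonneg _) hE
      _ = C4 * (e + S1 * r ^ q + S2 * (M * δ) * s) := by
          rw [← Finset.mul_sum, hC4, mul_comm]
  have hsb : s ≤ C4 * (e + S1 * r ^ q + S2 * (M * δ) * s) := by
    refine nrm_le w fun i => ?_
    rcases le_or_gt i k with h | h
    · rw [hzero i h, map_zero]
      positivity
    · exact hbound ⟨i, h⟩
  have hfin : s ≤ 2 * C4 * (e + S1 * r ^ q) := by
    have h5 : C4 * (S2 * (M * δ) * s) = (C4 * S2 * (M * δ)) * s := by ring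
    have h6 : (C4 * S2 * (M * δ)) * s ≤ 1 / 2 * s := mul_le_mul_of_nonneg_right hsmall hs0
    have h7 : C4 * (e + S1 * r ^ q + S2 * (M * δ) * s) =
        C4 * (e + S1 * r ^ q) + C4 * (S2 * (M * δ) * s) := by ring
    rw [h7, h5] at hsb
    linarith
  refine (hyz j).trans (hfin.trans ?_)
  have hrq : 0 ≤ r ^ q := by positivity
  have h8 : e + S1 * r ^ q ≤ (1 + S1) * (e + r ^ q) := by nlinarith
  calc 2 * C4 * (e + S1 * r ^ q) ≤ 2 * C4 * ((1 + S1) * (e + r ^ q)) :=
        mul_le_mul_of_nonneg_left h8 (by positivity)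
    _ = _ := by ring

end Pool.Agent.Lib.MP_9ec2c5_gen
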