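import Mathlib
import Pool.Agent.Lib.MP_9ec2c5_gen.Basic

/-!
A polynomial system with a nondegenerate zero has approximate solutions of any order.
-/

set_option autoImplicit false

namespace Pool.Agent.Lib.MP_9ec2c5_gen

open MvPolynomial

variable {L : Type} [Field L] {m : ℕ}

namespace HenselAux

lemma ord_iff {q : ℕ} {p : MvPolynomial (Fin (m + 1)) L} :
    Ord q p ↔ ∀ s : Fin (m + 1) →₀ ℕ, s.degree < q → coeff s p = 0 := by
  constructor
  · intro h s hs
    by_contra hne
    exact absurd (h s (mem_support_iff.mpr hne)) (not_le.mpr hs)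
  · intro h s hs
    by_contra hlt
    exact mem_support_iff.mp hs (h s (not_le.mp hlt))

lemma ord_mono {q q' : ℕ} (hq : q' ≤ q) {p : MvPolynomial (Fin (m + 1)) L} (h : Ord q p) :
    Ord q' p := by
  rw [ord_iff] at h ⊢
  exact fun s hs => h s (lt_of_lt_of_le hs hq)

lemma ord_zero (q : ℕ) : Ord q (0 : MvPolynomial (Fin (m + 1)) L) := by
  rw [ord_iff]
  intro s _
  exact coeff_zero s

lemma ord_add {q : ℕ} {p p' : MvPolynomial (Fin (m + 1)) L} (h : Ord q p) (h' : Ord q p') :
    Ord q (p + p') := by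
  rw [ord_iff] at h h' ⊢
  intro s hs
  rw [coeff_add, h s hs, h' s hs, add_zero]

lemma ord_neg {q : ℕ} {p : MvPolynomial (Fin (m + 1)) L} (h : Ord q p) : Ord q (-p) := by
  rw [ord_iff] at h ⊢
  intro s hs
  rw [coeff_neg, h s hs, neg_zero]

lemma ord_sum {ι : Type} (S : Finset ι) {q : ℕ} {p : ι → MvPolynomial (Fin (m + 1)) L}
    (h : ∀ i ∈ S, Ord q (p i)) : Ord q (∑ i ∈ S, p i) := by
  rw [ord_iff]
  intro s hs
  rw [coeff_sum]
  exact Finset.sum_eq_zero fun i hi => ord_iff.mp (h i hi) s hs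

lemma ord_mul {q q' : ℕ} {p p' : MvPolynomial (Fin (m + 1)) L} (h : Ord q p) (h' : Ord q' p') :
    Ord (q + q') (p * p') := by
  classical
  rw [ord_iff] at h h' ⊢
  intro s hs
  rw [coeff_mul]
  refine Finset.sum_eq_zero fun x hx => ?_
  have h1 : x.1 + x.2 = s := Finset.HasAntidiagonal.mem_antidiagonal.mp hx
  have h2 : x.1.degree + x.2.degree = s.degree := by
    rw [← h1]
    exact (map_add Finsupp.degree x.1 x.2).symm
  by_cases h3 : x.1.degree < q
  · rw [h x.1 h3, zero_mul]
  · rw [h' x.2 (by omega), mul_zero]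

lemma ord_mul_right {q : ℕ} {p : MvPolynomial (Fin (m + 1)) L} (h : Ord q p)
    (p' : MvPolynomial (Fin (m + 1)) L) : Ord q (p * p') := by
  have h0 : Ord 0 p' := fun s _ => Nat.zero_le _
  exact ord_mul h h0

lemma ord_mul_left {q : ℕ} {p : MvPolynomial (Fin (m + 1)) L} (h : Ord q p)
    (p' : MvPolynomial (Fin (m + 1)) L) : Ord q (p' * p) := by
  rw [mul_comm]
  exact ord_mul_right h p'

lemma ord_one {p : MvPolynomial (Fin (m + 1)) L} (h : constantCoeff p = 0) : Ord 1 p := by
  rw [ord_iff]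
  intro s hs
  have h1 : s = 0 := by
    rw [← Finsupp.degree_eq_zero_iff]
    omega
  rw [h1]
  exact h

lemma constantCoeff_of_ord {q : ℕ} (hq : 1 ≤ q) {p : MvPolynomial (Fin (m + 1)) L} (h : Ord q p) :
    constantCoeff p = 0 := by
  rw [ord_iff] at h
  refine h 0 ?_
  rw [map_zero]
  omega

lemma constantCoeff_bind (γ : Fin (m + 1) → MvPolynomial (Fin (m + 1)) L)
    (p : MvPolynomial (Fin (m + 1)) L) :
    constantCoeff (bind₁ γ p) = eval (fun i => constantCoeff (γ i)) p := by
  induction p using MvPolynomial.induction_on with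
  | C a => simp
  | add p q hp hq => rw [map_add, map_add, map_add, hp, hq]
  | mul_X p i hp => rw [map_mul, map_mul, map_mul, hp, bind₁_X_right, eval_X]

/-- Taylor formula of order one -/
lemma taylor {q : ℕ} (hq : 1 ≤ q) (γ δ : Fin (m + 1) → MvPolynomial (Fin (m + 1)) L)
    (hδ : ∀ i, Ord q (δ i)) (Ψ : MvPolynomial (Fin (m + 1)) L) :
    Ord (q + 1) (bind₁ (fun i => γ i + δ i) Ψ - bind₁ γ Ψ -
      ∑ i, C (eval (fun i => constantCoeff (γ i)) (pderiv i Ψ)) * δ i) := by
  classical
  induction Ψ using MvPolynomial.induction_on with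
  | C a =>
    have h1 : bind₁ (fun i => γ i + δ i) (C a) - bind₁ γ (C a) -
        ∑ i, C (eval (fun i => constantCoeff (γ i)) (pderiv i (C a))) * δ i = 0 := by
      simp
    rw [h1]
    exact ord_zero _
  | add p p' hp hp' =>
    have h1 : bind₁ (fun i => γ i + δ i) (p + p') - bind₁ γ (p + p') -
        ∑ i, C (eval (fun i => constantCoeff (γ i)) (pderiv i (p + p'))) * δ i
        = (bind₁ (fun i => γ i + δ i) p - bind₁ γ p -
          ∑ i, C (eval (fun i => constantCoeff (γ i)) (pderiv i p)) * δ i) +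
          (bind₁ (fun i => γ i + δ i) p' - bind₁ γ p' -
          ∑ i, C (eval (fun i => constantCoeff (γ i)) (pderiv i p')) * δ i) := by
      simp only [map_add, add_mul, Finset.sum_add_distrib]
      ring
    rw [h1]
    exact ord_add hp hp'
  | mul_X p j hp =>
    have hsum : ∑ i, C (eval (fun i => constantCoeff (γ i)) (pderiv i (p * X j))) * δ i
        = C (constantCoeff (γ j)) * (∑ i, C (eval (fun i => constantCoeff (γ i)) (pderiv i p)) * δ i)
          + C (eval (fun i => constantCoeff (γ i)) p) * δ j := by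
      have h2 : ∀ i, C (eval (fun i => constantCoeff (γ i)) (pderiv i (p * X j))) * δ i
          = C (constantCoeff (γ j)) * (C (eval (fun i => constantCoeff (γ i)) (pderiv i p)) * δ i)
            + (if i = j then C (eval (fun i => constantCoeff (γ i)) p) * δ i else 0) := by
        intro i
        rw [pderiv_mul, map_add, map_mul, map_mul, eval_X, map_add, map_mul, map_mul]
        by_cases hij : i = j
        · subst hij
          rw [pderiv_X_self, if_pos rfl, map_one, map_one]
          ring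
        · rw [pderiv_X_of_ne (Ne.symm hij), if_neg hij, map_zero, map_zero]
          ring
      rw [Finset.sum_congr rfl fun i _ => h2 i, Finset.sum_add_distrib, ← Finset.mul_sum,
        Finset.sum_ite_eq' Finset.univ j, if_pos (Finset.mem_univ j)]
    have hkey : bind₁ (fun i => γ i + δ i) (p * X j) - bind₁ γ (p * X j) -
        ∑ i, C (eval (fun i => constantCoeff (γ i)) (pderiv i (p * X j))) * δ i
        = (bind₁ (fun i => γ i + δ i) p - bind₁ γ p -
            ∑ i, C (eval (fun i => constantCoeff (γ i)) (pderiv i p)) * δ i) * (γ j + δ j)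
          + (∑ i, C (eval (fun i => constantCoeff (γ i)) (pderiv i p)) * δ i) *
            (γ j - C (constantCoeff (γ j)))
          + (∑ i, C (eval (fun i => constantCoeff (γ i)) (pderiv i p)) * δ i) * δ j
          + (bind₁ γ p - C (eval (fun i => constantCoeff (γ i)) p)) * δ j := by
      rw [hsum, map_mul, map_mul, bind₁_X_right, bind₁_X_right]
      ring
    rw [hkey]
    have hD : Ord q (∑ i, C (eval (fun i => constantCoeff (γ i)) (pderiv i p)) * δ i) :=
      ord_sum _ fun i _ => ord_mul_left (hδ i) _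
    refine ord_add (ord_add (ord_add (ord_mul_right hp _) (ord_mul hD (ord_one ?_))) ?_) ?_
    · rw [map_sub, constantCoeff_C, sub_self]
    · exact ord_mono (by omega) (ord_mul hD (hδ j))
    · rw [add_comm q 1]
      refine ord_mul (ord_one ?_) (hδ j)
      rw [map_sub, constantCoeff_C, constantCoeff_bind, sub_self]

lemma homComp_supported (n : ℕ) (S : Set (Fin (m + 1))) {p : MvPolynomial (Fin (m + 1)) L}
    (hp : p ∈ supported L S) : homogeneousComponent n p ∈ supported L S := by
  classical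
  rw [mem_supported] at hp ⊢
  intro i hi
  apply hp
  rw [Finset.mem_coe, mem_vars_iff_mem_support] at hi ⊢
  obtain ⟨s, hs, his⟩ := hi
  refine ⟨s, ?_, his⟩
  rw [mem_support_iff] at hs ⊢
  rw [coeff_homogeneousComponent] at hs
  intro h0
  apply hs
  rw [h0, ite_self]

lemma ord_homComp (n : ℕ) (p : MvPolynomial (Fin (m + 1)) L) :
    Ord n (homogeneousComponent n p) := by
  rw [ord_iff]
  intro s hs
  rw [coeff_homogeneousComponent, if_neg (by omega)]

lemma ord_sub_homComp {q : ℕ} {p : MvPolynomial (Fin (m + 1)) L} (h : Ord q p) :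
    Ord (q + 1) (p - homogeneousComponent q p) := by
  rw [ord_iff] at h ⊢
  intro s hs
  rw [coeff_sub, coeff_homogeneousComponent]
  by_cases h1 : s.degree = q
  · rw [if_pos h1, sub_self]
  · rw [if_neg h1, h s (by omega), sub_zero]

lemma bind_supported {S : Set (Fin (m + 1))} {γ : Fin (m + 1) → MvPolynomial (Fin (m + 1)) L}
    (hγ : ∀ i, γ i ∈ supported L S) (p : MvPolynomial (Fin (m + 1)) L) :
    bind₁ γ p ∈ supported L S := by
  induction p using MvPolynomial.induction_on with
  | C a =>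
    rw [bind₁_C_right]
    exact (supported L S).algebraMap_mem a
  | add p q hp hq =>
    rw [map_add]
    exact add_mem hp hq
  | mul_X p i hp =>
    rw [map_mul, bind₁_X_right]
    exact mul_mem hp (hγ i)

lemma step (k : Fin (m + 1)) (Ψ : Fin (m + 1) → MvPolynomial (Fin (m + 1)) L)
    (b : Fin (m + 1) → L) (hb : ∀ i, i ≤ k → b i = 0)
    (hdet : (Matrix.of fun i j : {i : Fin (m + 1) // k < i} =>
      eval b (pderiv (i : Fin (m + 1)) (Ψ j))).det ≠ 0) (q : ℕ) (hq : 1 ≤ q)
    (γ : Fin (m + 1) → MvPolynomial (Fin (m + 1)) L) (hγ : IsGerm k γ)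
    (hc : ∀ j, k < j → constantCoeff (γ j) = b j) (ho : ∀ j, k < j → Ord q (bind₁ γ (Ψ j))) :
    ∃ γ : Fin (m + 1) → MvPolynomial (Fin (m + 1)) L, IsGerm k γ ∧
      (∀ j, k < j → constantCoeff (γ j) = b j) ∧ ∀ j, k < j → Ord (q + 1) (bind₁ γ (Ψ j)) := by
  classical
  have hγs : ∀ i, γ i ∈ supported L {i : Fin (m + 1) | i ≤ k} := by
    intro i
    by_cases hi : i ≤ k
    · rw [hγ.1 i hi]
      exact X_mem_supported.mpr hi
    · exact hγ.2 i (not_le.mp hi)
  have hcb : (fun i => constantCoeff (γ i)) = b := by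
    funext i
    by_cases hi : i ≤ k
    · rw [hγ.1 i hi, constantCoeff_X, hb i hi]
    · exact hc i (not_le.mp hi)
  set M : Matrix {i : Fin (m + 1) // k < i} {i : Fin (m + 1) // k < i} L :=
    Matrix.of fun i j => eval b (pderiv (i : Fin (m + 1)) (Ψ j)) with hM
  have hMu : IsUnit M.det := isUnit_iff_ne_zero.mpr hdet
  let R : {i : Fin (m + 1) // k < i} → MvPolynomial (Fin (m + 1)) L := fun j =>
    homogeneousComponent q (bind₁ γ (Ψ j))
  have hRo : ∀ j, Ord q (R j) := fun j => ord_homComp q _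
  have hRs : ∀ j, R j ∈ supported L {i : Fin (m + 1) | i ≤ k} := fun j =>
    homComp_supported q _ (bind_supported hγs _)
  let δ : Fin (m + 1) → MvPolynomial (Fin (m + 1)) L := fun i =>
    if h : k < i then -∑ l, C (M⁻¹ l ⟨i, h⟩) * R l else 0
  have hδ1 : ∀ i : {i : Fin (m + 1) // k < i}, δ i = -∑ l, C (M⁻¹ l i) * R l := by
    intro i
    simp only [δ]
    rw [dif_pos i.2]
  have hδ0 : ∀ i, ¬ k < i → δ i = 0 := by
    intro i hi
    simp only [δ]
    rw [dif_neg hi]
  have hδo : ∀ i, Ord q (δ i) := by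
    intro i
    by_cases hi : k < i
    · rw [hδ1 ⟨i, hi⟩]
      exact ord_neg (ord_sum _ fun l _ => ord_mul_left (hRo l) _)
    · rw [hδ0 i hi]
      exact ord_zero _
  have hδs : ∀ i, δ i ∈ supported L {i : Fin (m + 1) | i ≤ k} := by
    intro i
    by_cases hi : k < i
    · rw [hδ1 ⟨i, hi⟩]
      exact neg_mem (sum_mem fun l _ =>
        mul_mem ((supported L {i : Fin (m + 1) | i ≤ k}).algebraMap_mem _) (hRs l))
    · rw [hδ0 i hi]
      exact zero_mem _
  have hsolve : ∀ j : {i : Fin (m + 1) // k < i},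
      ∑ i, C (eval b (pderiv i (Ψ j))) * δ i = -R j := by
    intro j
    have h1 : ∑ i, C (eval b (pderiv i (Ψ j))) * δ i
        = ∑ i : {i : Fin (m + 1) // k < i}, C (M i j) * δ i := by
      have h5 : ∑ i ∈ Finset.univ.filter (fun i : Fin (m + 1) => k < i),
          C (eval b (pderiv i (Ψ j))) * δ i = ∑ i, C (eval b (pderiv i (Ψ j))) * δ i := by
        refine Finset.sum_subset (Finset.filter_subset _ _) fun i _ hi => ?_
        rw [hδ0 i (fun h => hi (Finset.mem_filter.mpr ⟨Finset.mem_univ _, h⟩)), mul_zero]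
      rw [← h5]
      exact Finset.sum_subtype _ (fun i => by simp) _
    have h2 : ∀ i : {i : Fin (m + 1) // k < i}, C (M i j) * δ i
        = -∑ l, C (M⁻¹ l i * M i j) * R l := by
      intro i
      rw [hδ1 i, mul_neg, Finset.mul_sum]
      congr 1
      refine Finset.sum_congr rfl fun l _ => ?_
      rw [C_mul]
      ring
    rw [h1, Finset.sum_congr rfl fun i _ => h2 i, Finset.sum_neg_distrib, Finset.sum_comm]
    congr 1
    have h3 : ∀ l : {i : Fin (m + 1) // k < i},
        ∑ i : {i : Fin (m + 1) // k < i}, C (M⁻¹ l i * M i j) * R l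
          = if l = j then R l else 0 := by
      intro l
      rw [← Finset.sum_mul, ← map_sum]
      have h4 : ∑ i : {i : Fin (m + 1) // k < i}, M⁻¹ l i * M i j = (M⁻¹ * M) l j := by
        rw [Matrix.mul_apply]
      rw [h4, Matrix.nonsing_inv_mul M hMu, Matrix.one_apply]
      by_cases h5 : l = j
      · rw [if_pos h5, if_pos h5, C_1, one_mul]
      · rw [if_neg h5, if_neg h5, C_0, zero_mul]
    rw [Finset.sum_congr rfl fun l _ => h3 l, Finset.sum_ite_eq' Finset.univ j,
      if_pos (Finset.mem_univ j)]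
  refine ⟨fun i => γ i + δ i, ⟨?_, ?_⟩, ?_, ?_⟩
  · intro i hi
    simp only
    rw [hδ0 i (not_lt.mpr hi), add_zero]
    exact hγ.1 i hi
  · intro j hj
    exact add_mem (hγs j) (hδs j)
  · intro j hj
    simp only
    rw [map_add, hc j hj, constantCoeff_of_ord hq (hδo j), add_zero]
  · intro j hj
    have h1 := taylor hq γ δ hδo (Ψ j)
    rw [hcb, hsolve ⟨j, hj⟩] at h1
    have h2 : Ord (q + 1) (bind₁ γ (Ψ j) - R ⟨j, hj⟩) := ord_sub_homComp (ho j hj)
    have h3 := ord_add h1 h2
    have h4 : bind₁ (fun i => γ i + δ i) (Ψ j) - bind₁ γ (Ψ j) - -R ⟨j, hj⟩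
        + (bind₁ γ (Ψ j) - R ⟨j, hj⟩) = bind₁ (fun i => γ i + δ i) (Ψ j) := by ring
    rwa [h4] at h3

end HenselAux

open HenselAux in
/-- Approximate solutions: `Ψ j (X_0, .., X_k, γ_{k+1}, .., γ_m)` has order at least `q`. -/
theorem hensel (k : Fin (m + 1)) (Ψ : Fin (m + 1) → MvPolynomial (Fin (m + 1)) L)
    (b : Fin (m + 1) → L) (hb : ∀ i, i ≤ k → b i = 0) (h0 : ∀ j, k < j → eval b (Ψ j) = 0)
    (hdet : (Matrix.of fun i j : {i : Fin (m + 1) // k < i} =>
      eval b (pderiv (i : Fin (m + 1)) (Ψ j))).det ≠ 0) (q : ℕ) :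
    ∃ γ : Fin (m + 1) → MvPolynomial (Fin (m + 1)) L, IsGerm k γ ∧
      (∀ j, k < j → constantCoeff (γ j) = b j) ∧ ∀ j, k < j → Ord q (bind₁ γ (Ψ j)) := by
  have main : ∀ n : ℕ, ∃ γ : Fin (m + 1) → MvPolynomial (Fin (m + 1)) L, IsGerm k γ ∧
      (∀ j, k < j → constantCoeff (γ j) = b j) ∧ ∀ j, k < j → Ord (n + 1) (bind₁ γ (Ψ j)) := by
    intro n
    induction n with
    | zero =>
      refine ⟨fun i => if i ≤ k then X i else C (b i), ⟨?_, ?_⟩, ?_, ?_⟩
      · intro i hi
        exact if_pos hi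
      · intro j hj
        simp only
        rw [if_neg (not_le.mpr hj)]
        exact (supported L {i : Fin (m + 1) | i ≤ k}).algebraMap_mem _
      · intro j hj
        simp only
        rw [if_neg (not_le.mpr hj), constantCoeff_C]
      · intro j hj
        refine ord_one ?_
        rw [constantCoeff_bind]
        have h1 : (fun i => constantCoeff ((fun i => if i ≤ k then X i else C (b i) :
            Fin (m + 1) → MvPolynomial (Fin (m + 1)) L) i)) = b := by
          funext i
          by_cases hi : i ≤ k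
          · simp only
            rw [if_pos hi, constantCoeff_X, hb i hi]
          · simp only
            rw [if_neg hi, constantCoeff_C]
        rw [h1]
        exact h0 j hj
    | succ n ih =>
      obtain ⟨γ, h1, h2, h3⟩ := ih
      exact step k Ψ b hb hdet (n + 1) (by omega) γ h1 h2 h3
  obtain ⟨γ, h1, h2, h3⟩ := main q
  exact ⟨γ, h1, h2, fun j hj => ord_mono (Nat.le_succ q) (h3 j hj)⟩

end Pool.Agent.Lib.MP_9ec2c5_gen
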