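import Mathlib
import Pool.Agent.Lib.MP_9ec2c5_gen.Basic

/-!
The types of the points of an orbit at one place.
-/

set_option autoImplicit false

namespace Pool.Agent.Lib.MP_9ec2c5_gen

open MvPolynomial Filter Topology

variable {L : Type} [Field L] {m : ℕ} (w : AbsoluteValue L ℝ)

namespace DynAux

lemma d_mono (D : Data L m) {i j : Fin (m + 1)} (h : i ≤ j) : D.d i ≤ D.d j := by
  rcases h.lt_or_eq with h | rfl
  · rcases lt_or_ge i D.r with h1 | h1
    · exact (D.hlt i j h h1).le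
    · rw [D.htop i h1, D.htop j (h1.trans h.le)]
  · exact le_refl _

lemma d_le_dl (D : Data L m) (i : Fin (m + 1)) : D.d i ≤ D.dl := by
  unfold Data.dl
  rcases le_total i D.r with h | h
  · exact d_mono D h
  · rw [D.htop i h]

lemma d_pos (D : Data L m) (i : Fin (m + 1)) : 1 ≤ D.d i :=
  D.hd0.trans (d_mono D (Fin.zero_le i))

lemma d_two (D : Data L m) {k : Fin (m + 1)} (hk : k ≠ 0) (hr : k < D.r) : 2 ≤ D.d k := by
  have h0 : 0 < k := Fin.pos_iff_ne_zero.mpr hk
  have := D.hlt 0 k h0 (h0.trans hr)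
  have := D.hd0
  omega

lemma eval_homog {p : MvPolynomial (Fin (m + 1)) L} {n : ℕ} (hp : p.IsHomogeneous n) (c : L)
    (u : Fin (m + 1) → L) : eval (fun i => c * u i) p = c ^ n * eval u p := by
  rw [eval_eq', eval_eq', Finset.mul_sum]
  refine Finset.sum_congr rfl fun s hs => ?_
  have h1 : ∏ i, (c * u i) ^ s i = c ^ n * ∏ i, u i ^ s i := by
    rw [Finset.prod_congr rfl fun i _ => mul_pow c (u i) (s i), Finset.prod_mul_distrib,
      Finset.prod_pow_eq_pow_sum]
    congr 2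
    have h2 : s.degree = n := by
      by_contra hne
      exact (mem_support_iff.mp hs) (hp.coeff_eq_zero hne)
    rw [← h2, Finsupp.degree_eq_sum]
  rw [h1]
  ring

lemma rest_degree (p : MvPolynomial (Fin (m + 1)) L) (n : ℕ) (h : p.totalDegree ≤ n)
    (hn : 1 ≤ n) : (p - homogeneousComponent n p).totalDegree ≤ n - 1 := by
  refine Finset.sup_le fun s hs => ?_
  rw [mem_support_iff, coeff_sub, coeff_homogeneousComponent] at hs
  by_cases hd : s.degree = n
  · rw [if_pos hd, sub_self] at hs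
    exact absurd rfl hs
  · rw [if_neg hd, sub_zero] at hs
    have h1 := le_totalDegree (mem_support_iff.mpr hs)
    have h3 : (s.sum fun _ e => e) = s.degree := by
      rw [Finsupp.degree_eq_sum, Finsupp.sum_fintype _ _ (fun _ => rfl)]
    have h2 := h1.trans h
    rw [h3] at h2 ⊢
    omega

end DynAux

open DynAux

theorem upper_coord (D : Data L m) : ∃ C : ℝ, 1 ≤ C ∧ ∀ (i : Fin (m + 1)) (P : Fin (m + 1) → L),
    1 ≤ nrm w P → w (eval P (D.F i)) ≤ C * (nrm w P) ^ (D.d i) := by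
  choose C hC h using fun i => eval_le w (D.F i) (D.d i) (D.hF i)
  refine ⟨1 + ∑ i, C i, ?_, fun i P hP => ?_⟩
  · have := Finset.sum_nonneg fun i (_ : i ∈ Finset.univ) => hC i
    linarith
  · refine (h i P).trans ?_
    rw [max_eq_right hP]
    refine mul_le_mul_of_nonneg_right ?_ (pow_nonneg (nrm_nonneg w P) _)
    have := Finset.single_le_sum (fun i _ => hC i) (Finset.mem_univ i)
    linarith

theorem upper (D : Data L m) : ∃ C : ℝ, 1 ≤ C ∧ ∀ P : Fin (m + 1) → L,
    nrm w (ev D.F P) ≤ C * (max 1 (nrm w P)) ^ D.dl := by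
  choose C hC h using fun i => eval_le w (D.F i) D.dl ((D.hF i).trans (d_le_dl D i))
  refine ⟨1 + ∑ i, C i, ?_, fun P => nrm_le w fun i => ?_⟩
  · have := Finset.sum_nonneg fun i (_ : i ∈ Finset.univ) => hC i
    linarith
  · refine (h i P).trans ?_
    refine mul_le_mul_of_nonneg_right ?_ (by positivity)
    have := Finset.single_le_sum (fun i _ => hC i) (Finset.mem_univ i)
    linarith

namespace DynAux

/-- For large points whose coordinates of index `< k` are small, some coordinate of index `≥ k` of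
the image is large. -/
lemma low (D : Data L m) (η : ℝ) (hη : Good w D η) : ∃ R : ℝ, 1 ≤ R ∧
    ∀ (P : Fin (m + 1) → L) (k : Fin (m + 1)), R ≤ nrm w P → k ≤ D.r →
      (∀ l, l < k → w (P l) < η * nrm w P) →
      ∃ j, k ≤ j ∧ η / 2 * (nrm w P) ^ (D.d j) ≤ w (eval P (D.F j)) := by
  obtain ⟨h0, -, hG⟩ := hη
  choose C hC h using fun i => eval_le w (D.F i - D.T i) (D.d i - 1)
    (rest_degree (D.F i) (D.d i) (D.hF i) (d_pos D i))
  refine ⟨1 + ∑ i, 2 * C i / η, ?_, fun P k hR hk hl => ?_⟩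
  · have := Finset.sum_nonneg fun i (_ : i ∈ Finset.univ) =>
      div_nonneg (mul_nonneg zero_le_two (hC i)) h0.le
    linarith
  · have hs : 0 ≤ ∑ i, 2 * C i / η := Finset.sum_nonneg fun i (_ : i ∈ Finset.univ) =>
      div_nonneg (mul_nonneg zero_le_two (hC i)) h0.le
    have h1 : 1 ≤ nrm w P := by linarith
    obtain ⟨i0, hi0⟩ := exists_nrm w P
    have hne : P i0 ≠ 0 := by
      intro hz
      rw [hz, map_zero] at hi0
      linarith
    have hpos : 0 < nrm w P := by linarith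
    obtain ⟨j, hj, hTj⟩ := hG k (fun i => (P i0)⁻¹ * P i) hk
      (fun i => by
        rw [map_mul, map_inv₀, hi0, inv_mul_le_iff₀ hpos, mul_one]
        exact le_nrm w P i)
      ⟨i0, inv_mul_cancel₀ hne⟩
      (fun l hlk => by
        rw [map_mul, map_inv₀, hi0, inv_mul_le_iff₀ hpos, mul_comm]
        exact (hl l hlk).le)
    refine ⟨j, hj, ?_⟩
    have h2 : eval P (D.T j) = (P i0) ^ (D.d j) * eval (fun i => (P i0)⁻¹ * P i) (D.T j) := by
      have h2' := eval_homog (p := D.T j) (homogeneousComponent_isHomogeneous (D.d j) (D.F j))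
        (P i0) (fun i => (P i0)⁻¹ * P i)
      rw [← h2']
      congr 2
      funext i
      rw [mul_inv_cancel_left₀ hne]
    have h3 : η * (nrm w P) ^ (D.d j) ≤ w (eval P (D.T j)) := by
      rw [h2, map_mul, map_pow, hi0, mul_comm]
      exact mul_le_mul_of_nonneg_left hTj (by positivity)
    have h4 := h j P
    rw [max_eq_right h1, map_sub] at h4
    have h5 : C j * (nrm w P) ^ (D.d j - 1) ≤ η / 2 * (nrm w P) ^ (D.d j) := by
      have h6 : 2 * C j / η ≤ nrm w P := by
        have := Finset.single_le_sum (f := fun i => 2 * C i / η)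
          (fun i _ => div_nonneg (mul_nonneg zero_le_two (hC i)) h0.le) (Finset.mem_univ j)
        linarith
      have h7 : C j ≤ η / 2 * nrm w P := by
        rw [div_le_iff₀ h0] at h6
        linarith
      have h8 : (nrm w P) ^ (D.d j) = nrm w P * (nrm w P) ^ (D.d j - 1) := by
        rw [← pow_succ']
        congr 1
        have := d_pos D j
        omega
      rw [h8, ← mul_assoc]
      exact mul_le_mul_of_nonneg_right h7 (by positivity)
    have h9 : w (eval P (D.T j)) ≤ w (eval P (D.F j)) + w (eval P (D.F j) - eval P (D.T j)) := by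
      have h10 : eval P (D.T j) = eval P (D.F j) - (eval P (D.F j) - eval P (D.T j)) := by ring
      calc w (eval P (D.T j)) = w (eval P (D.F j) - (eval P (D.F j) - eval P (D.T j))) := by
            rw [← h10]
        _ ≤ _ := by
            rw [sub_eq_add_neg (eval P (D.F j))]
            refine (w.add_le _ _).trans ?_
            rw [w.map_neg]
    linarith

/-- A coordinate of smaller degree is small compared with the norm of the image. -/
lemma small (D : Data L m) (η : ℝ) (h0 : 0 < η) : ∃ R : ℝ, 1 ≤ R ∧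
    ∀ (P : Fin (m + 1) → L) (i j : Fin (m + 1)), R ≤ nrm w P → D.d i < D.d j →
      η / 2 * (nrm w P) ^ (D.d j) ≤ w (eval P (D.F j)) →
      w (eval P (D.F i)) < η * nrm w (ev D.F P) := by
  obtain ⟨C, hC1, hC⟩ := upper_coord w D
  refine ⟨1 + 4 * C / η ^ 2, ?_, fun P i j hR hd hj => ?_⟩
  · have : 0 ≤ 4 * C / η ^ 2 := by positivity
    linarith
  · have hs : 0 ≤ 4 * C / η ^ 2 := by positivity
    have h1 : 1 ≤ nrm w P := by linarith
    have h2 := hC i P h1
    have h3 : (nrm w P) ^ (D.d i) ≤ (nrm w P) ^ (D.d j - 1) :=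
      pow_le_pow_right₀ h1 (by omega)
    have h4 : (nrm w P) ^ (D.d j) = nrm w P * (nrm w P) ^ (D.d j - 1) := by
      rw [← pow_succ']
      congr 1
      omega
    have h5 : w (eval P (D.F j)) ≤ nrm w (ev D.F P) := le_nrm w (ev D.F P) j
    have h6 : 4 * C < η ^ 2 * nrm w P := by
      have : 4 * C / η ^ 2 < nrm w P := by linarith
      rw [div_lt_iff₀ (by positivity)] at this
      linarith
    have h7 : 0 < (nrm w P) ^ (D.d j - 1) := by positivity
    have h8 : C * (nrm w P) ^ (D.d j - 1) < η * (η / 2 * (nrm w P) ^ (D.d j)) := by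
      rw [h4]
      have : C < η * (η / 2 * nrm w P) := by nlinarith
      calc C * (nrm w P) ^ (D.d j - 1) < (η * (η / 2 * nrm w P)) * (nrm w P) ^ (D.d j - 1) :=
            mul_lt_mul_of_pos_right this h7
        _ = _ := by ring
    calc w (eval P (D.F i)) ≤ C * (nrm w P) ^ (D.d i) := h2
      _ ≤ C * (nrm w P) ^ (D.d j - 1) := mul_le_mul_of_nonneg_left h3 (by linarith)
      _ < η * (η / 2 * (nrm w P) ^ (D.d j)) := h8
      _ ≤ η * nrm w (ev D.F P) := mul_le_mul_of_nonneg_left (hj.trans h5) h0.le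

end DynAux

theorem one_step (D : Data L m) (η : ℝ) (hη : Good w D η) : ∃ R : ℝ, 1 ≤ R ∧
    ∀ P : Fin (m + 1) → L, R ≤ nrm w P →
      (∀ k, k < D.r → Ty w η k P → (∀ k', k' < D.r → Ty w η k' (ev D.F P) → k ≤ k') ∧
        η / 2 * (nrm w P) ^ (D.d k) ≤ nrm w (ev D.F P)) ∧
      (Fast w D η P → Fast w D η (ev D.F P) ∧
        η / 2 * (nrm w P) ^ D.dl ≤ nrm w (ev D.F P)) := by
  obtain ⟨R1, hR1, h1⟩ := low w D η hη
  obtain ⟨R2, hR2, h2⟩ := small w D η hη.1
  have h0 := hη.1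
  refine ⟨max R1 R2, le_max_of_le_left hR1, fun P hP => ?_⟩
  have hP1 : R1 ≤ nrm w P := (le_max_left _ _).trans hP
  have hP2 : R2 ≤ nrm w P := (le_max_right _ _).trans hP
  have hP3 : 1 ≤ nrm w P := hR1.trans hP1
  refine ⟨fun k hk hT => ?_, fun hF => ?_⟩
  · obtain ⟨j, hj, hj2⟩ := h1 P k hP1 hk.le hT.1
    refine ⟨fun k' hk' hT' => ?_, ?_⟩
    · by_contra hlt
      push Not at hlt
      exact absurd (h2 P k' j hP2 (D.hlt k' j (hlt.trans_le hj) hk') hj2) (not_lt.mpr hT'.2)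
    · refine le_trans ?_ (hj2.trans (le_nrm w (ev D.F P) j))
      exact mul_le_mul_of_nonneg_left (pow_le_pow_right₀ hP3 (d_mono D hj)) (by linarith)
  · obtain ⟨j, hj, hj2⟩ := h1 P D.r hP1 le_rfl hF
    refine ⟨fun i hi => ?_, ?_⟩
    · exact h2 P i j hP2 (D.hlt i j (hi.trans_le hj) hi) hj2
    · refine le_trans ?_ (hj2.trans (le_nrm w (ev D.F P) j))
      rw [D.htop j hj]
      exact le_refl _

theorem fast (D : Data L m) (η : ℝ) (hη : Good w D η) (hdl : 2 ≤ D.dl) : ∃ R : ℝ, 1 ≤ R ∧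
    ∀ P : ℕ → Fin (m + 1) → L, (∀ n, P (n + 1) = ev D.F (P n)) →
      ∀ n0, Fast w D η (P n0) → R ≤ nrm w (P n0) →
        ∃ c : ℝ, 0 < c ∧ ∀ᶠ n in atTop, c * (D.dl : ℝ) ^ n ≤ Real.log (nrm w (P n)) := by
  obtain ⟨R0, hR0, h1⟩ := one_step w D η hη
  have h0 := hη.1
  have hη1 := hη.2.1
  set c0 : ℝ := Real.log (2 / η) + Real.log R0 with hc0
  have hc1 : 0 ≤ Real.log (2 / η) := Real.log_nonneg (by rw [le_div_iff₀ h0]; linarith)
  have hc2 : 0 ≤ Real.log R0 := Real.log_nonneg hR0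
  refine ⟨Real.exp (c0 + 1), Real.one_le_exp (by linarith), fun P hP n0 hF hR => ?_⟩
  have hdl' : (2 : ℝ) ≤ (D.dl : ℝ) := by exact_mod_cast hdl
  have key : ∀ t : ℕ, Fast w D η (P (n0 + t)) ∧ 0 < nrm w (P (n0 + t)) ∧
      c0 + (D.dl : ℝ) ^ t ≤ Real.log (nrm w (P (n0 + t))) := by
    intro t
    induction t with
    | zero =>
      have hp : 0 < nrm w (P n0) := lt_of_lt_of_le (Real.exp_pos _) hR
      refine ⟨hF, hp, ?_⟩
      rw [pow_zero, add_zero, Real.le_log_iff_exp_le hp]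
      exact hR
    | succ t ih =>
      obtain ⟨i1, i2, i3⟩ := ih
      have h2 : 1 ≤ (D.dl : ℝ) ^ t := one_le_pow₀ (by linarith)
      have h3 : R0 ≤ nrm w (P (n0 + t)) := by
        rw [← Real.exp_log i2]
        calc R0 = Real.exp (Real.log R0) := (Real.exp_log (by linarith)).symm
          _ ≤ _ := Real.exp_le_exp.mpr (by linarith)
      obtain ⟨h4, h5⟩ := (h1 (P (n0 + t)) h3).2 i1
      rw [← add_assoc, hP]
      have h6 : 0 < η / 2 * (nrm w (P (n0 + t))) ^ D.dl := by positivity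
      have h7 : 0 < nrm w (ev D.F (P (n0 + t))) := lt_of_lt_of_le h6 h5
      refine ⟨h4, h7, ?_⟩
      have h8 : Real.log (η / 2 * (nrm w (P (n0 + t))) ^ D.dl)
          ≤ Real.log (nrm w (ev D.F (P (n0 + t)))) := Real.log_le_log h6 h5
      rw [Real.log_mul (by positivity) (by positivity), Real.log_pow] at h8
      have h9 : Real.log (η / 2) = - Real.log (2 / η) := by
        rw [← Real.log_inv, inv_div]
      rw [h9] at h8
      have h10 : (D.dl : ℝ) * (c0 + (D.dl : ℝ) ^ t) ≤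
          (D.dl : ℝ) * Real.log (nrm w (P (n0 + t))) :=
        mul_le_mul_of_nonneg_left i3 (by linarith)
      have h11 : 0 ≤ ((D.dl : ℝ) - 2) * c0 := mul_nonneg (by linarith) (by linarith)
      rw [pow_succ]
      nlinarith
  refine ⟨((D.dl : ℝ) ^ n0)⁻¹, by positivity, ?_⟩
  filter_upwards [eventually_ge_atTop n0] with n hn
  obtain ⟨t, rfl⟩ := Nat.exists_eq_add_of_le hn
  obtain ⟨-, -, h3⟩ := key t
  have h4 : ((D.dl : ℝ) ^ n0)⁻¹ * (D.dl : ℝ) ^ (n0 + t) = (D.dl : ℝ) ^ t := by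
    rw [pow_add, ← mul_assoc, inv_mul_cancel₀ (by positivity), one_mul]
  rw [h4]
  linarith

theorem stable (D : Data L m) (η : ℝ) (hη : Good w D η) (hdl : 2 ≤ D.dl)
    (P : ℕ → Fin (m + 1) → L) (hP : ∀ n, P (n + 1) = ev D.F (P n))
    (hslow : ¬ ∃ c : ℝ, 0 < c ∧ ∀ᶠ n in atTop, c * (D.dl : ℝ) ^ n ≤ Real.log (nrm w (P n))) :
    ∃ (R : ℝ) (k : Fin (m + 1)) (n0 : ℕ), ∀ n, n0 ≤ n → R ≤ nrm w (P n) →
      k < D.r ∧ Ty w η k (P n) := by
  obtain ⟨R1, hR1, h1⟩ := one_step w D η hη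
  obtain ⟨R2, hR2, h2⟩ := fast w D η hη hdl
  have h0 := hη.1
  set R := max (max R1 R2) (2 / η) with hR
  have ha : R1 ≤ R := (le_max_left _ _).trans (le_max_left _ _)
  have hb : R2 ≤ R := (le_max_right _ _).trans (le_max_left _ _)
  have hc : 2 / η ≤ R := le_max_right _ _
  have hty : ∀ n, R ≤ nrm w (P n) → ∃ k, k < D.r ∧ Ty w η k (P n) := by
    intro n hn
    rcases exists_ty w D η (P n) with hF | hT
    · exact absurd (h2 P hP n hF (hb.trans hn)) hslow
    · exact hT
  by_cases hA : ∃ n1, R ≤ nrm w (P n1) ∧ ∃ k, k ≠ 0 ∧ k < D.r ∧ Ty w η k (P n1)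
  · obtain ⟨n1, hn1, k1, hk1, hk1r, hT1⟩ := hA
    have key : ∀ t, R ≤ nrm w (P (n1 + t)) ∧ ∃ k, k ≠ 0 ∧ k < D.r ∧ Ty w η k (P (n1 + t)) := by
      intro t
      induction t with
      | zero => exact ⟨hn1, k1, hk1, hk1r, hT1⟩
      | succ t ih =>
        obtain ⟨i1, k, i2, i3, i4⟩ := ih
        obtain ⟨h3, h4⟩ := (h1 (P (n1 + t)) (ha.trans i1)).1 k i3 i4
        have h5 : R ≤ nrm w (P (n1 + t + 1)) := by
          rw [hP]
          refine le_trans ?_ h4
          have h6 : 1 ≤ nrm w (P (n1 + t)) := hR1.trans (ha.trans i1)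
          have h7 : (nrm w (P (n1 + t))) ^ 2 ≤ (nrm w (P (n1 + t))) ^ (D.d k) :=
            pow_le_pow_right₀ h6 (d_two D i2 i3)
          have h8 : 2 / η ≤ nrm w (P (n1 + t)) := hc.trans i1
          rw [div_le_iff₀ h0] at h8
          have h9 : nrm w (P (n1 + t)) ≤ η / 2 * (nrm w (P (n1 + t))) ^ 2 := by nlinarith
          have h10 : η / 2 * (nrm w (P (n1 + t))) ^ 2 ≤ η / 2 * (nrm w (P (n1 + t))) ^ (D.d k) :=
            mul_le_mul_of_nonneg_left h7 (by linarith)
          linarith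
        obtain ⟨k', h6, h7⟩ := hty _ h5
        refine ⟨h5, k', ?_, h6, h7⟩
        rw [hP] at h7
        have := h3 k' h6 h7
        rintro rfl
        exact i2 (le_antisymm this (Fin.zero_le k))
    have hmono : ∀ t k k', k < D.r → Ty w η k (P (n1 + t)) → k' < D.r →
        Ty w η k' (P (n1 + t + 1)) → k ≤ k' := by
      intro t k k' hk hT hk' hT'
      rw [hP] at hT'
      exact ((h1 (P (n1 + t)) (ha.trans (key t).1)).1 k hk hT).1 k' hk' hT'
    classical
    let S : Finset (Fin (m + 1)) :=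
      Finset.univ.filter fun k => k < D.r ∧ ∃ t, Ty w η k (P (n1 + t))
    have hS : S.Nonempty := ⟨k1, Finset.mem_filter.mpr ⟨Finset.mem_univ _, hk1r, 0, hT1⟩⟩
    have hmax := Finset.max'_mem S hS
    rw [Finset.mem_filter] at hmax
    obtain ⟨-, hk, t0, ht0⟩ := hmax
    refine ⟨R, S.max' hS, n1 + t0, fun n hn _ => ⟨hk, ?_⟩⟩
    obtain ⟨s, rfl⟩ := Nat.exists_eq_add_of_le hn
    clear hn
    induction s with
    | zero => exact ht0
    | succ s ih =>
      rename_i hh
      have h3 := key (t0 + s + 1)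
      obtain ⟨-, k, -, h4, h5⟩ := h3
      have h6 : k ≤ S.max' hS :=
        Finset.le_max' S k (Finset.mem_filter.mpr ⟨Finset.mem_univ _, h4, _, h5⟩)
      have h7 : S.max' hS ≤ k := by
        refine hmono (t0 + s) _ _ hk ?_ h4 ?_
        · rw [← add_assoc]
          refine ih ?_
          rw [add_assoc]
          exact (key (t0 + s)).1
        · rw [← add_assoc] at h5
          rwa [add_assoc n1 (t0 + s) 1]
      have h8 : k = S.max' hS := le_antisymm h6 h7
      rw [← h8]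
      have h9 : n1 + t0 + (s + 1) = n1 + (t0 + s + 1) := by omega
      rw [h9]
      exact h5
  · push Not at hA
    refine ⟨R, 0, 0, fun n _ hn => ?_⟩
    obtain ⟨k, hk, hT⟩ := hty n hn
    have hk0 : k = 0 := by
      by_contra hne
      exact hA n hn k hne hk hT
    subst hk0
    exact ⟨hk, hT⟩

/-- windows: far out, if the norm of `P (n + 1)` is large then all the points `P n`, ..,
`P (n + q + 1)` have type `k` and large norm -/
theorem window (D : Data L m) (η : ℝ) (hη : Good w D η) (hdl : 2 ≤ D.dl)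
    (P : ℕ → Fin (m + 1) → L) (hP : ∀ n, P (n + 1) = ev D.F (P n))
    (hslow : ¬ ∃ c : ℝ, 0 < c ∧ ∀ᶠ n in atTop, c * (D.dl : ℝ) ^ n ≤ Real.log (nrm w (P n)))
    (q : ℕ) : ∃ (k : Fin (m + 1)), ∀ Rq : ℝ, ∃ (R : ℝ) (n0 : ℕ), ∀ n, n0 ≤ n →
      R ≤ nrm w (P (n + 1)) → k < D.r ∧
        ∀ i, i ≤ q + 1 → Ty w η k (P (n + i)) ∧ Rq ≤ nrm w (P (n + i)) := by
  obtain ⟨R1, hR1, h1⟩ := one_step w D η hη
  obtain ⟨R2, k, n0, h2⟩ := stable w D η hη hdl P hP hslow
  obtain ⟨C, hC1, hC⟩ := upper w D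
  have h0 := hη.1
  have hη1 := hη.2.1
  refine ⟨k, fun Rq => ?_⟩
  set S0 : ℝ := max (max Rq R2) R1 with hS0
  have hS1 : 1 ≤ S0 := hR1.trans (le_max_right _ _)
  set S : ℝ := S0 * (2 / η) ^ (q + 1) with hS
  have h2η : 1 ≤ 2 / η := by rw [le_div_iff₀ h0]; linarith
  have hSS : S0 ≤ S := by
    have : 1 ≤ (2 / η) ^ (q + 1) := one_le_pow₀ h2η
    rw [hS]
    nlinarith
  refine ⟨C * S ^ D.dl + 1, n0, fun n hn hR => ?_⟩
  have hPn : S ≤ nrm w (P n) := by
    by_contra hlt
    push Not at hlt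
    have h3 := hC (P n)
    rw [← hP] at h3
    have h4 : max 1 (nrm w (P n)) ≤ S := max_le (hS1.trans hSS) hlt.le
    have h5 : (max 1 (nrm w (P n))) ^ D.dl ≤ S ^ D.dl :=
      pow_le_pow_left₀ (le_trans zero_le_one (le_max_left _ _)) h4 _
    have h6 : C * (max 1 (nrm w (P n))) ^ D.dl ≤ C * S ^ D.dl :=
      mul_le_mul_of_nonneg_left h5 (by linarith)
    linarith
  have key : ∀ i, i ≤ q + 1 → S0 * (2 / η) ^ (q + 1 - i) ≤ nrm w (P (n + i)) := by
    intro i
    induction i with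
    | zero => intro _; exact hPn
    | succ i ih =>
      intro hi
      have h3 := ih (by omega)
      have h4 : S0 ≤ nrm w (P (n + i)) := by
        refine le_trans ?_ h3
        have : 1 ≤ (2 / η) ^ (q + 1 - i) := one_le_pow₀ h2η
        nlinarith
      obtain ⟨hk, hT⟩ := h2 (n + i) (by omega)
        (((le_max_right _ _).trans (le_max_left _ _)).trans h4)
      obtain ⟨-, h5⟩ := (h1 (P (n + i)) ((le_max_right _ _).trans h4)).1 k hk hT
      rw [← hP] at h5
      refine le_trans ?_ h5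
      have h6 : 1 ≤ nrm w (P (n + i)) := hS1.trans h4
      have h7 : nrm w (P (n + i)) ≤ (nrm w (P (n + i))) ^ (D.d k) :=
        le_self_pow₀ h6 (by have := d_pos D k; omega)
      have h8 : S0 * (2 / η) ^ (q + 1 - (i + 1)) = η / 2 * (S0 * (2 / η) ^ (q + 1 - i)) := by
        rw [show q + 1 - i = (q + 1 - (i + 1)) + 1 by omega, pow_succ]
        field_simp
      rw [h8]
      exact mul_le_mul_of_nonneg_left (h3.trans h7) (by linarith)
  have key2 : ∀ i, i ≤ q + 1 → S0 ≤ nrm w (P (n + i)) := by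
    intro i hi
    refine le_trans ?_ (key i hi)
    have : 1 ≤ (2 / η) ^ (q + 1 - i) := one_le_pow₀ h2η
    nlinarith
  refine ⟨(h2 n hn ?_).1, fun i hi => ⟨(h2 (n + i) (by omega) ?_).2, ?_⟩⟩
  · exact ((le_max_right _ _).trans (le_max_left _ _)).trans (key2 0 (by omega))
  · exact ((le_max_right _ _).trans (le_max_left _ _)).trans (key2 i hi)
  · exact ((le_max_left _ _).trans (le_max_left _ _)).trans (key2 i hi)

end Pool.Agent.Lib.MP_9ec2c5_gen
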