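import Mathlib
import Pool.Agent.Lib.MP_9ec2c5_gen.Basic

/-!
Inequalities which follow from membership in ideals.
-/

set_option autoImplicit false

namespace Pool.Agent.Lib.MP_9ec2c5_gen

open MvPolynomial

variable {L : Type} [Field L] {m : ℕ} (w : AbsoluteValue L ℝ)

/-- a positive lower bound of finitely many positive numbers -/
lemma exists_pos_le {ι : Type*} [Finite ι] (f : ι → ℝ) (h : ∀ i, 0 < f i) :
    ∃ ε : ℝ, 0 < ε ∧ ∀ i, ε ≤ f i := by
  cases isEmpty_or_nonempty ι
  · exact ⟨1, one_pos, fun i => isEmptyElim i⟩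
  · obtain ⟨i0, hi0⟩ := Finite.exists_min f
    exact ⟨f i0, h i0, hi0⟩

/-- an element of an ideal is small where the generators are small -/
lemma span_small (S : Set (MvPolynomial (Fin (m + 1)) L)) (p : MvPolynomial (Fin (m + 1)) L)
    (hp : p ∈ Ideal.span S) : ∃ C : ℝ, 0 ≤ C ∧ ∀ (u : Fin (m + 1) → L) (e : ℝ),
      (∀ i, w (u i) ≤ 1) → (∀ s ∈ S, w (eval u s) ≤ e) → 0 ≤ e → w (eval u p) ≤ C * e := by
  induction hp using Submodule.span_induction with
  | mem x hx => exact ⟨1, zero_le_one, fun u e _ h _ => by rw [one_mul]; exact h x hx⟩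
  | zero => exact ⟨0, le_refl _, fun u e _ _ _ => by simp⟩
  | add x y _ _ hx hy =>
    obtain ⟨C1, hC1, h1⟩ := hx
    obtain ⟨C2, hC2, h2⟩ := hy
    refine ⟨C1 + C2, by positivity, fun u e hu hs he => ?_⟩
    rw [map_add, add_mul]
    exact (w.add_le _ _).trans (add_le_add (h1 u e hu hs he) (h2 u e hu hs he))
  | smul a x _ hx =>
    obtain ⟨C1, hC1, h1⟩ := hx
    obtain ⟨C2, hC2, h2⟩ := eval_bounded w a 1
    refine ⟨C2 * C1, by positivity, fun u e hu hs he => ?_⟩
    rw [smul_eq_mul, map_mul, map_mul, mul_assoc]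
    exact mul_le_mul (h2 u hu) (h1 u e hu hs he) (w.nonneg _) hC2

theorem exists_good (D : Data L m) : ∃ η : ℝ, Good w D η := by
  classical
  have key : ∀ x : Fin (m + 1) × Fin (m + 1), ∃ η : ℝ, 0 < η ∧ ∀ (u : Fin (m + 1) → L) (e : ℝ),
      x.1 ≤ D.r → 0 ≤ e → e ≤ η → (∀ i, w (u i) ≤ 1) → u x.2 = 1 → (∀ l, l < x.1 → w (u l) ≤ e) →
      ¬ ∀ j, x.1 ≤ j → w (eval u (D.T j)) ≤ e := by
    intro x
    by_cases hx : x.1 ≤ D.r
    · obtain ⟨A, hA⟩ := D.null1 x.1 x.2 hx
      obtain ⟨C, hC, h⟩ := span_small w _ _ hA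
      refine ⟨(C + 1)⁻¹, by positivity, fun u e _ he0 he hu hux hl hj => ?_⟩
      have h1 := h u e hu (by
        rintro s (⟨l, hl', rfl⟩ | ⟨j, hj', rfl⟩)
        · rw [eval_X]
          exact hl l hl'
        · exact hj j hj') he0
      rw [map_pow, eval_X, hux, one_pow, map_one] at h1
      have h2 : C * e ≤ C * (C + 1)⁻¹ := mul_le_mul_of_nonneg_left he hC
      have h3 : C * (C + 1)⁻¹ < 1 := by
        rw [← div_eq_mul_inv, div_lt_one (by positivity)]
        linarith
      linarith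
    · exact ⟨1, one_pos, fun u e h => absurd h hx⟩
  choose f hf hf2 using key
  obtain ⟨η, hη, hηf⟩ := exists_pos_le f hf
  refine ⟨min η 1, lt_min hη one_pos, min_le_right _ _, fun k u hk hu hex hl => ?_⟩
  obtain ⟨i, hi⟩ := hex
  by_contra hcon
  push Not at hcon
  exact hf2 (k, i) u (min η 1) hk (le_min hη.le zero_le_one) ((min_le_left _ _).trans (hηf (k, i)))
    hu hi hl fun j hj => (hcon j hj).le

theorem near_base (D : Data L m) (η δ : ℝ) (hη : 0 < η) (hδ : 0 < δ) :
    ∃ ε : ℝ, 0 < ε ∧ ∀ (k : Fin (m + 1)) (u : Fin (m + 1) → L), k < D.r →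
      (∀ i, w (u i) ≤ 1) → η ≤ w (u k) → (∀ l, l < k → w (u l) ≤ ε) →
      (∀ j, k < j → w (eval u (D.T j)) ≤ ε) →
      ∃ β ∈ D.B k, ∀ j, k < j → w (u j - β j * u k) ≤ δ := by
  classical
  have key : ∀ k : Fin (m + 1), ∃ ε : ℝ, 0 < ε ∧ ∀ (u : Fin (m + 1) → L) (e : ℝ), k < D.r →
      0 ≤ e → e ≤ ε → (∀ i, w (u i) ≤ 1) → η ≤ w (u k) → (∀ l, l < k → w (u l) ≤ e) →
      (∀ j, k < j → w (eval u (D.T j)) ≤ e) →
      ∃ β ∈ D.B k, ∀ j, k < j → w (u j - β j * u k) ≤ δ := by
    intro k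
    by_cases hk : k < D.r
    · have key2 : ∀ φ : {β // β ∈ D.B k} → {j : Fin (m + 1) // k < j}, ∃ ε : ℝ, 0 < ε ∧
          ∀ (u : Fin (m + 1) → L) (e : ℝ), 0 ≤ e → e ≤ ε → (∀ i, w (u i) ≤ 1) → η ≤ w (u k) →
          (∀ l, l < k → w (u l) ≤ e) → (∀ j, k < j → w (eval u (D.T j)) ≤ e) →
          ¬ ∀ β : {β // β ∈ D.B k}, δ < w (u (φ β).1 - β.1 (φ β).1 * u k) := by
        intro φ
        have hlast : k < Fin.last m := lt_of_lt_of_le hk (Fin.le_last _)
        obtain ⟨A, hA⟩ := D.null2 k (fun β => if h : β ∈ D.B k then (φ ⟨β, h⟩).1 else Fin.last m)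
          hk (by
            intro β
            by_cases h : β ∈ D.B k
            · simp only [h, dif_pos]
              exact (φ ⟨β, h⟩).2
            · simp only [h, dif_neg, not_false_eq_true]
              exact hlast)
        obtain ⟨C, hC, h⟩ := span_small w _ _ hA
        refine ⟨(η * δ ^ (D.B k).card) ^ A / (C + 1), by positivity,
          fun u e he0 he hu huk hl hj hcon => ?_⟩
        have h1 := h u e hu (by
          rintro s (⟨l, hl', rfl⟩ | ⟨j, hj', rfl⟩)
          · rw [eval_X]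
            exact hl l hl'
          · exact hj j hj') he0
        have h2 : (η * δ ^ (D.B k).card) ^ A ≤ C * e := by
          refine le_trans ?_ h1
          rw [map_pow, map_pow, map_mul, map_mul, eval_X, map_prod, map_prod]
          refine pow_le_pow_left₀ (by positivity) ?_ A
          refine mul_le_mul huk ?_ (by positivity) (w.nonneg _)
          rw [← Finset.prod_const]
          refine Finset.prod_le_prod (fun _ _ => hδ.le) fun β hβ => ?_
          simp only [hβ, dif_pos, map_sub, map_mul, eval_X, eval_C]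
          exact (hcon ⟨β, hβ⟩).le
        have h3 : C * e ≤ C * ((η * δ ^ (D.B k).card) ^ A / (C + 1)) :=
          mul_le_mul_of_nonneg_left he hC
        have h4 : C * ((η * δ ^ (D.B k).card) ^ A / (C + 1)) < (η * δ ^ (D.B k).card) ^ A := by
          rw [mul_div_assoc', div_lt_iff₀ (by positivity)]
          have : 0 < (η * δ ^ (D.B k).card) ^ A := by positivity
          nlinarith
        linarith
      choose f hf hf2 using key2
      obtain ⟨ε, hε, hεf⟩ := exists_pos_le f hf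
      refine ⟨ε, hε, fun u e _ he0 he hu huk hl hj => ?_⟩
      by_contra hcon
      push Not at hcon
      have hch : ∀ β : {β // β ∈ D.B k}, ∃ j : {j : Fin (m + 1) // k < j},
          δ < w (u j.1 - β.1 j.1 * u k) := by
        intro β
        obtain ⟨j, hj1, hj2⟩ := hcon β.1 β.2
        exact ⟨⟨j, hj1⟩, hj2⟩
      choose φ hφ using hch
      exact hf2 φ u e he0 (he.trans (hεf φ)) hu huk hl hj hφ
    · exact ⟨1, one_pos, fun u e h => absurd h hk⟩
  choose f hf hf2 using key
  obtain ⟨ε, hε, hεf⟩ := exists_pos_le f hf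
  exact ⟨ε, hε, fun k u hk hu huk hl hj =>
    hf2 k u ε hk hε.le (hεf k) hu huk hl hj⟩

end Pool.Agent.Lib.MP_9ec2c5_gen
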