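import Mathlib
import Pool.Agent.Lib.MP_9ec2c5_gen.Ineq
import Pool.Agent.Lib.MP_9ec2c5_gen.Dyn

/-!
Local estimates at a step between two points of the same type.
-/

set_option autoImplicit false

namespace Pool.Agent.Lib.MP_9ec2c5_gen

open MvPolynomial Filter Topology

variable {L : Type} [Field L] {m : ℕ}

lemma gm_d_le (D : Data L m) (i : Fin (m + 1)) : D.d i ≤ D.dl := by
  by_cases h : i < D.r
  · exact (D.hlt i D.r h h).le
  · rw [D.htop i (not_lt.mp h)]
    exact le_refl _

lemma gm_one_le_d (D : Data L m) (i : Fin (m + 1)) : 1 ≤ D.d i := by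
  rcases eq_or_lt_of_le (Fin.zero_le i) with h | h
  · rw [← h]
    exact D.hd0
  · by_cases hr : 0 < D.r
    · exact D.hd0.trans (D.hlt 0 i h hr).le
    · have h0 : D.r = 0 := le_antisymm (not_lt.mp hr) (Fin.zero_le _)
      have h1 : D.r ≤ i := by
        rw [h0]
        exact Fin.zero_le _
      have h2 : D.d i = D.d 0 := by
        rw [D.htop i h1, h0]
      rw [h2]
      exact D.hd0

lemma gm_one_le_dl (D : Data L m) : 1 ≤ D.dl := gm_one_le_d D D.r

/-- scaling -/
lemma gm_scale (D : Data L m) (j : Fin (m + 1)) (c : L) (u : Fin (m + 1) → L) :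
    eval (fun i => c * u i) (D.T j) = c ^ D.d j * eval u (D.T j) := by
  rw [eval_eq', eval_eq', Finset.mul_sum]
  refine Finset.sum_congr rfl fun s hs => ?_
  have hdeg : s.degree = D.d j := by
    by_contra hne
    rw [mem_support_iff, Data.T, coeff_homogeneousComponent, if_neg hne] at hs
    exact hs rfl
  have h3 : ∏ i, (c * u i) ^ s i = c ^ D.d j * ∏ i, u i ^ s i := by
    rw [← hdeg, Finsupp.degree_eq_sum, ← Finset.prod_pow_eq_pow_sum, ← Finset.prod_mul_distrib]
    exact Finset.prod_congr rfl fun i _ => mul_pow _ _ _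
  rw [h3]
  ring

/-- the lower part of a coordinate -/
lemma gm_low (D : Data L m) (j : Fin (m + 1)) : (D.F j - D.T j).totalDegree ≤ D.d j - 1 := by
  rw [totalDegree, Finset.sup_le_iff]
  intro s hs
  rw [mem_support_iff, coeff_sub, Data.T, coeff_homogeneousComponent] at hs
  have h0 : s ∈ (D.F j).support := by
    rw [mem_support_iff]
    intro h
    apply hs
    rw [h]
    simp
  have h1 : s.degree ≤ D.d j := by
    have h2 := (le_totalDegree h0).trans (D.hF j)
    rwa [Finsupp.sum_fintype _ _ (fun _ => rfl), ← Finsupp.degree_eq_sum] at h2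
  have h2 : s.degree ≠ D.d j := by
    intro h
    apply hs
    rw [if_pos h, sub_self]
  rw [Finsupp.sum_fintype _ _ (fun _ => rfl), ← Finsupp.degree_eq_sum]
  omega

variable (w : AbsoluteValue L ℝ)

lemma gm_vp_pos (D : Data L m) {P : Fin (m + 1) → L} (h : 0 < nrm w P) : 0 < vp w D P :=
  Real.rpow_pos_of_pos h _

lemma gm_vp_pow (D : Data L m) {P : Fin (m + 1) → L} (h : 0 < nrm w P) :
    (vp w D P) ^ D.dl = (nrm w P)⁻¹ := by
  have h1 : (D.dl : ℝ) ≠ 0 := by
    have := gm_one_le_dl D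
    positivity
  rw [vp, ← Real.rpow_natCast, ← Real.rpow_mul h.le]
  have h2 : -(1 / (D.dl : ℝ)) * (D.dl : ℝ) = -1 := by
    field_simp
  rw [h2, Real.rpow_neg_one]

lemma gm_vp_le_one (D : Data L m) {P : Fin (m + 1) → L} (h : 1 ≤ nrm w P) : vp w D P ≤ 1 := by
  have h0 : 0 < nrm w P := lt_of_lt_of_le one_pos h
  have h1 : D.dl ≠ 0 := by
    have := gm_one_le_dl D
    omega
  refine (pow_le_one_iff_of_nonneg (gm_vp_pos w D h0).le h1).mp ?_
  rw [gm_vp_pow w D h0]
  exact inv_le_one_of_one_le₀ h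

/-- comparison of the small parameters -/
lemma gm_vp_le (D : Data L m) {P P' : Fin (m + 1) → L} (h : 0 < nrm w P) (h' : 0 < nrm w P')
    {c : ℝ} (hc : 1 ≤ c) (hle : nrm w P ≤ c * nrm w P') : vp w D P' ≤ c * vp w D P := by
  have h1 : D.dl ≠ 0 := by
    have := gm_one_le_dl D
    omega
  have hc0 : 0 < c := lt_of_lt_of_le one_pos hc
  refine le_of_pow_le_pow_left₀ h1 (mul_nonneg hc0.le (gm_vp_pos w D h).le) ?_
  rw [mul_pow, gm_vp_pow w D h', gm_vp_pow w D h]
  calc (nrm w P')⁻¹ ≤ c * (nrm w P)⁻¹ := by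
        rw [← div_eq_mul_inv, le_div_iff₀ h, inv_mul_le_iff₀ h']
        linarith
    _ ≤ c ^ D.dl * (nrm w P)⁻¹ := by
        refine mul_le_mul_of_nonneg_right ?_ (by positivity)
        exact le_self_pow₀ hc h1

/-- the small parameter tends to zero -/
lemma gm_vp_small (D : Data L m) {ε : ℝ} (hε : 0 < ε) : ∃ R : ℝ, 1 ≤ R ∧ ∀ P : Fin (m + 1) → L,
    R ≤ nrm w P → vp w D P ≤ ε := by
  refine ⟨max 1 (ε⁻¹ ^ D.dl), le_max_left _ _, fun P hP => ?_⟩
  have h0 : 0 < nrm w P := lt_of_lt_of_le one_pos ((le_max_left _ _).trans hP)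
  have h1 : D.dl ≠ 0 := by
    have := gm_one_le_dl D
    omega
  refine le_of_pow_le_pow_left₀ h1 hε.le ?_
  rw [gm_vp_pow w D h0, inv_le_comm₀ h0 (by positivity), ← inv_pow]
  exact (le_max_right _ _).trans hP

/-- the chart coordinates of index `≤ k` are small after one step between points of type `k` -/
lemma gm_chart_small (D : Data L m) (η : ℝ) (hη : Good w D η) (k : Fin (m + 1)) (hk : k < D.r) :
    ∃ R C : ℝ, 1 ≤ R ∧ 0 ≤ C ∧ ∀ P : Fin (m + 1) → L, Ty w η k P → Ty w η k (ev D.F P) →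
      R ≤ nrm w P → R ≤ nrm w (ev D.F P) →
      ∀ i, i ≤ k → w (chart k (ev D.F P) i) ≤ C * vp w D (ev D.F P) := by
  obtain ⟨R1, hR1, h1⟩ := one_step w D η hη
  obtain ⟨C2, hC2, h2⟩ := upper_coord w D
  obtain ⟨C3, hC3, h3⟩ := upper w D
  have hη0 := hη.1
  refine ⟨R1, C2 * C3 * (2 / η) / η + 1 / η, hR1, by positivity, fun P hP hP' hR hR' i hi => ?_⟩
  set Q := ev D.F P with hQ
  have hx1 : 1 ≤ nrm w P := hR1.trans hR
  have hy1 : 1 ≤ nrm w Q := hR1.trans hR'
  have hx0 : 0 < nrm w P := lt_of_lt_of_le one_pos hx1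
  have hy0 : 0 < nrm w Q := lt_of_lt_of_le one_pos hy1
  have hvp0 : 0 < vp w D Q := gm_vp_pos w D hy0
  have hdl : D.dl ≠ 0 := by
    have := gm_one_le_dl D
    omega
  have hQk : 0 < w (Q k) := lt_of_lt_of_le (mul_pos hη0 hy0) hP'.2
  have hstep := ((h1 P hR).1 k hk hP).2
  -- the inverse of the norm is at most the small parameter
  have hinv : (nrm w Q)⁻¹ ≤ vp w D Q := by
    rw [← gm_vp_pow w D hy0]
    exact pow_le_of_le_one hvp0.le (gm_vp_le_one w D hy1) hdl
  have hvpx : 1 ≤ C3 * nrm w P * vp w D Q := by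
    have hn : 0 ≤ C3 * nrm w P * vp w D Q := by positivity
    by_contra hcon
    push Not at hcon
    have h4 : (C3 * nrm w P * vp w D Q) ^ D.dl < 1 := pow_lt_one₀ hn hcon hdl
    rw [mul_pow, mul_pow, gm_vp_pow w D hy0, mul_inv_lt_iff₀ hy0, one_mul] at h4
    have h5 := h3 P
    rw [max_eq_right hx1] at h5
    have h6 : C3 * nrm w P ^ D.dl ≤ C3 ^ D.dl * nrm w P ^ D.dl :=
      mul_le_mul_of_nonneg_right (le_self_pow₀ hC3 hdl) (by positivity)
    exact absurd (h5.trans h6) (not_le.mpr h4)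
  rcases eq_or_lt_of_le hi with hik | hik
  · rw [hik, chart, if_pos rfl, map_inv₀]
    have h4 : (w (Q k))⁻¹ ≤ (1 / η) * (nrm w Q)⁻¹ := by
      rw [one_div, ← mul_inv]
      exact inv_anti₀ (mul_pos hη0 hy0) hP'.2
    calc (w (Q k))⁻¹ ≤ (1 / η) * (nrm w Q)⁻¹ := h4
      _ ≤ (1 / η) * vp w D Q := mul_le_mul_of_nonneg_left hinv (by positivity)
      _ ≤ (C2 * C3 * (2 / η) / η + 1 / η) * vp w D Q := by
          refine mul_le_mul_of_nonneg_right ?_ hvp0.le
          have : 0 ≤ C2 * C3 * (2 / η) / η := by positivity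
          linarith
  · rw [chart, if_neg (ne_of_lt hik), map_mul, map_inv₀, ← div_eq_mul_inv, div_le_iff₀ hQk]
    have h4 : w (Q i) ≤ C2 * nrm w P ^ (D.d k - 1) := by
      refine (h2 i P hx1).trans (mul_le_mul_of_nonneg_left ?_ (by positivity))
      refine pow_le_pow_right₀ hx1 ?_
      have := D.hlt i k hik (hik.trans hk)
      omega
    have h5 : nrm w P ^ (D.d k - 1) ≤ C3 * (2 / η) * nrm w Q * vp w D Q := by
      have h6 : nrm w P ^ D.d k ≤ (2 / η) * nrm w Q := by
        rw [div_mul_eq_mul_div, le_div_iff₀ hη0]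
        linarith
      have h7 : nrm w P ^ D.d k = nrm w P ^ (D.d k - 1) * nrm w P := by
        rw [← pow_succ, Nat.sub_add_cancel (gm_one_le_d D k)]
      calc nrm w P ^ (D.d k - 1) ≤ nrm w P ^ (D.d k - 1) * (C3 * nrm w P * vp w D Q) :=
            le_mul_of_one_le_right (by positivity) hvpx
        _ = C3 * (nrm w P ^ D.d k) * vp w D Q := by rw [h7]; ring
        _ ≤ C3 * ((2 / η) * nrm w Q) * vp w D Q := by
            refine mul_le_mul_of_nonneg_right ?_ hvp0.le
            exact mul_le_mul_of_nonneg_left h6 (by positivity)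
        _ = C3 * (2 / η) * nrm w Q * vp w D Q := by ring
    have h8 : nrm w Q ≤ w (Q k) / η := by
      rw [le_div_iff₀ hη0]
      linarith [hP'.2]
    calc w (Q i) ≤ C2 * nrm w P ^ (D.d k - 1) := h4
      _ ≤ C2 * (C3 * (2 / η) * nrm w Q * vp w D Q) :=
          mul_le_mul_of_nonneg_left h5 (by positivity)
      _ ≤ C2 * (C3 * (2 / η) * (w (Q k) / η) * vp w D Q) := by
          refine mul_le_mul_of_nonneg_left ?_ (by positivity)
          refine mul_le_mul_of_nonneg_right ?_ hvp0.le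
          exact mul_le_mul_of_nonneg_left h8 (by positivity)
      _ = (C2 * C3 * (2 / η) / η) * vp w D Q * w (Q k) := by ring
      _ ≤ (C2 * C3 * (2 / η) / η + 1 / η) * vp w D Q * w (Q k) := by
          refine mul_le_mul_of_nonneg_right ?_ hQk.le
          refine mul_le_mul_of_nonneg_right ?_ hvp0.le
          have : 0 ≤ 1 / η := by positivity
          linarith

/-- points of type `k` whose image is of type `k` and whose chart coordinates are small are close
to a base point -/
lemma gm_near (D : Data L m) (η : ℝ) (hη : Good w D η) (k : Fin (m + 1)) (hk : k < D.r)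
    (C δ : ℝ) (hC : 0 ≤ C) (hδ : 0 < δ) :
    ∃ R : ℝ, 1 ≤ R ∧ ∀ P : Fin (m + 1) → L, Ty w η k P → Ty w η k (ev D.F P) → R ≤ nrm w P →
      R ≤ nrm w (ev D.F P) → (∀ i, i ≤ k → w (chart k P i) ≤ C * vp w D P) →
      ∃ β ∈ D.B k, ∀ j, k < j → w (chart k P j - β j) ≤ δ := by
  have hη0 := hη.1
  obtain ⟨ε, hε, hnb⟩ := near_base w D η (δ * η) hη0 (by positivity)
  obtain ⟨C2, hC2, h2⟩ := upper_coord w D
  -- the lower parts
  choose C4 hC4 h4 using fun j => eval_le w (D.F j - D.T j) (D.d j - 1) (gm_low D j)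
  obtain ⟨C5, hC5⟩ : ∃ C5 : ℝ, ∀ j, C4 j ≤ C5 :=
    ⟨Finset.univ.sup' ⟨0, Finset.mem_univ _⟩ C4, fun j => Finset.le_sup' C4 (Finset.mem_univ j)⟩
  have hC50 : 0 ≤ C5 := (hC4 0).trans (hC5 0)
  obtain ⟨R1, hR1, h1⟩ := gm_vp_small w D (ε := ε / (C + 1)) (by positivity)
  refine ⟨max R1 ((C2 / η + C5) / ε), hR1.trans (le_max_left _ _),
    fun P hP hP' hR hR' hsm => ?_⟩
  have hx1 : 1 ≤ nrm w P := hR1.trans ((le_max_left _ _).trans hR)
  have hx0 : 0 < nrm w P := lt_of_lt_of_le one_pos hx1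
  have hPk : 0 < w (P k) := lt_of_lt_of_le (mul_pos hη0 hx0) hP.2
  have hPk0 : P k ≠ 0 := by
    intro h
    rw [h, map_zero] at hPk
    exact lt_irrefl _ hPk
  obtain ⟨i0, hi0⟩ := exists_nrm w P
  have hi00 : P i0 ≠ 0 := by
    intro h
    rw [h, map_zero] at hi0
    exact absurd hi0.symm hx0.ne'
  set u : Fin (m + 1) → L := fun i => P i * (P i0)⁻¹ with hu
  have hwu : ∀ i, w (u i) = w (P i) / nrm w P := by
    intro i
    rw [hu]
    show w (P i * (P i0)⁻¹) = _
    rw [map_mul, map_inv₀, hi0, div_eq_mul_inv]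
  have hPu : P = fun i => P i0 * u i := by
    funext i
    rw [hu]
    show P i = P i0 * (P i * (P i0)⁻¹)
    field_simp
  have hchart : ∀ i, w (chart k P i) = w (P i) / w (P k) ∨ i = k := by
    intro i
    by_cases hik : i = k
    · right
      exact hik
    · left
      rw [chart, if_neg hik, map_mul, map_inv₀, div_eq_mul_inv]
  have hmain := hnb k u hk ?_ ?_ ?_ ?_
  · obtain ⟨β, hβ, hβ'⟩ := hmain
    refine ⟨β, hβ, fun j hj => ?_⟩
    have huk : u k ≠ 0 := mul_ne_zero hPk0 (inv_ne_zero hi00)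
    have h5 : chart k P j - β j = (u j - β j * u k) / u k := by
      rw [chart, if_neg (ne_of_gt hj)]
      have h6 : P j * (P k)⁻¹ = u j / u k := by
        rw [hu]
        show P j * (P k)⁻¹ = (P j * (P i0)⁻¹) / (P k * (P i0)⁻¹)
        field_simp
      rw [h6]
      field_simp
    rw [h5, map_div₀, div_le_iff₀ (w.pos huk)]
    refine (hβ' j hj).trans ?_
    refine mul_le_mul_of_nonneg_left ?_ hδ.le
    rw [hwu, le_div_iff₀ hx0]
    exact hP.2
  · intro i
    rw [hwu, div_le_one hx0]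
    exact le_nrm w P i
  · rw [hwu, le_div_iff₀ hx0]
    exact hP.2
  · intro l hl
    rcases hchart l with h5 | h5
    · have h6 : w (u l) ≤ w (chart k P l) := by
        rw [h5, hwu]
        exact div_le_div_of_nonneg_left (w.nonneg _) hPk (le_nrm w P k)
      refine h6.trans ((hsm l hl.le).trans ?_)
      have h7 := h1 P ((le_max_left _ _).trans hR)
      calc C * vp w D P ≤ C * (ε / (C + 1)) := mul_le_mul_of_nonneg_left h7 hC
        _ ≤ ε := by
            rw [mul_div_assoc', div_le_iff₀ (by positivity)]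
            nlinarith
    · exact absurd h5 (ne_of_lt hl)
  · intro j hj
    have h5 : w (eval P (D.T j)) = nrm w P ^ D.d j * w (eval u (D.T j)) := by
      conv_lhs => rw [hPu]
      rw [gm_scale, map_mul, map_pow, hi0]
    have hdj : D.d j = (D.d j - 1) + 1 := (Nat.sub_add_cancel (gm_one_le_d D j)).symm
    have h6 : w (eval P (D.F j)) ≤ C2 / η * nrm w P ^ (D.d j - 1) := by
      have h7 : w (eval P (D.F j)) ≤ nrm w (ev D.F P) := le_nrm w (ev D.F P) j
      have h8 : nrm w (ev D.F P) ≤ w (ev D.F P k) / η := by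
        rw [le_div_iff₀ hη0]
        linarith [hP'.2]
      have h9 : w (ev D.F P k) ≤ C2 * nrm w P ^ (D.d j - 1) := by
        refine (h2 k P hx1).trans (mul_le_mul_of_nonneg_left ?_ (by positivity))
        refine pow_le_pow_right₀ hx1 ?_
        have := D.hlt k j hj hk
        omega
      refine h7.trans (h8.trans ?_)
      rw [div_mul_eq_mul_div]
      exact div_le_div_of_nonneg_right h9 hη0.le
    have h7 : w (eval P (D.F j - D.T j)) ≤ C5 * nrm w P ^ (D.d j - 1) := by
      refine (h4 j P).trans ?_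
      rw [max_eq_right hx1]
      exact mul_le_mul_of_nonneg_right (hC5 j) (by positivity)
    have h8 : w (eval P (D.T j)) ≤ (C2 / η + C5) * nrm w P ^ (D.d j - 1) := by
      have h9 : eval P (D.T j) = eval P (D.F j) - eval P (D.F j - D.T j) := by
        rw [map_sub]
        ring
      rw [h9, add_mul]
      exact (w.sub_le_add _ _).trans (add_le_add h6 h7)
    have h9 : w (eval u (D.T j)) ≤ (C2 / η + C5) / nrm w P := by
      rw [le_div_iff₀ hx0]
      have h10 : 0 < nrm w P ^ (D.d j - 1) := by positivity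
      refine le_of_mul_le_mul_right ?_ h10
      calc w (eval u (D.T j)) * nrm w P * nrm w P ^ (D.d j - 1)
          = nrm w P ^ D.d j * w (eval u (D.T j)) := by
            conv_rhs => rw [hdj, pow_succ]
            ring
        _ = w (eval P (D.T j)) := h5.symm
        _ ≤ _ := h8
    refine h9.trans ?_
    rw [div_le_iff₀ hx0]
    have h10 := (le_max_right R1 ((C2 / η + C5) / ε)).trans hR
    rw [div_le_iff₀ hε] at h10
    linarith

end Pool.Agent.Lib.MP_9ec2c5_gen
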