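import Mathlib
import Pool.Agent.Lib.MP_9ec2c5_gen.HomLem

/-!
The polynomial system which determines the germs of one more order.
-/

set_option autoImplicit false

namespace Pool.Agent.Lib.MP_9ec2c5_gen

open MvPolynomial

variable {L : Type} [Field L] {m : ℕ}

namespace StepPoly

theorem eval_congr {k : Fin (m + 1)} {p : MvPolynomial (Fin (m + 1)) L}
    (hp : p ∈ supported L {i : Fin (m + 1) | i ≤ k}) {y z : Fin (m + 1) → L}
    (h : ∀ i, i ≤ k → y i = z i) : eval y p = eval z p := by
  have hv : (↑p.vars : Set (Fin (m + 1))) ⊆ {i : Fin (m + 1) | i ≤ k} := mem_supported.1 hp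
  exact eval₂Hom_congr' rfl (fun i hi _ => h i (hv (Finset.mem_coe.2 hi))) rfl

theorem eval_pderiv_pow_mul {k i : Fin (m + 1)} (hi : i ≠ k) {e : ℕ} (he : e ≠ 0)
    (Q : MvPolynomial (Fin (m + 1)) L) (β : Fin (m + 1) → L) :
    eval (Function.update β k 0) (pderiv i (X k ^ e * Q)) = 0 := by
  rw [Derivation.leibniz, Derivation.leibniz_pow, pderiv_X_of_ne hi.symm, smul_zero, smul_zero,
    smul_zero, add_zero, smul_eq_mul, map_mul, map_pow, eval_X, Function.update_self,
    zero_pow he, zero_mul]

end StepPoly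

open StepPoly

theorem step_poly (D : Data L m) (k : Fin (m + 1)) (hk : k < D.r)
    (γ : Fin (m + 1) → MvPolynomial (Fin (m + 1)) L) (hγ : IsGerm k γ) :
    ∃ (Ψ : Fin (m + 1) → MvPolynomial (Fin (m + 1)) L) (A : ℕ),
      (∀ P : Fin (m + 1) → L, P k ≠ 0 → eval P (D.F k) ≠ 0 → ∀ j, k < j →
        eval (chart k P) (Ψ j)
          = (eval (chart k P) (hom k (D.d k) (D.F k))) ^ (A + 1) * ((P k)⁻¹) ^ (D.d j - D.d k)
            * (chart k (ev D.F P) j - eval (chart k (ev D.F P)) (γ j))) ∧
      ∀ β ∈ D.B k, ∀ j, k < j → eval (Function.update β k 0) (Ψ j) = 0 ∧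
        ∀ i, k < i → eval (Function.update β k 0) (pderiv i (Ψ j))
          = (eval β (D.T k)) ^ A * eval β (pderiv i (D.T j)) := by
  classical
  set Fh : Fin (m + 1) → MvPolynomial (Fin (m + 1)) L := fun i => hom k (D.d i) (D.F i) with hFh
  set A : ℕ := Finset.univ.sup fun j => (γ j).totalDegree with hA
  have hAj : ∀ j, (γ j).totalDegree ≤ A := fun j =>
    Finset.le_sup (f := fun j => (γ j).totalDegree) (Finset.mem_univ j)
  set g : Fin (m + 1) → MvPolynomial (Fin (m + 1)) L := fun i =>
    if i = k then X k ^ D.d k else if i < k then X k ^ (D.d k - D.d i) * Fh i else 0 with hg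
  have hgk : g k = X k ^ D.d k := by
    rw [hg]
    exact if_pos rfl
  have hgi : ∀ i, i < k → g i = X k ^ (D.d k - D.d i) * Fh i := by
    intro i hi
    rw [hg]
    simp only
    rw [if_neg hi.ne, if_pos hi]
  choose E hE using fun j => ratsubst (γ j) A (hAj j) g (Fh k)
  have hd : ∀ j, k < j → D.d k < D.d j := fun j hj => D.hlt k j hj hk
  refine ⟨fun j => Fh k ^ A * Fh j - X k ^ (D.d j - D.d k) * (Fh k * E j), A, ?_, ?_⟩
  · intro P hP hPk j hj
    set y := chart k P with hy
    have hyk : y k = (P k)⁻¹ := by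
      rw [hy]
      unfold chart
      rw [if_pos rfl]
    have hev : ∀ i, ev D.F P i = P k ^ D.d i * eval y (Fh i) := fun i =>
      eval_hom k (D.d i) (D.F i) (D.hF i) P hP
    have hpk : P k ^ D.d k ≠ 0 := pow_ne_zero _ hP
    have hFk : eval y (Fh k) ≠ 0 := by
      intro h0
      have := hev k
      rw [h0, mul_zero] at this
      exact hPk this
    have hγj : eval (chart k (ev D.F P)) (γ j) =
        eval (fun i => eval y (g i) / eval y (Fh k)) (γ j) := by
      refine eval_congr (hγ.2 j hj) fun i hi => ?_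
      unfold chart
      rcases hi.lt_or_eq with hlt | rfl
      · have hdi : D.d i < D.d k := D.hlt i k hlt (hlt.trans hk)
        rw [if_neg hlt.ne, hgi i hlt, map_mul, map_pow, eval_X, hyk, hev i, hev k]
        have e1 : P k ^ D.d k = P k ^ D.d i * P k ^ (D.d k - D.d i) := by
          rw [← pow_add]
          congr 1
          omega
        have e2 : P k ^ D.d i ≠ 0 := pow_ne_zero _ hP
        have e3 : P k ^ (D.d k - D.d i) ≠ 0 := pow_ne_zero _ hP
        rw [e1, inv_pow]
        field_simp
      · rw [if_pos rfl, hgk, map_pow, eval_X, hyk, hev i]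
        rw [inv_pow]
        field_simp
    have hcj : chart k (ev D.F P) j = P k ^ (D.d j - D.d k) * eval y (Fh j) / eval y (Fh k) := by
      unfold chart
      rw [if_neg hj.ne', hev j, hev k]
      have e1 : P k ^ D.d j = P k ^ D.d k * P k ^ (D.d j - D.d k) := by
        rw [← pow_add]
        congr 1
        have := hd j hj
        omega
      rw [e1]
      field_simp
    simp only
    change _ = eval y (Fh k) ^ (A + 1) * _ * _
    rw [map_sub, map_mul, map_mul, map_mul, map_pow, map_pow, eval_X, hyk, hE j y hFk, hγj, hcj,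
      mul_sub]
    congr 1
    · have e3 : P k ^ (D.d j - D.d k) ≠ 0 := pow_ne_zero _ hP
      rw [inv_pow, pow_succ]
      field_simp
    · rw [pow_succ]
      ring
  · intro β hβ j hj
    obtain ⟨b1, b2, b3, b4, b5⟩ := D.base k β hβ
    have he : D.d j - D.d k ≠ 0 := by
      have := hd j hj
      omega
    have hz : ∀ i, eval (Function.update β k 0) (Fh i) = eval β (D.T i) := fun i =>
      eval_hom_infty k (D.d i) (D.F i) (D.hF i) β b2
    have hzj : eval (Function.update β k 0) (Fh j) = 0 := by
      rw [hz j]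
      exact b3 j hj
    refine ⟨?_, fun i hi => ?_⟩
    · rw [map_sub, map_mul, map_mul, hzj, mul_zero, map_pow, eval_X, Function.update_self,
        zero_pow he, zero_mul, sub_zero]
    · rw [map_sub, map_sub, eval_pderiv_pow_mul hi.ne' he, sub_zero, Derivation.leibniz, map_add,
        smul_eq_mul, smul_eq_mul, map_mul, map_mul, hzj, zero_mul, add_zero, map_pow, hz k]
      congr 1
      exact pderiv_hom_infty k (D.d j) (D.F j) (D.hF j) β b2 i hi.ne'

end Pool.Agent.Lib.MP_9ec2c5_gen
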