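import Mathlib
import Pool.Agent.Lib.MP_9ec2c5_gen.StepPoly
import Pool.Agent.Lib.MP_9ec2c5_gen.Hensel
import Pool.Agent.Lib.MP_9ec2c5_gen.Close
import Pool.Agent.Lib.MP_9ec2c5_gen.Local

/-!
Points of stable type are close to finitely many germs, to any order.
-/

set_option autoImplicit false

namespace Pool.Agent.Lib.MP_9ec2c5_gen

open MvPolynomial Filter Topology

variable {L : Type} [Field L] {m : ℕ}

/-- the values of the homogenised coordinates on bounded sets -/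
lemma gm_hom_bounded (D : Data L m) (k : Fin (m + 1)) (w : AbsoluteValue L ℝ) (B : ℝ) :
    ∃ C : ℝ, 0 ≤ C ∧ ∀ y : Fin (m + 1) → L, (∀ i, w (y i) ≤ B) →
      w (eval y (hom k (D.d k) (D.F k))) ≤ C :=
  eval_bounded w _ B

/-- all the chart coordinates of a point of type `k` and norm at least one are bounded -/
lemma gm_chart_le (w : AbsoluteValue L ℝ) {η : ℝ} (hη0 : 0 < η)
    {k : Fin (m + 1)} {P : Fin (m + 1) → L} (hP : Ty w η k P) (h1 : 1 ≤ nrm w P) (i : Fin (m + 1)) :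
    w (chart k P i) ≤ 1 / η := by
  have hx0 : 0 < nrm w P := lt_of_lt_of_le one_pos h1
  have hPk : 0 < w (P k) := lt_of_lt_of_le (mul_pos hη0 hx0) hP.2
  by_cases hik : i = k
  · rw [chart, if_pos hik, map_inv₀, one_div]
    refine inv_anti₀ hη0 ?_
    nlinarith [hP.2]
  · rw [chart, if_neg hik, map_mul, map_inv₀, ← div_eq_mul_inv, div_le_iff₀ hPk, one_div,
      inv_mul_eq_div, le_div_iff₀ hη0]
    have := le_nrm w P i
    nlinarith [hP.2]

/-- one step of the construction of the germs: for one germ `γ` of order `q` and one base point -/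
lemma gm_step (D : Data L m) (k : Fin (m + 1)) (hk : k < D.r) (q : ℕ)
    (γ : Fin (m + 1) → MvPolynomial (Fin (m + 1)) L) (hγ : IsGerm k γ)
    (β : Fin (m + 1) → L) (hβ : β ∈ D.B k) :
    ∃ γ' : Fin (m + 1) → MvPolynomial (Fin (m + 1)) L, IsGerm k γ' ∧
      ∀ (w : AbsoluteValue L ℝ) (η : ℝ), Good w D η → ∀ C0 : ℝ, 0 ≤ C0 → ∃ R δ C : ℝ, 1 ≤ R ∧
        0 < δ ∧ 0 ≤ C ∧
        ∀ P : Fin (m + 1) → L, Ty w η k P → Ty w η k (ev D.F P) → R ≤ nrm w P →
          R ≤ nrm w (ev D.F P) →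
          (∀ i, i ≤ k → w (chart k P i) ≤ C0 * vp w D P) →
          (∀ j, k < j → w (chart k P j - β j) ≤ δ) →
          (∀ j, k < j → w (chart k (ev D.F P) j - eval (chart k (ev D.F P)) (γ j))
              ≤ C0 * (vp w D (ev D.F P)) ^ q) →
          ∀ j, k < j → w (chart k P j - eval (chart k P) (γ' j)) ≤ C * (vp w D P) ^ (q + 1) := by
  obtain ⟨Ψ, A, hΨ1, hΨ2⟩ := step_poly D k hk γ hγ
  obtain ⟨hb1, hb2, hb3, hb4, hb5⟩ := D.base k β hβ
  have hbz : ∀ i, i ≤ k → Function.update β k 0 i = 0 := by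
    intro i hi
    rcases eq_or_lt_of_le hi with h | h
    · rw [h, Function.update_self]
    · rw [Function.update_of_ne (ne_of_lt h), hb1 i h]
  have hdet : (Matrix.of fun i j : {i : Fin (m + 1) // k < i} =>
      eval (Function.update β k 0) (pderiv (i : Fin (m + 1)) (Ψ j))).det ≠ 0 := by
    have h1 : (Matrix.of fun i j : {i : Fin (m + 1) // k < i} =>
        eval (Function.update β k 0) (pderiv (i : Fin (m + 1)) (Ψ j)))
        = (eval β (D.T k)) ^ A • (Matrix.of fun i j : {i : Fin (m + 1) // k < i} =>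
          eval β (pderiv (i : Fin (m + 1)) (homogeneousComponent (D.d j) (D.F j)))) := by
      ext i j
      rw [Matrix.of_apply, Matrix.smul_apply, Matrix.of_apply, smul_eq_mul]
      exact (hΨ2 β hβ j j.2).2 i i.2
    rw [h1, Matrix.det_smul]
    exact mul_ne_zero (pow_ne_zero _ (pow_ne_zero _ hb4)) hb5
  obtain ⟨γ', hγ', hγ'0, hγ'1⟩ := hensel k Ψ (Function.update β k 0) hbz
    (fun j hj => (hΨ2 β hβ j hj).1) hdet (q + 1)
  refine ⟨γ', hγ', fun w η hη C0 hC0 => ?_⟩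
  have hη0 := hη.1
  obtain ⟨δ, C1, hδ, hC1, hclose⟩ := close w k Ψ (Function.update β k 0) hbz hdet (q + 1) γ' hγ'
    hγ'0 hγ'1
  obtain ⟨R1, hR1, h1⟩ := gm_vp_small w D (ε := δ / (C0 + 1)) (by positivity)
  obtain ⟨R2, hR2, h2⟩ := one_step w D η hη
  obtain ⟨C3, hC3, h3⟩ := gm_hom_bounded D k w (1 / η)
  have hη1 := hη.2.1
  have h2η : 1 ≤ 2 / η := by
    rw [le_div_iff₀ hη0]
    linarith
  set C4 : ℝ := C3 ^ (A + 1) * (1 / η) * (C0 * (2 / η) ^ q) with hC4
  have hC40 : 0 ≤ C4 := by positivity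
  refine ⟨max (max R1 R2) (1 / η), δ, C1 * (C4 + C0 ^ (q + 1)),
    hR1.trans ((le_max_left _ _).trans (le_max_left _ _)), hδ, by positivity,
    fun P hP hP' hRη hRη' hsm hnear hclo j hj => ?_⟩
  have hR : max R1 R2 ≤ nrm w P := (le_max_left _ _).trans hRη
  have hR' : max R1 R2 ≤ nrm w (ev D.F P) := (le_max_left _ _).trans hRη'
  set Q := ev D.F P with hQ
  have hx1 : 1 ≤ nrm w P := hR1.trans ((le_max_left _ _).trans hR)
  have hy1 : 1 ≤ nrm w Q := hR1.trans ((le_max_left _ _).trans hR')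
  have hx0 : 0 < nrm w P := lt_of_lt_of_le one_pos hx1
  have hy0 : 0 < nrm w Q := lt_of_lt_of_le one_pos hy1
  have hv0 : 0 < vp w D P := gm_vp_pos w D hx0
  have hv0' : 0 < vp w D Q := gm_vp_pos w D hy0
  have hv1 : vp w D P ≤ 1 := gm_vp_le_one w D hx1
  have hPk : 0 < w (P k) := lt_of_lt_of_le (mul_pos hη0 hx0) hP.2
  have hQk : 0 < w (Q k) := lt_of_lt_of_le (mul_pos hη0 hy0) hP'.2
  have hPk0 : P k ≠ 0 := by
    intro h
    rw [h, map_zero] at hPk
    exact lt_irrefl _ hPk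
  have hQk0 : eval P (D.F k) ≠ 0 := by
    intro h
    have h5 : Q k = 0 := h
    rw [h5, map_zero] at hQk
    exact lt_irrefl _ hQk
  -- the norm does not decrease much
  have hstep : η / 2 * nrm w P ≤ nrm w Q := by
    refine le_trans ?_ ((h2 P ((le_max_right _ _).trans hR)).1 k hk hP).2
    refine mul_le_mul_of_nonneg_left ?_ (by positivity)
    have hdk : D.d k ≠ 0 := by
      have := gm_one_le_d D k
      omega
    exact le_self_pow₀ hx1 hdk
  have hvle : vp w D Q ≤ 2 / η * vp w D P := by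
    refine gm_vp_le w D hx0 hy0 h2η ?_
    rw [div_mul_eq_mul_div, le_div_iff₀ hη0]
    linarith
  -- the polynomials `Ψ` are small
  have hΨs : ∀ j, k < j → w (eval (chart k P) (Ψ j)) ≤ C4 * (vp w D P) ^ (q + 1) := by
    intro j hj
    rw [hΨ1 P hPk0 hQk0 j hj, map_mul, map_mul, map_pow, map_pow, map_inv₀]
    have h5 : w (eval (chart k P) (hom k (D.d k) (D.F k))) ^ (A + 1) ≤ C3 ^ (A + 1) :=
      pow_le_pow_left₀ (w.nonneg _) (h3 _ fun i => gm_chart_le w hη0 hP hx1 i) _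
    have h6 : ((w (P k))⁻¹) ^ (D.d j - D.d k) ≤ (1 / η) * vp w D P := by
      have h7 : (w (P k))⁻¹ ≤ (1 / η) * (nrm w P)⁻¹ := by
        rw [one_div, ← mul_inv]
        exact inv_anti₀ (mul_pos hη0 hx0) hP.2
      have h8 : (nrm w P)⁻¹ ≤ vp w D P := by
        rw [← gm_vp_pow w D hx0]
        refine pow_le_of_le_one hv0.le hv1 ?_
        have := gm_one_le_dl D
        omega
      have h9 : (w (P k))⁻¹ ≤ 1 := by
        have hbig : 1 ≤ w (P k) := by
          have hR3 : 1 / η ≤ nrm w P := (le_max_right _ _).trans hRη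
          rw [div_le_iff₀ hη0] at hR3
          linarith [hP.2]
        exact inv_le_one_of_one_le₀ hbig
      have h10 : D.d j - D.d k ≠ 0 := by
        have := D.hlt k j hj hk
        omega
      calc ((w (P k))⁻¹) ^ (D.d j - D.d k) ≤ (w (P k))⁻¹ :=
            pow_le_of_le_one (by positivity) h9 h10
        _ ≤ (1 / η) * (nrm w P)⁻¹ := h7
        _ ≤ (1 / η) * vp w D P := mul_le_mul_of_nonneg_left h8 (by positivity)
    have h7 : w (chart k Q j - eval (chart k Q) (γ j)) ≤ C0 * (2 / η) ^ q * (vp w D P) ^ q := by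
      refine (hclo j hj).trans ?_
      rw [mul_assoc, ← mul_pow]
      exact mul_le_mul_of_nonneg_left (pow_le_pow_left₀ hv0'.le hvle q) hC0
    calc w (eval (chart k P) (hom k (D.d k) (D.F k))) ^ (A + 1)
          * ((w (P k))⁻¹) ^ (D.d j - D.d k) * w (chart k Q j - eval (chart k Q) (γ j))
        ≤ C3 ^ (A + 1) * ((1 / η) * vp w D P) * (C0 * (2 / η) ^ q * (vp w D P) ^ q) := by
          refine mul_le_mul (mul_le_mul h5 h6 (by positivity) (by positivity)) h7 (w.nonneg _)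
            (by positivity)
      _ = C4 * (vp w D P) ^ (q + 1) := by
          rw [hC4, pow_succ]
          ring
  have hnear' : ∀ j, k < j → w (chart k P j - Function.update β k 0 j) ≤ δ := by
    intro j hj
    rw [Function.update_of_ne (ne_of_gt hj)]
    exact hnear j hj
  have hr : C0 * vp w D P ≤ δ := by
    have h7 := h1 P ((le_max_left _ _).trans hR)
    calc C0 * vp w D P ≤ C0 * (δ / (C0 + 1)) := mul_le_mul_of_nonneg_left h7 hC0
      _ ≤ δ := by
          rw [mul_div_assoc', div_le_iff₀ (by positivity)]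
          nlinarith
  have hfin := hclose (chart k P) (C0 * vp w D P) (C4 * (vp w D P) ^ (q + 1)) (by positivity) hr
    hsm hnear' hΨs j hj
  refine hfin.trans (le_of_eq ?_)
  rw [mul_pow]
  ring

theorem germs (D : Data L m) (k : Fin (m + 1)) (hk : k < D.r) (q : ℕ) :
    ∃ G : Set (Fin (m + 1) → MvPolynomial (Fin (m + 1)) L), G.Finite ∧ (∀ γ ∈ G, IsGerm k γ) ∧
      ∀ (w : AbsoluteValue L ℝ) (η : ℝ), Good w D η → ∃ R C : ℝ, 1 ≤ R ∧ 0 ≤ C ∧
        ∀ P : ℕ → Fin (m + 1) → L, (∀ n, P (n + 1) = ev D.F (P n)) →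
          (∀ n, n ≤ q + 1 → Ty w η k (P n) ∧ R ≤ nrm w (P n)) →
          ∃ γ ∈ G, (∀ i, i ≤ k → w (chart k (P 1) i) ≤ C * vp w D (P 1)) ∧
            ∀ j, k < j → w (chart k (P 1) j - eval (chart k (P 1)) (γ j))
              ≤ C * (vp w D (P 1)) ^ q := by
  classical
  induction q with
  | zero =>
    refine ⟨{fun i => if i ≤ k then X i else 0}, Set.finite_singleton _, ?_, ?_⟩
    · intro γ hγ
      rw [Set.mem_singleton_iff] at hγ
      subst hγ
      refine ⟨fun i hi => by simp [hi], fun j hj => ?_⟩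
      have h1 : ¬ j ≤ k := not_le.mpr hj
      simp only [h1, if_false]
      exact Subalgebra.zero_mem _
    · intro w η hη
      obtain ⟨R, C, hR, hC, h⟩ := gm_chart_small w D η hη k hk
      have hη0 := hη.1
      refine ⟨R, C + 1 / η, hR, by positivity, fun P hP hty => ?_⟩
      have h1P : P 1 = ev D.F (P 0) := hP 0
      have ht0 := hty 0 (by omega)
      have ht1 := hty 1 (by omega)
      have hx1 : 1 ≤ nrm w (P 1) := hR.trans ht1.2
      have hv0 : 0 < vp w D (P 1) := gm_vp_pos w D (lt_of_lt_of_le one_pos hx1)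
      refine ⟨_, Set.mem_singleton _, fun i hi => ?_, fun j hj => ?_⟩
      · have h5 := h (P 0) ht0.1 (h1P ▸ ht1.1) ht0.2 (h1P ▸ ht1.2) i hi
        rw [← h1P] at h5
        refine h5.trans ?_
        refine mul_le_mul_of_nonneg_right ?_ hv0.le
        have : 0 < 1 / η := by positivity
        linarith
      · have h1 : ¬ j ≤ k := not_le.mpr hj
        simp only [h1, if_false, map_zero, sub_zero, pow_zero, mul_one]
        refine (gm_chart_le w hη0 ht1.1 hx1 j).trans ?_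
        linarith
  | succ q ih =>
    obtain ⟨G, hG, hGg, hGw⟩ := ih
    have hex : ∀ γβ : (Fin (m + 1) → MvPolynomial (Fin (m + 1)) L) × (Fin (m + 1) → L),
        ∃ γ' : Fin (m + 1) → MvPolynomial (Fin (m + 1)) L, γβ.1 ∈ G → γβ.2 ∈ D.B k →
          (IsGerm k γ' ∧
      ∀ (w : AbsoluteValue L ℝ) (η : ℝ), Good w D η → ∀ C0 : ℝ, 0 ≤ C0 → ∃ R δ C : ℝ, 1 ≤ R ∧
        0 < δ ∧ 0 ≤ C ∧
        ∀ P : Fin (m + 1) → L, Ty w η k P → Ty w η k (ev D.F P) → R ≤ nrm w P →
          R ≤ nrm w (ev D.F P) →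
          (∀ i, i ≤ k → w (chart k P i) ≤ C0 * vp w D P) →
          (∀ j, k < j → w (chart k P j - γβ.2 j) ≤ δ) →
          (∀ j, k < j → w (chart k (ev D.F P) j - eval (chart k (ev D.F P)) (γβ.1 j))
              ≤ C0 * (vp w D (ev D.F P)) ^ q) →
          ∀ j, k < j → w (chart k P j - eval (chart k P) (γ' j)) ≤ C * (vp w D P) ^ (q + 1)) := by
      intro γβ
      by_cases h1 : γβ.1 ∈ G ∧ γβ.2 ∈ D.B k
      · obtain ⟨γ', h2⟩ := gm_step D k hk q γβ.1 (hGg _ h1.1) γβ.2 h1.2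
        exact ⟨γ', fun _ _ => h2⟩
      · exact ⟨0, fun h2 h3 => absurd ⟨h2, h3⟩ h1⟩
    choose Φ hΦ using hex
    refine ⟨Φ '' (G ×ˢ (D.B k : Set (Fin (m + 1) → L))), (hG.prod (D.B k).finite_toSet).image _,
      ?_, ?_⟩
    · rintro _ ⟨γβ, ⟨h1, h2⟩, rfl⟩
      exact (hΦ γβ h1 (Finset.mem_coe.mp h2)).1
    · intro w η hη
      obtain ⟨R1, C1, hR1, hC1, hw1⟩ := hGw w η hη
      obtain ⟨R2, C2, hR2, hC2, hw2⟩ := gm_chart_small w D η hη k hk
      -- the constants of the steps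
      have hex2 : ∀ γβ : (Fin (m + 1) → MvPolynomial (Fin (m + 1)) L) × (Fin (m + 1) → L),
          ∃ R δ C : ℝ, 1 ≤ R ∧ 0 < δ ∧ 0 ≤ C ∧ (γβ.1 ∈ G → γβ.2 ∈ D.B k →
        ∀ P : Fin (m + 1) → L, Ty w η k P → Ty w η k (ev D.F P) → R ≤ nrm w P →
          R ≤ nrm w (ev D.F P) →
          (∀ i, i ≤ k → w (chart k P i) ≤ (C1 + C2) * vp w D P) →
          (∀ j, k < j → w (chart k P j - γβ.2 j) ≤ δ) →
          (∀ j, k < j → w (chart k (ev D.F P) j - eval (chart k (ev D.F P)) (γβ.1 j))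
              ≤ (C1 + C2) * (vp w D (ev D.F P)) ^ q) →
          ∀ j, k < j → w (chart k P j - eval (chart k P) (Φ γβ j))
            ≤ C * (vp w D P) ^ (q + 1)) := by
        intro γβ
        by_cases h1 : γβ.1 ∈ G ∧ γβ.2 ∈ D.B k
        · obtain ⟨R, δ, C, h3, h4, h5, h6⟩ := (hΦ γβ h1.1 h1.2).2 w η hη (C1 + C2) (by positivity)
          exact ⟨R, δ, C, h3, h4, h5, fun _ _ => h6⟩
        · exact ⟨1, 1, 0, le_refl _, one_pos, le_refl _, fun h2 h3 => absurd ⟨h2, h3⟩ h1⟩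
      choose Rs δs Cs hRs hδs hCs hstep using hex2
      set T : Finset ((Fin (m + 1) → MvPolynomial (Fin (m + 1)) L) × (Fin (m + 1) → L)) :=
        hG.toFinset ×ˢ D.B k with hT
      obtain ⟨R3, hR3⟩ : ∃ R3 : ℝ, ∀ t ∈ T, Rs t ≤ R3 := by
        refine ⟨∑ t ∈ T, Rs t, fun t ht => ?_⟩
        exact Finset.single_le_sum (f := Rs) (fun s _ => le_trans zero_le_one (hRs s)) ht
      obtain ⟨C3, hC30, hC3⟩ : ∃ C3 : ℝ, 0 ≤ C3 ∧ ∀ t ∈ T, Cs t ≤ C3 := by
        refine ⟨∑ t ∈ T, Cs t, Finset.sum_nonneg fun s _ => hCs s, fun t ht => ?_⟩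
        exact Finset.single_le_sum (f := Cs) (fun s _ => hCs s) ht
      obtain ⟨δ3, hδ30, hδ3⟩ : ∃ δ3 : ℝ, 0 < δ3 ∧ ∀ t ∈ T, δ3 ≤ δs t := by
        by_cases hne : T.Nonempty
        · refine ⟨T.inf' hne δs, ?_, fun t ht => Finset.inf'_le _ ht⟩
          rw [Finset.lt_inf'_iff]
          exact fun t _ => hδs t
        · rw [Finset.not_nonempty_iff_eq_empty] at hne
          exact ⟨1, one_pos, fun t ht => by rw [hne] at ht; exact absurd ht (Finset.notMem_empty t)⟩
      obtain ⟨R4, hR4, hw4⟩ := gm_near w D η hη k hk C2 δ3 hC2 hδ30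
      refine ⟨max (max R1 R2) (max R3 R4), C2 + C3, hR1.trans ((le_max_left _ _).trans
        (le_max_left _ _)), by positivity, fun P hP hty => ?_⟩
      have hRR1 : R1 ≤ max (max R1 R2) (max R3 R4) := (le_max_left _ _).trans (le_max_left _ _)
      have hRR2 : R2 ≤ max (max R1 R2) (max R3 R4) := (le_max_right _ _).trans (le_max_left _ _)
      have hRR3 : R3 ≤ max (max R1 R2) (max R3 R4) := (le_max_left _ _).trans (le_max_right _ _)
      have hRR4 : R4 ≤ max (max R1 R2) (max R3 R4) := (le_max_right _ _).trans (le_max_right _ _)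
      have ht0 := hty 0 (by omega)
      have ht1 := hty 1 (by omega)
      have ht2 := hty 2 (by omega)
      have h1P : P 1 = ev D.F (P 0) := hP 0
      have h2P : P 2 = ev D.F (P 1) := hP 1
      have hx1 : 1 ≤ nrm w (P 1) := hR1.trans (hRR1.trans ht1.2)
      have hy1 : 1 ≤ nrm w (P 2) := hR1.trans (hRR1.trans ht2.2)
      have hv0 : 0 < vp w D (P 1) := gm_vp_pos w D (lt_of_lt_of_le one_pos hx1)
      have hv0' : 0 < vp w D (P 2) := gm_vp_pos w D (lt_of_lt_of_le one_pos hy1)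
      -- the germ at the next point
      obtain ⟨γ, hγ, hγ1, hγ2⟩ := hw1 (fun n => P (n + 1)) (fun n => hP (n + 1))
        (fun n hn => ⟨(hty (n + 1) (by omega)).1, hRR1.trans (hty (n + 1) (by omega)).2⟩)
      -- the chart coordinates are small
      have hsm : ∀ i, i ≤ k → w (chart k (P 1) i) ≤ C2 * vp w D (P 1) := by
        intro i hi
        have h5 := hw2 (P 0) ht0.1 (h1P ▸ ht1.1) (hRR2.trans ht0.2) (h1P ▸ (hRR2.trans ht1.2)) i hi
        rwa [← h1P] at h5
      -- the base point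
      obtain ⟨β, hβ, hβ'⟩ := hw4 (P 1) ht1.1 (h2P ▸ ht2.1) (hRR4.trans ht1.2)
        (h2P ▸ (hRR4.trans ht2.2)) hsm
      have hmem : (γ, β) ∈ T := by
        rw [hT, Finset.mem_product]
        exact ⟨hG.mem_toFinset.mpr hγ, hβ⟩
      refine ⟨Φ (γ, β), ⟨(γ, β), ⟨hγ, Finset.mem_coe.mpr hβ⟩, rfl⟩, fun i hi => ?_, fun j hj => ?_⟩
      · refine (hsm i hi).trans (mul_le_mul_of_nonneg_right ?_ hv0.le)
        linarith
      · have h6 := hstep (γ, β) hγ hβ (P 1) ht1.1 (h2P ▸ ht2.1)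
          ((hR3 _ hmem).trans (hRR3.trans ht1.2)) (h2P ▸ ((hR3 _ hmem).trans (hRR3.trans ht2.2)))
          (fun i hi => (hsm i hi).trans (mul_le_mul_of_nonneg_right (by linarith) hv0.le))
          (fun j hj => (hβ' j hj).trans (hδ3 _ hmem))
          (fun j hj => by
            rw [← h2P]
            refine (hγ2 j hj).trans (mul_le_mul_of_nonneg_right (by linarith) ?_)
            exact pow_nonneg hv0'.le _) j hj
        refine h6.trans (mul_le_mul_of_nonneg_right ?_ (by positivity))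
        have := hC3 _ hmem
        linarith

end Pool.Agent.Lib.MP_9ec2c5_gen
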