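import Mathlib
import Pool.Agent.Lib.MP_9ec2c5_gen.Germs
import Pool.Agent.Lib.MP_9ec2c5_gen.Est

/-!
Local part of the vanishing theorem: size of the auxiliary polynomials along an orbit at one place.
-/

set_option autoImplicit false

namespace Pool.Agent.Lib.MP_9ec2c5_gen

open MvPolynomial Filter Topology

variable {L : Type} [Field L] {m : ℕ}

/-- the property of the finite sets of germs given by `germs` -/
def GermSet (D : Data L m) (k : Fin (m + 1)) (q : ℕ)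
    (G : Set (Fin (m + 1) → MvPolynomial (Fin (m + 1)) L)) : Prop :=
  G.Finite ∧ (∀ γ ∈ G, IsGerm k γ) ∧
      ∀ (w : AbsoluteValue L ℝ) (η : ℝ), Good w D η → ∃ R C : ℝ, 1 ≤ R ∧ 0 ≤ C ∧
        ∀ P : ℕ → Fin (m + 1) → L, (∀ n, P (n + 1) = ev D.F (P n)) →
          (∀ n, n ≤ q + 1 → Ty w η k (P n) ∧ R ≤ nrm w (P n)) →
          ∃ γ ∈ G, (∀ i, i ≤ k → w (chart k (P 1) i) ≤ C * vp w D (P 1)) ∧
            ∀ j, k < j → w (chart k (P 1) j - eval (chart k (P 1)) (γ j))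
              ≤ C * (vp w D (P 1)) ^ q

/-- the size of the auxiliary polynomials at one place -/
theorem glob_local (w : AbsoluteValue L ℝ) (D : Data L m) (hdl : 2 ≤ D.dl)
    (P : ℕ → Fin (m + 1) → L) (hP : ∀ n, P (n + 1) = ev D.F (P n))
    (hslow : ¬ ∃ c : ℝ, 0 < c ∧ ∀ᶠ n in atTop, c * (D.dl : ℝ) ^ n ≤ Real.log (nrm w (P n)))
    (D0 : ℕ) (G : Fin (m + 1) → Set (Fin (m + 1) → MvPolynomial (Fin (m + 1)) L))
    (hG : ∀ k, k < D.r → GermSet D k ((D0 + 1) * D.dl) (G k))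
    (Vs : Finset (Finset (Fin (m + 1) × (Fin (m + 1) → MvPolynomial (Fin (m + 1)) L))))
    (R : Finset (Fin (m + 1) × (Fin (m + 1) → MvPolynomial (Fin (m + 1)) L)) →
      MvPolynomial (Fin (m + 1)) L)
    (hRd : ∀ V ∈ Vs, (R V).totalDegree ≤ D0)
    (hRo : ∀ V ∈ Vs, ∀ g ∈ V, Ord ((D0 + 1) * D.dl) (bind₁ g.2 (hom g.1 D0 (R V)))) :
    ∃ (C : ℝ) (n1 : ℕ), 0 ≤ C ∧ ∀ n, n1 ≤ n →
      ∃ o : Option (Fin (m + 1) × (Fin (m + 1) → MvPolynomial (Fin (m + 1)) L)),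
        (∀ g, o = some g → g.1 < D.r ∧ g.2 ∈ G g.1) ∧
        ∀ V ∈ Vs, (∀ g, o = some g → g ∈ V) →
          w (eval (P n) (R V)) * max 1 (nrm w (P n)) ≤ C := by
  classical
  obtain ⟨η, hη⟩ := exists_good w D
  have hη0 := hη.1
  obtain ⟨k, hk⟩ := window w D η hη hdl P hP hslow ((D0 + 1) * D.dl)
  -- the bound for points of bounded norm
  have hsmall : ∀ B : ℝ, ∃ C : ℝ, 0 ≤ C ∧ ∀ V ∈ Vs, ∀ x : Fin (m + 1) → L, nrm w x ≤ B →
      w (eval x (R V)) * max 1 (nrm w x) ≤ C := by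
    intro B
    choose C1 hC1 h1 using fun V => eval_le w (R V) (R V).totalDegree (le_refl _)
    refine ⟨∑ V ∈ Vs, C1 V * (max 1 B) ^ (R V).totalDegree * max 1 B,
      Finset.sum_nonneg fun V _ => ?_, fun V hV x hx => ?_⟩
    · have := hC1 V
      positivity
    · have h2 : w (eval x (R V)) * max 1 (nrm w x)
          ≤ C1 V * (max 1 B) ^ (R V).totalDegree * max 1 B := by
        have h3 : max 1 (nrm w x) ≤ max 1 B := max_le_max (le_refl _) hx
        have h4 : (0 : ℝ) ≤ max 1 (nrm w x) := le_trans zero_le_one (le_max_left _ _)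
        have h5 := hC1 V
        refine mul_le_mul ((h1 V x).trans ?_) h3 h4 (by positivity)
        exact mul_le_mul_of_nonneg_left (pow_le_pow_left₀ h4 h3 _) h5
      refine h2.trans ?_
      refine Finset.single_le_sum (f := fun V => C1 V * (max 1 B) ^ (R V).totalDegree * max 1 B)
        (fun V _ => ?_) hV
      have := hC1 V
      positivity
  by_cases hkr : k < D.r
  · obtain ⟨hGf, hGg, hGw⟩ := hG k hkr
    obtain ⟨R1, C1, hR1, hC1, hg⟩ := hGw w η hη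
    obtain ⟨R2, n0, h2⟩ := hk R1
    obtain ⟨C2, hC2, h3⟩ := hsmall R2
    -- the estimates for the germs
    have hex : ∀ t : Finset (Fin (m + 1) × (Fin (m + 1) → MvPolynomial (Fin (m + 1)) L)) ×
        (Fin (m + 1) → MvPolynomial (Fin (m + 1)) L), ∃ C' : ℝ, 0 ≤ C' ∧
        (t.1 ∈ Vs → t.2 ∈ G k → (k, t.2) ∈ t.1 → ∀ P : Fin (m + 1) → L, Ty w η k P →
          1 ≤ nrm w P → (∀ i, i ≤ k → w (chart k P i) ≤ C1 * vp w D P) →
      (∀ j, k < j → w (chart k P j - eval (chart k P) (t.2 j))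
        ≤ C1 * (vp w D P) ^ ((D0 + 1) * D.dl)) →
      w (eval P (R t.1)) * nrm w P ≤ C') := by
      intro t
      by_cases ht : t.1 ∈ Vs ∧ t.2 ∈ G k ∧ (k, t.2) ∈ t.1
      · have h5 : Ord ((D0 + 1) * D.dl) (bind₁ t.2 (hom k D0 (R t.1))) :=
          hRo t.1 ht.1 (k, t.2) ht.2.2
        obtain ⟨C', hC', h4⟩ := est w D η hη0 hη.2.1 k t.2 (hGg t.2 ht.2.1) (R t.1) D0
          (hRd t.1 ht.1) h5 C1 hC1
        exact ⟨C', hC', fun _ _ _ => h4⟩
      · exact ⟨0, le_refl _, fun h5 h6 h7 => absurd ⟨h5, h6, h7⟩ ht⟩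
    choose C3 hC3 h4 using hex
    set C4 : ℝ := ∑ t ∈ Vs ×ˢ hGf.toFinset, C3 t with hC4
    have hC40 : 0 ≤ C4 := Finset.sum_nonneg fun t _ => hC3 t
    refine ⟨C2 + C4, n0 + 1, by positivity, fun n hn => ?_⟩
    obtain ⟨n', rfl⟩ : ∃ n', n = n' + 1 := ⟨n - 1, by omega⟩
    by_cases hbig : R2 ≤ nrm w (P (n' + 1))
    · obtain ⟨-, h5⟩ := h2 n' (by omega) hbig
      obtain ⟨γ, hγ, h6, h7⟩ := hg (fun i => P (n' + i)) (fun i => hP (n' + i))
        (fun i hi => h5 i hi)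
      refine ⟨some (k, γ), ?_, fun V hV hgV => ?_⟩
      · intro g hgg
        rw [Option.some.injEq] at hgg
        subst hgg
        exact ⟨hkr, hγ⟩
      · have h8 := h5 1 (by omega)
        have h9 : 1 ≤ nrm w (P (n' + 1)) := hR1.trans h8.2
        have h10 := h4 (V, γ) hV hγ (hgV _ rfl) (P (n' + 1)) h8.1 h9 h6 h7
        rw [max_eq_right h9]
        refine h10.trans ?_
        have h11 : C3 (V, γ) ≤ C4 := by
          refine Finset.single_le_sum (f := C3) (fun t _ => hC3 t) ?_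
          rw [Finset.mem_product]
          exact ⟨hV, hGf.mem_toFinset.mpr hγ⟩
        linarith
    · push Not at hbig
      refine ⟨none, fun g hgg => (by simp at hgg), fun V hV _ => ?_⟩
      have := h3 V hV (P (n' + 1)) hbig.le
      linarith
  · obtain ⟨R2, n0, h2⟩ := hk 1
    obtain ⟨C2, hC2, h3⟩ := hsmall R2
    refine ⟨C2, n0 + 1, hC2, fun n hn => ⟨none, fun g hgg => (by simp at hgg), fun V hV _ => ?_⟩⟩
    obtain ⟨n', rfl⟩ : ∃ n', n = n' + 1 := ⟨n - 1, by omega⟩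
    refine h3 V hV (P (n' + 1)) ?_
    by_contra hcon
    push Not at hcon
    exact hkr (h2 n' (by omega) hcon.le).1

end Pool.Agent.Lib.MP_9ec2c5_gen
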