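import Mathlib
import Pool.Agent.Lib.MP_9ec2c5_gen.GlobLocal
import Pool.Agent.Lib.MP_9ec2c5_gen.AuxPoly
import Pool.Agent.Lib.MP_9ec2c5_gen.AbsExt
import Pool.Agent.Lib.MP_9ec2c5_nt_h65.Glob

/-!
A nonzero polynomial vanishes on every orbit which is slow at all places.
-/

set_option autoImplicit false

namespace Pool.Agent.Lib.MP_9ec2c5_gen

open MvPolynomial Filter Topology Height AdmissibleAbsValues
open Pool.Agent.Lib.MP_9ec2c5_nt_h65 (IsPlace)

section general

variable {K : Type} [Field K] [NumberField K]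

/-- the coefficients of finitely many polynomials are integral at almost all places -/
lemma gb_finite_coeff {ι : Type} (s : Finset ι) {N : ℕ} (p : ι → MvPolynomial (Fin N) K) :
    ∃ S : Set (nonarchAbsVal (K := K)), S.Finite ∧ ∀ v : nonarchAbsVal (K := K), v ∉ S →
      ∀ i ∈ s, ∀ a, v.val (coeff a (p i)) ≤ 1 := by
  classical
  choose S hS h using fun c : K => Pool.Agent.Lib.MP_9ec2c5_nt_h65.finite_elt c
  refine ⟨⋃ i ∈ s, ⋃ a ∈ (p i).support, S (coeff a (p i)), ?_, fun v hv i hi a => ?_⟩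
  · refine Set.Finite.biUnion s.finite_toSet fun i _ => ?_
    exact Set.Finite.biUnion (p i).support.finite_toSet fun a _ => hS _
  · by_cases ha : a ∈ (p i).support
    · refine h _ v fun hcon => hv ?_
      rw [Set.mem_iUnion₂]
      refine ⟨i, hi, ?_⟩
      rw [Set.mem_iUnion₂]
      exact ⟨a, ha, hcon⟩
    · rw [notMem_support_iff] at ha
      rw [ha, map_zero]
      exact zero_le_one

/- values of integral polynomials at integral points -/
omit [NumberField K] in
lemma gb_value_integral {N : ℕ} (v : AbsoluteValue K ℝ) (hna : IsNonarchimedean v)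
    (p : MvPolynomial (Fin N) K) (x : Fin N → K) (B : ℝ) (hB : 0 ≤ B)
    (hp : ∀ a, v (coeff a p) ≤ B) (hx : ∀ i, v (x i) ≤ 1) : v (eval x p) ≤ B := by
  rw [eval_eq']
  by_cases hne : p.support.Nonempty
  · refine (hna.apply_sum_le_sup hne).trans ?_
    refine Finset.sup'_le _ _ fun a _ => ?_
    rw [map_mul, map_prod]
    have h1 : ∏ i, v (x i ^ a i) ≤ 1 := by
      refine Finset.prod_le_one (fun i _ => v.nonneg _) fun i _ => ?_
      rw [map_pow]
      exact pow_le_one₀ (v.nonneg _) (hx i)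
    calc v (coeff a p) * ∏ i, v (x i ^ a i) ≤ B * 1 :=
          mul_le_mul (hp a) h1 (Finset.prod_nonneg fun i _ => v.nonneg _) hB
      _ = B := mul_one _
  · rw [Finset.not_nonempty_iff_eq_empty] at hne
    rw [hne, Finset.sum_empty, map_zero]
    exact hB

/-- the orbit is integral at almost all places -/
lemma gb_good_places {N : ℕ} (F : Fin N → MvPolynomial (Fin N) K) (P : ℕ → Fin N → K)
    (hP : ∀ n i, P (n + 1) i = eval (P n) (F i)) :
    ∃ S : Set (nonarchAbsVal (K := K)), S.Finite ∧ ∀ v : nonarchAbsVal (K := K), v ∉ S →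
      ∀ n i, v.val (P n i) ≤ 1 := by
  obtain ⟨S1, hS1, h1⟩ := gb_finite_coeff Finset.univ F
  choose S2 hS2 h2 using fun i => Pool.Agent.Lib.MP_9ec2c5_nt_h65.finite_elt (P 0 i)
  refine ⟨S1 ∪ ⋃ i, S2 i, hS1.union (Set.finite_iUnion hS2), fun v hv n => ?_⟩
  rw [Set.mem_union, not_or, Set.mem_iUnion, not_exists] at hv
  have hna : IsNonarchimedean v.val := isNonarchimedean v.val v.property
  induction n with
  | zero => exact fun i => h2 i v (hv.2 i)
  | succ n ih =>
    intro i
    rw [hP]
    exact gb_value_integral v.val hna (F i) (P n) 1 zero_le_one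
      (fun a => h1 v hv.1 i (Finset.mem_univ _) a) ih

/-- heights of the coordinates from a multiplier -/
lemma gb_height_le {z x : K} (hz : z ≠ 0) {C : ℝ} (h1 : mulHeight₁ z ≤ C)
    (h2 : mulHeight₁ (z * x) ≤ C) : mulHeight₁ x ≤ C * C := by
  have h3 : x = (z * x) * z⁻¹ := by
    field_simp
  rw [h3]
  refine (mulHeight₁_mul_le _ _).trans ?_
  rw [mulHeight₁_inv]
  have h4 : 0 ≤ mulHeight₁ z := zero_le_one.trans (one_le_mulHeight₁ _)
  have h5 : 0 ≤ mulHeight₁ (z * x) := zero_le_one.trans (one_le_mulHeight₁ _)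
  exact mul_le_mul h2 h1 h4 (h5.trans h2)

/- evaluation and extension of scalars -/
omit [NumberField K] in
lemma gb_eval_map {L : Type} [Field L] [Algebra K L] {N : ℕ} (p : MvPolynomial (Fin N) K)
    (x : Fin N → K) : eval (fun i => algebraMap K L (x i)) (MvPolynomial.map (algebraMap K L) p)
      = algebraMap K L (eval x p) := by
  rw [eval_map]
  exact (eval₂_comp_left (algebraMap K L) (RingHom.id K) x p).symm

/- total degree and extension of scalars -/
omit [NumberField K] in
lemma gb_totalDegree_map {L : Type} [Field L] [Algebra K L] {N : ℕ}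
    (p : MvPolynomial (Fin N) K) :
    (MvPolynomial.map (algebraMap K L) p).totalDegree ≤ p.totalDegree := by
  rw [totalDegree, Finset.sup_le_iff]
  intro s hs
  refine le_totalDegree ?_
  rw [mem_support_iff] at hs ⊢
  intro h
  apply hs
  rw [coeff_map, h, map_zero]

end general

theorem slow_vanish {K : Type} [Field K] [NumberField K] {L : Type} [Field L] [Algebra K L]
    [FiniteDimensional K L] {m : ℕ} (F : Fin (m + 1) → MvPolynomial (Fin (m + 1)) K)
    (D : Data L m) (hDF : ∀ i, D.F i = map (algebraMap K L) (F i)) (hdl : 2 ≤ D.dl)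
    (P : ℕ → Fin (m + 1) → K) (hP : ∀ n i, P (n + 1) i = eval (P n) (F i))
    (hinj : Function.Injective P)
    (hslow : ∀ v : AbsoluteValue K ℝ, IsPlace v → ∀ w : AbsoluteValue L ℝ,
      (∀ z : K, w (algebraMap K L z) = v z) →
      ¬ ∃ c : ℝ, 0 < c ∧ ∀ᶠ n in atTop,
        c * (D.dl : ℝ) ^ n ≤ Real.log (nrm w fun i => algebraMap K L (P n i))) :
    ∃ R : MvPolynomial (Fin (m + 1)) K, R ≠ 0 ∧ ∀ n, eval (P n) R = 0 := by
  classical
  obtain ⟨S0, hS0, hgood⟩ := gb_good_places F P hP
  -- the bad places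
  set PS : Finset (AbsoluteValue K ℝ) :=
    (archAbsVal (K := K)).toFinset ∪ (hS0.toFinset.image Subtype.val) with hPS
  have hPSp : ∀ v ∈ PS, IsPlace v := by
    intro v hv
    rw [hPS, Finset.mem_union, Multiset.mem_toFinset, Finset.mem_image] at hv
    rcases hv with hv | ⟨u, -, rfl⟩
    · exact Or.inl hv
    · exact Or.inr u.property
  obtain ⟨D0, haux⟩ := exists_aux (K := K) (L := L) m PS.card D.dl
  -- the germs
  have hexG : ∀ k : Fin (m + 1), ∃ G : Set (Fin (m + 1) → MvPolynomial (Fin (m + 1)) L),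
      G.Finite ∧ (k < D.r → GermSet D k ((D0 + 1) * D.dl) G) := by
    intro k
    by_cases hk : k < D.r
    · obtain ⟨G, h1, h2, h3⟩ := germs D k hk ((D0 + 1) * D.dl)
      exact ⟨G, h1, fun _ => ⟨h1, h2, h3⟩⟩
    · exact ⟨∅, Set.finite_empty, fun h => absurd h hk⟩
  choose G hGf hG using hexG
  set GG : Finset (Fin (m + 1) × (Fin (m + 1) → MvPolynomial (Fin (m + 1)) L)) :=
    (Finset.univ.filter fun k => k < D.r).biUnion
      (fun k => (hGf k).toFinset.image (Prod.mk k)) with hGG
  have hmemGG : ∀ g, g ∈ GG ↔ (g.1 < D.r ∧ g.2 ∈ G g.1) := by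
    intro g
    rw [hGG, Finset.mem_biUnion]
    constructor
    · rintro ⟨k, hk, hg⟩
      rw [Finset.mem_image] at hg
      obtain ⟨γ, hγ, rfl⟩ := hg
      exact ⟨(Finset.mem_filter.mp hk).2, (hGf k).mem_toFinset.mp hγ⟩
    · rintro ⟨h1, h2⟩
      refine ⟨g.1, Finset.mem_filter.mpr ⟨Finset.mem_univ _, h1⟩, ?_⟩
      rw [Finset.mem_image]
      exact ⟨g.2, (hGf g.1).mem_toFinset.mpr h2, rfl⟩
  set Vs : Finset (Finset (Fin (m + 1) × (Fin (m + 1) → MvPolynomial (Fin (m + 1)) L))) :=
    GG.powerset.filter fun V => V.card ≤ PS.card with hVs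
  have hmemVs : ∀ V, V ∈ Vs ↔ (V ⊆ GG ∧ V.card ≤ PS.card) := by
    intro V
    rw [hVs, Finset.mem_filter, Finset.mem_powerset]
  -- the auxiliary polynomials
  have hexR : ∀ V : Finset (Fin (m + 1) × (Fin (m + 1) → MvPolynomial (Fin (m + 1)) L)),
      ∃ R : MvPolynomial (Fin (m + 1)) K, R ≠ 0 ∧ (V ∈ Vs → R.totalDegree ≤ D0 ∧
        ∀ g ∈ V, Ord ((D0 + 1) * D.dl)
          (bind₁ g.2 (hom g.1 D0 (MvPolynomial.map (algebraMap K L) R)))) := by
    intro V
    by_cases hV : V ∈ Vs
    · obtain ⟨h1, h2⟩ := (hmemVs V).mp hV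
      obtain ⟨R, h3, h4, h5⟩ := haux V h2 fun g hg => by
        obtain ⟨h6, h7⟩ := (hmemGG g).mp (h1 hg)
        exact ⟨lt_of_lt_of_le h6 (Fin.le_last _), (hG g.1 h6).2.1 _ h7⟩
      exact ⟨R, h3, fun _ => ⟨h4, h5⟩⟩
    · exact ⟨1, one_ne_zero, fun h => absurd h hV⟩
  choose R hR0 hR using hexR
  -- local estimates
  have hloc : ∀ v : AbsoluteValue K ℝ, ∃ (C : ℝ) (n1 : ℕ), 0 ≤ C ∧ (v ∈ PS → ∀ n, n1 ≤ n →
      ∃ o : Option (Fin (m + 1) × (Fin (m + 1) → MvPolynomial (Fin (m + 1)) L)),
        (∀ g, o = some g → g ∈ GG) ∧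
        ∀ V ∈ Vs, (∀ g, o = some g → g ∈ V) →
          v (eval (P n) (R V)) ≤ C ∧ ∀ i, v (eval (P n) (R V) * P n i) ≤ C) := by
    intro v
    by_cases hv : v ∈ PS
    · obtain ⟨w, hw⟩ := exists_abs_ext (L := L) v (hPSp v hv)
      have hPL : ∀ n, (fun i => algebraMap K L (P (n + 1) i))
          = ev D.F (fun i => algebraMap K L (P n i)) := by
        intro n
        funext i
        rw [ev, hDF, hP, gb_eval_map]
      obtain ⟨C, n1, hC, h1⟩ := glob_local w D hdl (fun n i => algebraMap K L (P n i)) hPL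
        (hslow v (hPSp v hv) w hw) D0 G hG Vs (fun V => MvPolynomial.map (algebraMap K L) (R V))
        (fun V hV => by
          refine le_trans ?_ (hR V hV).1
          exact gb_totalDegree_map _)
        (fun V hV => (hR V hV).2)
      refine ⟨C, n1, hC, fun _ n hn => ?_⟩
      obtain ⟨o, ho1, ho2⟩ := h1 n hn
      refine ⟨o, fun g hg => (hmemGG g).mpr (ho1 g hg), fun V hV hoV => ?_⟩
      have h2 := ho2 V hV hoV
      have h3 : w (eval (fun i => algebraMap K L (P n i))
          (MvPolynomial.map (algebraMap K L) (R V))) = v (eval (P n) (R V)) := by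
        rw [gb_eval_map, hw]
      rw [h3] at h2
      have h4 : 0 ≤ v (eval (P n) (R V)) := v.nonneg _
      constructor
      · refine le_trans ?_ h2
        exact le_mul_of_one_le_right h4 (le_max_left _ _)
      · intro i
        rw [map_mul]
        refine le_trans (mul_le_mul_of_nonneg_left ?_ h4) h2
        refine le_trans ?_ (le_max_right _ _)
        rw [← hw]
        exact le_nrm w (fun i => algebraMap K L (P n i)) i
    · exact ⟨0, 0, le_refl _, fun h => absurd h hv⟩
  choose Cv nv hCv hloc using hloc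
  -- the places where the auxiliary polynomials are not integral
  obtain ⟨S1, hS1, hS1'⟩ := gb_finite_coeff Vs R
  -- bounds for the coefficients
  obtain ⟨CB, hCB⟩ : ∃ CB : AbsoluteValue K ℝ → ℝ, ∀ v, 0 ≤ CB v ∧ ∀ V ∈ Vs, ∀ a,
      v (coeff a (R V)) ≤ CB v := by
    have hex : ∀ v : AbsoluteValue K ℝ, ∃ c : ℝ, 0 ≤ c ∧ ∀ V ∈ Vs, ∀ a,
        v (coeff a (R V)) ≤ c := by
      intro v
      refine ⟨∑ V ∈ Vs, ∑ a ∈ (R V).support, v (coeff a (R V)),
        Finset.sum_nonneg fun V _ => Finset.sum_nonneg fun a _ => v.nonneg _, fun V hV a => ?_⟩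
      by_cases ha : a ∈ (R V).support
      · refine le_trans (Finset.single_le_sum (f := fun a => v (coeff a (R V)))
          (fun b _ => v.nonneg _) ha) ?_
        exact Finset.single_le_sum (f := fun V => ∑ a ∈ (R V).support, v (coeff a (R V)))
          (fun V _ => Finset.sum_nonneg fun a _ => v.nonneg _) hV
      · rw [notMem_support_iff] at ha
        rw [ha, map_zero]
        exact Finset.sum_nonneg fun V _ => Finset.sum_nonneg fun a _ => v.nonneg _
    choose CB hCB using hex
    exact ⟨CB, hCB⟩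
  obtain ⟨C1, hC1⟩ := Pool.Agent.Lib.MP_9ec2c5_nt_h65.height_le_of_forall (K := K) (S0 ∪ S1)
    (hS0.union hS1) (fun v => 1 + Cv v + CB v) (fun v => by
      have h1 := hCv v
      have h2 := (hCB v).1
      linarith)
  -- the exceptional times
  have hfin : {x : Fin (m + 1) → K | ∀ i, mulHeight₁ (x i) ≤ C1 * C1}.Finite := by
    have h1 := NumberField.finite_setOfPred_mulHeight₁_le K (C1 * C1)
    have h2 := Set.Finite.pi' (ι := Fin (m + 1)) fun _ => h1
    exact h2
  have hE : {n | ∀ i, mulHeight₁ (P n i) ≤ C1 * C1}.Finite :=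
    hfin.preimage hinj.injOn
  set n1 := PS.sup nv with hn1
  set E : Finset ℕ := hE.toFinset ∪ Finset.range n1 with hEdef
  -- the main step
  have hmain : ∀ n, n ∉ E → ∃ V ∈ Vs, eval (P n) (R V) = 0 := by
    intro n hn
    rw [hEdef, Finset.mem_union, not_or, Set.Finite.mem_toFinset, Finset.mem_range, not_lt] at hn
    obtain ⟨hn2, hn3⟩ := hn
    have hexo : ∀ v : AbsoluteValue K ℝ,
      ∃ o : Option (Fin (m + 1) × (Fin (m + 1) → MvPolynomial (Fin (m + 1)) L)), v ∈ PS →
        (∀ g, o = some g → g ∈ GG) ∧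
        ∀ V ∈ Vs, (∀ g, o = some g → g ∈ V) →
          v (eval (P n) (R V)) ≤ Cv v ∧ ∀ i, v (eval (P n) (R V) * P n i) ≤ Cv v := by
      intro v
      by_cases hv : v ∈ PS
      · obtain ⟨o, ho⟩ := hloc v hv n ((Finset.le_sup (f := nv) hv).trans hn3)
        exact ⟨o, fun _ => ho⟩
      · exact ⟨none, fun h => absurd h hv⟩
    choose o ho using hexo
    set V : Finset (Fin (m + 1) × (Fin (m + 1) → MvPolynomial (Fin (m + 1)) L)) :=
      PS.biUnion fun v => (o v).toFinset with hVdef
    have hV : V ∈ Vs := by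
      rw [hmemVs]
      constructor
      · intro g hg
        rw [hVdef, Finset.mem_biUnion] at hg
        obtain ⟨v, hv, hg⟩ := hg
        exact (ho v hv).1 g (Option.mem_toFinset.mp hg)
      · refine Finset.card_biUnion_le.trans ?_
        calc ∑ v ∈ PS, (o v).toFinset.card ≤ ∑ v ∈ PS, 1 := by
              refine Finset.sum_le_sum fun v _ => ?_
              cases o v with
              | none => simp
              | some g => simp
          _ = PS.card := by simp
    have hoV : ∀ v ∈ PS, ∀ g, o v = some g → g ∈ V := by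
      intro v hv g hg
      rw [hVdef, Finset.mem_biUnion]
      exact ⟨v, hv, Option.mem_toFinset.mpr hg⟩
    refine ⟨V, hV, ?_⟩
    by_contra hz
    refine hn2 fun i => ?_
    -- bounds at all places
    have hnon : ∀ v : nonarchAbsVal (K := K), v ∉ S0 →
        v.val (eval (P n) (R V)) ≤ CB v.val ∧ v.val (eval (P n) (R V) * P n i) ≤ CB v.val := by
      intro v hv
      have hna : IsNonarchimedean v.val := isNonarchimedean v.val v.property
      have h1 := gb_value_integral v.val hna (R V) (P n) (CB v.val) (hCB v.val).1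
        ((hCB v.val).2 V hV) (hgood v hv n)
      refine ⟨h1, ?_⟩
      rw [map_mul]
      calc v.val (eval (P n) (R V)) * v.val (P n i) ≤ v.val (eval (P n) (R V)) * 1 :=
            mul_le_mul_of_nonneg_left (hgood v hv n i) (v.val.nonneg _)
        _ ≤ CB v.val := by rw [mul_one]; exact h1
    have hnon1 : ∀ v : nonarchAbsVal (K := K), v ∉ S0 ∪ S1 →
        v.val (eval (P n) (R V)) ≤ 1 ∧ v.val (eval (P n) (R V) * P n i) ≤ 1 := by
      intro v hv
      rw [Set.mem_union, not_or] at hv
      have hna : IsNonarchimedean v.val := isNonarchimedean v.val v.property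
      have h1 := gb_value_integral v.val hna (R V) (P n) 1 zero_le_one
        (fun a => hS1' v hv.2 V hV a) (hgood v hv.1 n)
      refine ⟨h1, ?_⟩
      rw [map_mul]
      calc v.val (eval (P n) (R V)) * v.val (P n i) ≤ v.val (eval (P n) (R V)) * 1 :=
            mul_le_mul_of_nonneg_left (hgood v hv.1 n i) (v.val.nonneg _)
        _ ≤ 1 := by rw [mul_one]; exact h1
    have harch : ∀ v ∈ archAbsVal (K := K), v ∈ PS := by
      intro v hv
      rw [hPS, Finset.mem_union, Multiset.mem_toFinset]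
      exact Or.inl hv
    have hS0PS : ∀ v : nonarchAbsVal (K := K), v ∈ S0 → v.val ∈ PS := by
      intro v hv
      rw [hPS, Finset.mem_union, Finset.mem_image]
      exact Or.inr ⟨v, hS0.mem_toFinset.mpr hv, rfl⟩
    have hPSb : ∀ v ∈ PS, v (eval (P n) (R V)) ≤ 1 + Cv v + CB v ∧
        v (eval (P n) (R V) * P n i) ≤ 1 + Cv v + CB v := by
      intro v hv
      have h1 := (ho v hv).2 V hV (hoV v hv)
      have h2 := (hCB v).1
      have h3 := h1.2 i
      constructor <;> linarith [h1.1]
    have hz1 : mulHeight₁ (eval (P n) (R V)) ≤ C1 := by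
      refine hC1 _ (fun v hv => (hPSb v (harch v hv)).1) (fun v hv => ?_)
        (fun v hv => (hnon1 v hv).1)
      by_cases hv0 : v ∈ S0
      · exact (hPSb v.val (hS0PS v hv0)).1
      · have h1 := (hnon v hv0).1
        have h2 := hCv v.val
        linarith
    have hz2 : mulHeight₁ (eval (P n) (R V) * P n i) ≤ C1 := by
      refine hC1 _ (fun v hv => (hPSb v (harch v hv)).2) (fun v hv => ?_)
        (fun v hv => (hnon1 v hv).2)
      by_cases hv0 : v ∈ S0
      · exact (hPSb v.val (hS0PS v hv0)).2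
      · have h1 := (hnon v hv0).2
        have h2 := hCv v.val
        linarith
    exact gb_height_le hz hz1 hz2
  refine ⟨(∏ V ∈ Vs, R V) * ∏ n ∈ E, (X 0 - C (P n 0)), ?_, fun n => ?_⟩
  · refine mul_ne_zero (Finset.prod_ne_zero_iff.mpr fun V _ => hR0 V)
      (Finset.prod_ne_zero_iff.mpr fun n _ hcon => ?_)
    have h1 := congrArg (eval fun _ => P n 0 + 1) hcon
    simp at h1
  · rw [map_mul]
    by_cases hn : n ∈ E
    · have h1 : eval (P n) (∏ n ∈ E, (X 0 - C (P n 0))) = 0 := by
        rw [map_prod]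
        refine Finset.prod_eq_zero hn ?_
        simp
      rw [h1, mul_zero]
    · obtain ⟨V, hV, h1⟩ := hmain n hn
      have h2 : eval (P n) (∏ V ∈ Vs, R V) = 0 := by
        rw [map_prod]
        exact Finset.prod_eq_zero hV h1
      rw [h2, zero_mul]

end Pool.Agent.Lib.MP_9ec2c5_gen
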