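import Mathlib
import Pool.Agent.Lib.MP_9ec2c5_gen.Defs

/-!
Explicit polynomial maps which satisfy the genericity condition.
-/

set_option autoImplicit false

namespace Pool.Agent.Lib.MP_9ec2c5_gen

open MvPolynomial

/-- If the leading form of the first coordinate is a power of the first variable and the leading
form of every other coordinate is `X_j ^ d_j - X_(j-1) ^ d_j`, then the map is generic. -/
theorem generic_example {K : Type} [Field K] [CharZero K] {m : ℕ}
    (F : Fin (m + 1) → MvPolynomial (Fin (m + 1)) K) (d : Fin (m + 1) → ℕ) (r : Fin (m + 1))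
    (hd : ∀ j, 1 ≤ d j)
    (h0 : homogeneousComponent (d 0) (F 0) = X 0 ^ d 0)
    (h1 : ∀ j : Fin m, homogeneousComponent (d j.succ) (F j.succ)
      = X j.succ ^ d j.succ - X j.castSucc ^ d j.succ) : Generic F d r := by
  have hd' : ∀ j, d j ≠ 0 := fun j => by
    have := hd j
    omega
  -- values of the leading forms
  have hv0 : ∀ t : Fin (m + 1) → AlgebraicClosure K,
      aeval t (homogeneousComponent (d 0) (F 0)) = t 0 ^ d 0 := by
    intro t
    rw [h0, map_pow, aeval_X]
  have hv1 : ∀ (t : Fin (m + 1) → AlgebraicClosure K) (j : Fin m),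
      aeval t (homogeneousComponent (d j.succ) (F j.succ))
        = t j.succ ^ d j.succ - t j.castSucc ^ d j.succ := by
    intro t j
    rw [h1, map_sub, map_pow, map_pow, aeval_X, aeval_X]
  refine ⟨fun k t _ hk0 hk1 hz => ⟨?_, ?_⟩, fun t hr0 hz => ?_⟩
  · induction k using Fin.cases with
    | zero => rw [hv0, hk1, one_pow]; exact one_ne_zero
    | succ k =>
      rw [hv1, hk1, hk0 k.castSucc (Fin.castSucc_lt_succ), one_pow, zero_pow (hd' _), sub_zero]
      exact one_ne_zero
  · -- the coordinates of index `≥ k` are nonzero
    have hne : ∀ j, k ≤ j → t j ≠ 0 := by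
      intro j
      induction j using Fin.induction with
      | zero =>
        intro h
        have h2 : k = 0 := le_antisymm h (Fin.zero_le _)
        rw [← h2, hk1]
        exact one_ne_zero
      | succ j ih =>
        intro h
        rcases eq_or_lt_of_le h with h2 | h2
        · rw [← h2, hk1]
          exact one_ne_zero
        · have h3 : k ≤ j.castSucc := Fin.le_castSucc_iff.mpr h2
          have h4 := hz j.succ h2
          rw [hv1, sub_eq_zero] at h4
          intro h5
          rw [h5, zero_pow (hd' _)] at h4
          exact ih h3 (pow_eq_zero_iff (hd' _) |>.mp h4.symm)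
    have htri : (Matrix.of fun i j : {i : Fin (m + 1) // k < i} =>
        aeval t (pderiv (i : Fin (m + 1))
          (homogeneousComponent (d j) (F j)))).BlockTriangular id := by
      intro i j hij
      have hij' : (j : Fin (m + 1)) < i := hij
      rw [Matrix.of_apply]
      obtain ⟨j, hj⟩ := j
      induction j using Fin.cases with
      | zero => exact absurd hj (not_lt.mpr (Fin.zero_le _))
      | succ j =>
        have h5 : (i : Fin (m + 1)) ≠ j.succ := ne_of_gt hij'
        have h6 : (i : Fin (m + 1)) ≠ j.castSucc :=
          ne_of_gt (lt_trans Fin.castSucc_lt_succ hij')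
        rw [h1, map_sub, pderiv_pow, pderiv_pow, pderiv_X_of_ne h5.symm, pderiv_X_of_ne h6.symm]
        simp
    rw [Matrix.det_of_isUpperTriangular htri, Finset.prod_ne_zero_iff]
    rintro ⟨j, hj⟩ -
    rw [Matrix.of_apply]
    induction j using Fin.cases with
    | zero => exact absurd hj (not_lt.mpr (Fin.zero_le _))
    | succ j =>
      have h6 : j.castSucc ≠ j.succ := (Fin.castSucc_lt_succ).ne
      have h7 : pderiv j.succ (homogeneousComponent (d j.succ) (F j.succ))
          = (d j.succ : MvPolynomial (Fin (m + 1)) K) * X j.succ ^ (d j.succ - 1) := by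
        rw [h1, map_sub, pderiv_pow, pderiv_pow, pderiv_X_self, pderiv_X_of_ne h6]
        ring
      show aeval t (pderiv j.succ (homogeneousComponent (d j.succ) (F j.succ))) ≠ 0
      rw [h7, map_mul, map_pow, aeval_X, map_natCast]
      have hchar : CharZero (AlgebraicClosure K) := charZero_of_injective_algebraMap
        (algebraMap K (AlgebraicClosure K)).injective
      exact mul_ne_zero (Nat.cast_ne_zero.mpr (hd' _)) (pow_ne_zero _ (hne _ hj.le))
  · funext i
    rw [Pi.zero_apply]
    induction i using Fin.induction with
    | zero =>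
      by_cases h : 0 < r
      · exact hr0 0 h
      · have h2 := hz 0 (not_lt.mp h)
        rw [hv0] at h2
        exact (pow_eq_zero_iff (hd' _)).mp h2
    | succ i ih =>
      by_cases h : i.succ < r
      · exact hr0 _ h
      · have h2 := hz i.succ (not_lt.mp h)
        rw [hv1, ih, zero_pow (hd' _), sub_zero] at h2
        exact (pow_eq_zero_iff (hd' _)).mp h2

end Pool.Agent.Lib.MP_9ec2c5_gen
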