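import Mathlib
import Pool.Agent.Lib.MP_9ec2c5_gen.Defs

/-!
Upper bound for the heights along an orbit.
-/

set_option autoImplicit false

namespace Pool.Agent.Lib.MP_9ec2c5_gen

open MvPolynomial Filter Topology Height

namespace Upper

variable {K : Type} [Field K] {m : ℕ}

/-- Homogenisation with a new variable. -/
noncomputable def hz (e : ℕ) (p : MvPolynomial (Fin (m + 1)) K) : MvPolynomial (Fin (m + 2)) K :=
  ∑ s ∈ p.support, monomial (Finsupp.cons (e - s.degree) s) (coeff s p)

theorem hz_hom (e : ℕ) (p : MvPolynomial (Fin (m + 1)) K) (hp : p.totalDegree ≤ e) :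
    (hz e p).IsHomogeneous e := by
  unfold hz
  refine IsHomogeneous.sum _ _ _ fun s hs => isHomogeneous_monomial _ ?_
  have h1 : s.degree ≤ e := (le_totalDegree hs).trans hp
  rw [Finsupp.degree_eq_sum, Fin.sum_univ_succ, Finsupp.cons_zero]
  simp only [Finsupp.cons_succ]
  rw [← Finsupp.degree_eq_sum]
  omega

theorem hz_eval (e : ℕ) (p : MvPolynomial (Fin (m + 1)) K) (P : Fin (m + 1) → K) :
    eval (Fin.cons 1 P : Fin (m + 2) → K) (hz e p) = eval P p := by
  unfold hz
  conv_rhs => rw [p.as_sum]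
  rw [map_sum, map_sum]
  refine Finset.sum_congr rfl fun s _ => ?_
  rw [eval_monomial, eval_monomial, Finsupp.prod_fintype _ _ (fun _ => pow_zero _),
    Finsupp.prod_fintype _ _ (fun _ => pow_zero _), Fin.prod_univ_succ]
  simp only [Fin.cons_zero, Fin.cons_succ, one_pow, one_mul, Finsupp.cons_succ]

end Upper

theorem height_upper {K : Type} [Field K] [NumberField K] {m : ℕ}
    (F : Fin (m + 1) → MvPolynomial (Fin (m + 1)) K) (e : ℕ) (he : 2 ≤ e)
    (hF : ∀ i, (F i).totalDegree ≤ e)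
    (P : ℕ → Fin (m + 1) → K) (hP : ∀ n i, P (n + 1) i = eval (P n) (F i)) :
    ∃ M : ℝ, 0 ≤ M ∧ ∀ n, logHeight (Fin.cons 1 (P n) : Fin (m + 2) → K) ≤ M * (e : ℝ) ^ n := by
  set p : Fin (m + 2) → MvPolynomial (Fin (m + 2)) K :=
    Fin.cons (X 0 ^ e) (fun i => Upper.hz e (F i)) with hp
  have hhom : ∀ i, (p i).IsHomogeneous e := by
    intro i
    refine Fin.cases ?_ (fun i => ?_) i
    · rw [hp, Fin.cons_zero]
      have := (isHomogeneous_X K (0 : Fin (m + 2))).pow e
      rwa [one_mul] at this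
    · rw [hp, Fin.cons_succ]
      exact Upper.hz_hom e _ (hF i)
  obtain ⟨C, hC⟩ := logHeight_eval_le' hhom
  set C' : ℝ := max C 0 with hC'
  have hC0 : 0 ≤ C' := le_max_right _ _
  set a : ℕ → ℝ := fun n => logHeight (Fin.cons 1 (P n) : Fin (m + 2) → K) with ha
  have ha0 : ∀ n, 0 ≤ a n := fun n => logHeight_nonneg _
  have hstep : ∀ n, a (n + 1) ≤ C' + e * a n := by
    intro n
    have h1 := hC (Fin.cons 1 (P n))
    have h2 : (fun j => eval (Fin.cons 1 (P n) : Fin (m + 2) → K) (p j)) =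
        Fin.cons 1 (P (n + 1)) := by
      funext j
      refine Fin.cases ?_ (fun i => ?_) j
      · rw [hp, Fin.cons_zero, Fin.cons_zero, map_pow, eval_X, Fin.cons_zero, one_pow]
      · rw [hp, Fin.cons_succ, Fin.cons_succ, Upper.hz_eval, hP]
    rw [h2] at h1
    exact h1.trans (by gcongr; exact le_max_left _ _)
  have he2 : (2 : ℝ) ≤ e := by exact_mod_cast he
  refine ⟨a 0 + C', add_nonneg (ha0 0) hC0, ?_⟩
  have key : ∀ n, a n + C' ≤ (a 0 + C') * (e : ℝ) ^ n := by
    intro n
    induction n with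
    | zero => rw [pow_zero, mul_one]
    | succ n ih =>
      have h1 := hstep n
      have h2 : 0 ≤ C' * (e - 2) := mul_nonneg hC0 (by linarith)
      calc a (n + 1) + C' ≤ e * (a n + C') := by linarith
        _ ≤ e * ((a 0 + C') * (e : ℝ) ^ n) := mul_le_mul_of_nonneg_left ih (by linarith)
        _ = _ := by rw [pow_succ]; ring
  intro n
  have := key n
  linarith

end Pool.Agent.Lib.MP_9ec2c5_gen
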