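import Mathlib
import Pool.Agent.Lib.MP_9ec2c5_gen.Glob
import Pool.Agent.Lib.MP_9ec2c5_gen.NullBase
import Pool.Agent.Lib.MP_9ec2c5_gen.Deg
import Pool.Agent.Lib.MP_9ec2c5_gen.Upper

/-!
The Kawaguchi-Silverman conjecture for generic polynomial maps whose degrees below the largest one
are pairwise distinct.
-/

set_option autoImplicit false

namespace Pool.Agent.Lib.MP_9ec2c5_gen

open MvPolynomial Filter Topology Height
open Pool.Agent.Lib.MP_9ec2c5_nt_h65 (IsPlace)

/-- a dense orbit is injective -/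
lemma fn_injective {K : Type} [Field K] {m : ℕ}
    (F : Fin (m + 1) → MvPolynomial (Fin (m + 1)) K)
    (P : ℕ → Fin (m + 1) → K) (hP : ∀ n i, P (n + 1) i = eval (P n) (F i))
    (hdense : ∀ R : MvPolynomial (Fin (m + 1)) K, (∀ n, eval (P n) R = 0) → R = 0) :
    Function.Injective P := by
  by_contra hcon
  -- two equal points
  obtain ⟨a, b, hab, hPab⟩ : ∃ a b, a < b ∧ P a = P b := by
    rw [Function.Injective] at hcon
    push Not at hcon
    obtain ⟨a, b, h1, h2⟩ := hcon
    rcases lt_or_gt_of_ne h2 with h3 | h3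
    · exact ⟨a, b, h3, h1⟩
    · exact ⟨b, a, h3, h1.symm⟩
  -- all points occur before `b`
  have hmem : ∀ n, ∃ l, l < b ∧ P n = P l := by
    intro n
    induction n with
    | zero => exact ⟨0, by omega, rfl⟩
    | succ n ih =>
      obtain ⟨l, hl, hPl⟩ := ih
      have h1 : P (n + 1) = P (l + 1) := by
        funext i
        rw [hP, hP, hPl]
      rcases eq_or_lt_of_le (Nat.succ_le_of_lt hl) with h2 | h2
      · refine ⟨a, hab, ?_⟩
        rw [h1, hPab]
        congr 1
      · exact ⟨l + 1, h2, h1⟩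
  have h1 := hdense (∏ l ∈ Finset.range b, (X 0 - C (P l 0))) (fun n => by
    obtain ⟨l, hl, hPl⟩ := hmem n
    rw [map_prod]
    refine Finset.prod_eq_zero (Finset.mem_range.mpr hl) ?_
    simp [hPl])
  rw [Finset.prod_eq_zero_iff] at h1
  obtain ⟨l, -, h2⟩ := h1
  have h3 := congrArg (eval fun _ => P l 0 + 1) h2
  simp at h3

/-- the height of a point is at least the logarithm of its norm at a place, up to a constant -/
lemma fn_height_lower {K : Type} [Field K] [NumberField K] {m : ℕ} (v : AbsoluteValue K ℝ)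
    (hv : IsPlace v) (x : Fin (m + 1) → K) (i : Fin (m + 1)) :
    Real.log (v (x i)) ≤ logHeight (Fin.cons 1 x : Fin (m + 2) → K) := by
  have h0 : 0 ≤ logHeight (Fin.cons 1 x : Fin (m + 2) → K) := logHeight_nonneg _
  rcases (v.nonneg (x i)).eq_or_lt with h | h
  · rw [← h, Real.log_zero]
    exact h0
  · have h1 := Real.log_le_log h (hv.le_height (x i))
    refine h1.trans ?_
    have h2 := logHeight_comp_le (![Fin.succ i, 0] : Fin 2 → Fin (m + 2))
      (Fin.cons 1 x : Fin (m + 2) → K)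
    have h3 : (Fin.cons 1 x : Fin (m + 2) → K) ∘ (![Fin.succ i, 0] : Fin 2 → Fin (m + 2))
        = ![x i, 1] := by
      funext j
      fin_cases j <;> simp
    rw [h3, ← logHeight₁_eq_logHeight] at h2
    exact h2

theorem arithmetic_degree_generic {K : Type} [Field K] [NumberField K] {m : ℕ}
    (F : Fin (m + 1) → MvPolynomial (Fin (m + 1)) K) (d : Fin (m + 1) → ℕ) (r : Fin (m + 1))
    (hlt : ∀ i j, i < j → i < r → d i < d j) (htop : ∀ j, r ≤ j → d j = d r)
    (hd0 : 1 ≤ d 0) (hdl : 2 ≤ d r) (hF : ∀ i, (F i).totalDegree ≤ d i)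
    (hG : Generic F d r) :
    Tendsto (fun n : ℕ => (iterDeg F n : ℝ) ^ (1 / (n : ℝ))) atTop (𝓝 (d r : ℝ)) ∧
    ∀ P : ℕ → Fin (m + 1) → K, (∀ n i, P (n + 1) i = eval (P n) (F i)) →
      (∀ R : MvPolynomial (Fin (m + 1)) K, (∀ n, eval (P n) R = 0) → R = 0) →
      (∃ c : ℝ, 0 < c ∧ ∀ᶠ n in atTop, c * (d r : ℝ) ^ n ≤ weilHeight (P n)) ∧
      Tendsto (fun n : ℕ => weilHeight (P n) ^ (1 / (n : ℝ))) atTop (𝓝 (d r : ℝ)) := by
  constructor
  · have h1 : (fun n : ℕ => (iterDeg F n : ℝ) ^ (1 / (n : ℝ))) =ᶠ[atTop] fun _ => (d r : ℝ) := by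
      filter_upwards [eventually_gt_atTop 0] with n hn
      rw [iterDeg_eq F d r hlt htop hd0 hF hG n, Nat.cast_pow, one_div]
      exact Real.pow_rpow_inv_natCast (Nat.cast_nonneg _) hn.ne'
    exact Tendsto.congr' h1.symm tendsto_const_nhds
  · intro P hP hdense
    have hinj := fn_injective F P hP hdense
    obtain ⟨L, _, _, _, D, hDF, hDd, hDr⟩ := exists_data F d r hlt htop hd0 hF hG
    have hdl' : D.dl = d r := by
      rw [Data.dl, hDd, hDr]
    -- a fast place
    obtain ⟨v, hv, w, hw, c, hc, hfast⟩ : ∃ v : AbsoluteValue K ℝ, IsPlace v ∧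
        ∃ w : AbsoluteValue L ℝ, (∀ z : K, w (algebraMap K L z) = v z) ∧
        ∃ c : ℝ, 0 < c ∧ ∀ᶠ n in atTop,
          c * (D.dl : ℝ) ^ n ≤ Real.log (nrm w fun i => algebraMap K L (P n i)) := by
      by_contra hcon
      obtain ⟨R, hR, hR0⟩ := slow_vanish F D hDF (by rw [hdl']; exact hdl) P hP hinj
        (fun v hv w hw ⟨c, hc, h1⟩ => hcon ⟨v, hv, w, hw, c, hc, h1⟩)
      exact hR (hdense R hR0)
    rw [hdl'] at hfast
    have hlow : ∀ᶠ n in atTop, c * (d r : ℝ) ^ n
        ≤ logHeight (Fin.cons 1 (P n) : Fin (m + 2) → K) := by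
      filter_upwards [hfast] with n hn
      obtain ⟨i, hi⟩ := exists_nrm w fun i => algebraMap K L (P n i)
      rw [← hi, hw] at hn
      exact hn.trans (fn_height_lower v hv (P n) i)
    have hdi : ∀ i, (F i).totalDegree ≤ d r := by
      intro i
      refine (hF i).trans ?_
      by_cases h : i < r
      · exact (hlt i r h h).le
      · exact (htop i (not_lt.mp h)).le
    obtain ⟨M, hM, hup⟩ := height_upper F (d r) hdl hdi P hP
    have hfr : (0 : ℝ) < Module.finrank ℚ K := by
      exact_mod_cast Module.finrank_pos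
    have hdr1 : (1 : ℝ) ≤ (d r : ℝ) := by
      have : 1 ≤ d r := by omega
      exact_mod_cast this
    have hlow2 : ∀ᶠ n in atTop, c / Module.finrank ℚ K * (d r : ℝ) ^ n ≤ weilHeight (P n) := by
      filter_upwards [hlow] with n hn
      rw [weilHeight]
      have h1 : c / Module.finrank ℚ K * (d r : ℝ) ^ n
          ≤ logHeight (Fin.cons 1 (P n) : Fin (m + 2) → K) / Module.finrank ℚ K := by
        rw [div_mul_eq_mul_div]
        exact div_le_div_of_nonneg_right hn hfr.le
      linarith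
    refine ⟨⟨c / Module.finrank ℚ K, by positivity, hlow2⟩, ?_⟩
    refine Pool.Agent.Lib.MP_9ec2c5_nt_h65.tendsto_root (d r) (by omega)
      (fun n => weilHeight (P n)) (c / Module.finrank ℚ K) (1 + M / Module.finrank ℚ K)
      (by positivity) hlow2 ?_
    · filter_upwards with n
      rw [weilHeight, add_mul, one_mul]
      have h1 : logHeight (Fin.cons 1 (P n) : Fin (m + 2) → K) / Module.finrank ℚ K
          ≤ M / Module.finrank ℚ K * (d r : ℝ) ^ n := by
        rw [div_mul_eq_mul_div]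
        exact div_le_div_of_nonneg_right (hup n) hfr.le
      have h2 : (1 : ℝ) ≤ (d r : ℝ) ^ n := one_le_pow₀ hdr1
      linarith

end Pool.Agent.Lib.MP_9ec2c5_gen
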